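import Pool.Agent.Lib.MP_26a019_lc.Defs

/-!
The three colour inequality: the base case (no free vertex next to a pinned vertex with one of the
colours `a`, `b`).
-/

open Finset Classical

namespace Pool.Agent.Kempe

variable {V C : Type} [Fintype V]
variable {G : SimpleGraph V} {f : V → C} {W : Finset V} {a b c : C} {u : V}

/-- exchange of `a` and `b` on the free vertices -/
private noncomputable def bstar (W : Finset V) (a b : C) (f : V → C) : V → C :=
  fun z => if z ∈ W then f z else Equiv.swap a b (f z)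

omit [Fintype V] in
private theorem bstar_bstar (W : Finset V) (a b : C) (f : V → C) :
    bstar W a b (bstar W a b f) = f := by
  funext z
  unfold bstar
  by_cases h : z ∈ W
  · simp [h]
  · simp [h]

omit [Fintype V] in
private theorem bstar_eq_c (hac : a ≠ c) (hbc : b ≠ c) (z : V) :
    bstar W a b f z = c ↔ f z = c := by
  unfold bstar
  by_cases h : z ∈ W
  · simp [h]
  · simp only [h, if_false]
    constructor
    · intro h1
      have h2 := congrArg (Equiv.swap a b) h1
      rwa [Equiv.swap_apply_self, Equiv.swap_apply_of_ne_of_ne hac.symm hbc.symm] at h2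
    · intro h1
      rw [h1, Equiv.swap_apply_of_ne_of_ne hac.symm hbc.symm]

omit [Fintype V] in
private theorem bstar_eq_a {z : V} (h : z ∉ W) : bstar W a b f z = a ↔ f z = b := by
  unfold bstar
  simp only [h, if_false]
  constructor
  · intro h1
    have h2 := congrArg (Equiv.swap a b) h1
    rwa [Equiv.swap_apply_self, Equiv.swap_apply_left] at h2
  · intro h1
    rw [h1, Equiv.swap_apply_right]

omit [Fintype V] in
private theorem bstar_eq_b {z : V} (h : z ∉ W) : bstar W a b f z = b ↔ f z = a := by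
  unfold bstar
  simp only [h, if_false]
  constructor
  · intro h1
    have h2 := congrArg (Equiv.swap a b) h1
    rwa [Equiv.swap_apply_self, Equiv.swap_apply_right] at h2
  · intro h1
    rw [h1, Equiv.swap_apply_left]

omit [Fintype V] in
private theorem Gam_bstar_a (hac : a ≠ c) (hbc : b ≠ c) :
    Gam G (bstar W a b f) W c a = Gam G f W c b := by
  ext x y
  change (G.Adj x y ∧ _) ↔ (G.Adj x y ∧ _)
  refine and_congr_right fun _ => ?_
  refine or_congr ?_ ?_
  · constructor
    · rintro ⟨h1, h2, h3⟩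
      exact ⟨(bstar_eq_a h3).1 h1, (bstar_eq_c hac hbc _).1 h2, h3⟩
    · rintro ⟨h1, h2, h3⟩
      exact ⟨(bstar_eq_a h3).2 h1, (bstar_eq_c hac hbc _).2 h2, h3⟩
  · constructor
    · rintro ⟨h1, h2, h3⟩
      exact ⟨(bstar_eq_a h3).1 h1, (bstar_eq_c hac hbc _).1 h2, h3⟩
    · rintro ⟨h1, h2, h3⟩
      exact ⟨(bstar_eq_a h3).2 h1, (bstar_eq_c hac hbc _).2 h2, h3⟩

omit [Fintype V] in
private theorem Gam_bstar_b (hac : a ≠ c) (hbc : b ≠ c) :
    Gam G (bstar W a b f) W c b = Gam G f W c a := by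
  ext x y
  change (G.Adj x y ∧ _) ↔ (G.Adj x y ∧ _)
  refine and_congr_right fun _ => ?_
  refine or_congr ?_ ?_
  · constructor
    · rintro ⟨h1, h2, h3⟩
      exact ⟨(bstar_eq_b h3).1 h1, (bstar_eq_c hac hbc _).1 h2, h3⟩
    · rintro ⟨h1, h2, h3⟩
      exact ⟨(bstar_eq_b h3).2 h1, (bstar_eq_c hac hbc _).2 h2, h3⟩
  · constructor
    · rintro ⟨h1, h2, h3⟩
      exact ⟨(bstar_eq_b h3).1 h1, (bstar_eq_c hac hbc _).1 h2, h3⟩
    · rintro ⟨h1, h2, h3⟩
      exact ⟨(bstar_eq_b h3).2 h1, (bstar_eq_c hac hbc _).2 h2, h3⟩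

private theorem MM_bstar_a (hac : a ≠ c) (hbc : b ≠ c) (ord : V → ℕ) :
    MM G (bstar W a b f) W c a ord = MM G f W c b ord := by
  unfold MM
  apply Finset.filter_congr
  intro i _
  rw [Gam_bstar_a hac hbc, bstar_eq_c hac hbc]
  simp only [bstar_eq_c hac hbc]

private theorem MM_bstar_b (hac : a ≠ c) (hbc : b ≠ c) (ord : V → ℕ) :
    MM G (bstar W a b f) W c b ord = MM G f W c a ord := by
  unfold MM
  apply Finset.filter_congr
  intro i _
  rw [Gam_bstar_b hac hbc, bstar_eq_c hac hbc]
  simp only [bstar_eq_c hac hbc]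

private theorem card_MM_le (y : C) (ord : V → ℕ) (hord : Set.InjOn ord (W : Set V)) :
    (MM G f W c y ord).card ≤ NN G f W c y := by
  have hsub : MM G f W c y ord ⊆ SS G f W c y := by
    intro z hz
    unfold MM at hz
    unfold SS
    rw [Finset.mem_filter] at hz ⊢
    exact ⟨Finset.mem_univ _, hz.2.1, Or.inl hz.1⟩
  have hinj : Set.InjOn (fun z => (Gam G f W c y).connectedComponentMk z)
      (MM G f W c y ord : Set V) := by
    intro i hi j hj hij
    have hi' : i ∈ MM G f W c y ord := hi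
    have hj' : j ∈ MM G f W c y ord := hj
    unfold MM at hi' hj'
    rw [Finset.mem_filter] at hi' hj'
    have hr : (Gam G f W c y).Reachable i j := SimpleGraph.ConnectedComponent.exact hij
    have h1 := hi'.2.2 j hj'.1 hj'.2.1 hr
    have h2 := hj'.2.2 i hi'.1 hi'.2.1 hr.symm
    exact hord hi'.1 hj'.1 (le_antisymm h1 h2)
  rw [← Finset.card_image_of_injOn hinj]
  unfold NN
  exact Finset.card_le_card (Finset.image_subset_image hsub)

variable [Fintype C]

private theorem bstar_mem (p : V → C) (hac : a ≠ c) (hbc : b ≠ c)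
    (hbase : ∀ u, u ∉ W → ∀ w ∈ W, G.Adj u w → p w ≠ a ∧ p w ≠ b)
    (hf : f ∈ Om3 G W p a b c) : bstar W a b f ∈ Om3 G W p a b c := by
  unfold Om3 at hf ⊢
  rw [Finset.mem_filter] at hf ⊢
  obtain ⟨-, hp, hW, h3⟩ := hf
  have hfp : ∀ x y, G.Adj x y → x ∉ W → y ∈ W → bstar W a b f x ≠ bstar W a b f y := by
    intro x y hxy hx hy h
    have h1 : bstar W a b f y = p y := by
      unfold bstar
      rw [if_pos hy, hW y hy]
    obtain ⟨h4, h5⟩ := hbase x hx y hy hxy
    rw [h1] at h
    rcases h3 x hx with h6 | h6 | h6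
    · rw [(bstar_eq_b hx).2 h6] at h
      exact h5 h.symm
    · rw [(bstar_eq_a hx).2 h6] at h
      exact h4 h.symm
    · rw [(bstar_eq_c hac hbc x).2 h6] at h
      apply hp x y hxy
      rw [h6, hW y hy, h]
  refine ⟨Finset.mem_univ _, ?_, ?_, ?_⟩
  · intro x y hxy
    by_cases hx : x ∈ W
    · by_cases hy : y ∈ W
      · unfold bstar
        rw [if_pos hx, if_pos hy]
        exact hp x y hxy
      · exact (hfp y x hxy.symm hy hx).symm
    · by_cases hy : y ∈ W
      · exact hfp x y hxy hx hy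
      · unfold bstar
        rw [if_neg hx, if_neg hy]
        intro h
        exact hp x y hxy ((Equiv.swap a b).injective h)
  · intro z hz
    unfold bstar
    rw [if_pos hz]
    exact hW z hz
  · intro z hz
    rcases h3 z hz with h | h | h
    · exact Or.inr (Or.inl ((bstar_eq_b hz).2 h))
    · exact Or.inl ((bstar_eq_a hz).2 h)
    · exact Or.inr (Or.inr ((bstar_eq_c hac hbc z).2 h))

private theorem sum_bstar (p : V → C) (hac : a ≠ c) (hbc : b ≠ c)
    (hbase : ∀ u, u ∉ W → ∀ w ∈ W, G.Adj u w → p w ≠ a ∧ p w ≠ b) (F H : (V → C) → ℤ)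
    (hFH : ∀ f, F (bstar W a b f) = H f) :
    ∑ f ∈ Om3 G W p a b c, F f = ∑ f ∈ Om3 G W p a b c, H f := by
  refine Finset.sum_nbij' (bstar W a b) (bstar W a b)
    (fun f hf => bstar_mem p hac hbc hbase hf) (fun f hf => bstar_mem p hac hbc hbase hf)
    (fun f _ => bstar_bstar W a b f) (fun f _ => bstar_bstar W a b f) ?_
  intro f _
  rw [← hFH, bstar_bstar]

/-! ### Task Base -/
theorem Psi_base (p : V → C) (hab : a ≠ b) (hac : a ≠ c) (hbc : b ≠ c) (A : Finset V)
    (ord : V → ℕ) (hord : Set.InjOn ord (W : Set V))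
    (hbase : ∀ u, u ∉ W → ∀ w ∈ W, G.Adj u w → p w ≠ a ∧ p w ≠ b) :
    0 ≤ ∑ f ∈ Om3 G W p a b c, Psi G f W a b c A ord := by
  have hKK : ∀ f ∈ Om3 G W p a b c, KK G f W a b = ∅ := by
    intro f hf
    unfold Om3 at hf
    rw [Finset.mem_filter] at hf
    obtain ⟨-, hp, hW, h3⟩ := hf
    rw [Finset.eq_empty_iff_forall_notMem]
    intro z hz
    unfold KK at hz
    rw [Finset.mem_filter] at hz
    obtain ⟨-, hzW, w, hw, hr⟩ := hz
    obtain ⟨q⟩ := hr
    obtain ⟨d, -, hd1, hd2⟩ := q.exists_boundary_dart {x | x ∉ W} hzW (fun h => h hw)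
    have hd2' : d.snd ∈ W := by
      by_contra h
      exact hd2 h
    obtain ⟨h4, h5⟩ := d.adj
    obtain ⟨h6, h7⟩ := hbase d.fst hd1 d.snd hd2' h4
    rw [← hW _ hd2'] at h6 h7
    rcases h5 with h | h
    · exact h7 h.2
    · exact h6 h.2
  have hle : ∀ f ∈ Om3 G W p a b c,
      (((MM G f W c a ord).filter (· ∈ A)).card : ℤ) - ((MM G f W c b ord).filter (· ∈ A)).card +
      (((MM G f W c b ord).filter (· ∉ A)).card - ((MM G f W c a ord).filter (· ∉ A)).card) ≤
      Psi G f W a b c A ord := by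
    intro f hf
    unfold Psi
    rw [hKK f hf, Finset.sum_empty]
    have h1 := card_MM_le (G := G) (f := f) (c := c) a ord hord
    have h2 := card_MM_le (G := G) (f := f) (c := c) b ord hord
    have h3 := Finset.card_filter_add_card_filter_not (s := MM G f W c a ord) (· ∈ A)
    have h4 := Finset.card_filter_add_card_filter_not (s := MM G f W c b ord) (· ∈ A)
    zify at h1 h2 h3 h4
    linarith
  refine le_trans (le_of_eq ?_) (Finset.sum_le_sum hle)
  rw [Finset.sum_add_distrib, Finset.sum_sub_distrib, Finset.sum_sub_distrib]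
  have e1 := sum_bstar (G := G) p hac hbc hbase
    (fun f => (((MM G f W c a ord).filter (· ∈ A)).card : ℤ))
    (fun f => (((MM G f W c b ord).filter (· ∈ A)).card : ℤ))
    (fun f => by simp only [MM_bstar_a hac hbc])
  have e2 := sum_bstar (G := G) p hac hbc hbase
    (fun f => (((MM G f W c b ord).filter (· ∉ A)).card : ℤ))
    (fun f => (((MM G f W c a ord).filter (· ∉ A)).card : ℤ))
    (fun f => by simp only [MM_bstar_b hac hbc])
  rw [e1, e2]
  ring

end Pool.Agent.Kempe
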