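import Pool.Agent.Lib.MP_26a019_lc.Defs

open Finset Classical

namespace Pool.Agent.Kempe

variable {V C : Type} [Fintype V]
variable {G : SimpleGraph V} {f : V → C} {W : Finset V} {a b c : C} {u : V}

namespace CompB

theorem gam_le : Gam G f (insert u W) c b ≤ Gam G f W c b := by
  intro x y h
  refine ⟨h.1, ?_⟩
  rcases h.2 with ⟨h1, h2, h3⟩ | ⟨h1, h2, h3⟩
  · exact Or.inl ⟨h1, h2, fun h => h3 (Finset.mem_insert_of_mem h)⟩
  · exact Or.inr ⟨h1, h2, fun h => h3 (Finset.mem_insert_of_mem h)⟩

/-- a vertex whose new component avoids the `c`-neighbours of `u` keeps its component -/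
theorem stays (hfu : f u = b) (hbc : b ≠ c) {z y : V} (hz : z ≠ u)
    (hT : ∀ t, G.Adj u t → f t = c → ¬ (Gam G f (insert u W) c b).Reachable z t)
    (h : (Gam G f W c b).Reachable z y) :
    (Gam G f (insert u W) c b).Reachable z y ∧ y ≠ u := by
  have h' : Relation.ReflTransGen (Gam G f W c b).Adj z y :=
    (SimpleGraph.reachable_iff_reflTransGen z y).1 h
  induction h' with
  | refl => exact ⟨SimpleGraph.Reachable.refl _, hz⟩
  | @tail y y' hzy hadj ih =>
    obtain ⟨ih1, ih2⟩ := ih ((SimpleGraph.reachable_iff_reflTransGen z y).2 hzy)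
    have hy' : y' ≠ u := by
      rintro rfl
      refine hT y hadj.1.symm ?_ ih1
      rcases hadj.2 with ⟨h1, h2, h3⟩ | ⟨h1, h2, h3⟩
      · exact absurd (hfu.symm.trans h2) hbc
      · exact h2
    refine ⟨ih1.trans (SimpleGraph.Adj.reachable ?_), hy'⟩
    refine ⟨hadj.1, ?_⟩
    rcases hadj.2 with ⟨h1, h2, h3⟩ | ⟨h1, h2, h3⟩
    · refine Or.inl ⟨h1, h2, fun h => ?_⟩
      rcases Finset.mem_insert.1 h with h | h
      · exact ih2 h
      · exact h3 h
    · refine Or.inr ⟨h1, h2, fun h => ?_⟩
      rcases Finset.mem_insert.1 h with h | h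
      · exact hy' h
      · exact h3 h

end CompB

/-- Components of `Gam G f (insert u W) c b` meeting its `SS`; this `SS` is the old one together
with the `c`-neighbours of `u`. -/
theorem NN_b_of_b (hu : u ∉ W) (hfu : f u = b) (hbc : b ≠ c) :
    NN G f (insert u W) c b + (if Meets G f W c b u then 1 else 0) ≤
      NN G f W c b + cdeg G f c u := by
  set G0 := Gam G f W c b with hG0
  set G1 := Gam G f (insert u W) c b with hG1
  set S := SS G f W c b with hS
  set S1 := SS G f (insert u W) c b with hS1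
  set T : Finset V := univ.filter (fun w => G.Adj u w ∧ f w = c) with hT
  have hle : G1 ≤ G0 := CompB.gam_le
  have hS1T : ∀ z ∈ S1, z ∈ S ∨ z ∈ T := by
    intro z hz
    rw [hS1, SS, Finset.mem_filter] at hz
    obtain ⟨-, hzc, hz⟩ := hz
    rcases hz with hz | ⟨w, hw, hwb, hadj⟩
    · rcases Finset.mem_insert.1 hz with rfl | hz
      · exact absurd (hfu.symm.trans hzc) hbc
      · left; rw [hS, SS, Finset.mem_filter]; exact ⟨Finset.mem_univ _, hzc, Or.inl hz⟩
    · rcases Finset.mem_insert.1 hw with rfl | hw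
      · right; rw [hT, Finset.mem_filter]; exact ⟨Finset.mem_univ _, hadj.symm, hzc⟩
      · left; rw [hS, SS, Finset.mem_filter]
        exact ⟨Finset.mem_univ _, hzc, Or.inr ⟨w, hw, hwb, hadj⟩⟩
  have hSc : ∀ z ∈ S, z ≠ u := by
    rintro z hz rfl
    rw [hS, SS, Finset.mem_filter] at hz
    exact hbc (hfu.symm.trans hz.2.1)
  set B : Finset G1.ConnectedComponent :=
    (S1.image G1.connectedComponentMk) \ (T.image G1.connectedComponentMk) with hB
  have h1 : NN G f (insert u W) c b ≤ cdeg G f c u + B.card := by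
    have e1 : NN G f (insert u W) c b = (S1.image G1.connectedComponentMk).card := rfl
    have e2 : cdeg G f c u = T.card := rfl
    rw [e1, e2]
    have h2 : (S1.image G1.connectedComponentMk) ⊆ (T.image G1.connectedComponentMk) ∪ B := by
      intro x hx
      by_cases hxT : x ∈ T.image G1.connectedComponentMk
      · exact Finset.mem_union_left _ hxT
      · exact Finset.mem_union_right _ (Finset.mem_sdiff.2 ⟨hx, hxT⟩)
    calc (S1.image G1.connectedComponentMk).card
        ≤ ((T.image G1.connectedComponentMk) ∪ B).card := Finset.card_le_card h2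
      _ ≤ (T.image G1.connectedComponentMk).card + B.card := Finset.card_union_le _ _
      _ ≤ T.card + B.card := Nat.add_le_add_right Finset.card_image_le _
  -- representatives
  have hrep : ∀ x ∈ B, ∃ z ∈ S, G1.connectedComponentMk z = x ∧
      ∀ t, G.Adj u t → f t = c → ¬ G1.Reachable z t := by
    intro x hx
    rw [hB, Finset.mem_sdiff, Finset.mem_image] at hx
    obtain ⟨⟨z, hz, rfl⟩, hxT⟩ := hx
    have hnot : ∀ t ∈ T, ¬ G1.Reachable z t := by
      intro t ht hr
      exact hxT (Finset.mem_image.2 ⟨t, ht, (SimpleGraph.ConnectedComponent.eq.2 hr).symm⟩)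
    rcases hS1T z hz with h | h
    · refine ⟨z, h, rfl, fun t ht htc => hnot t ?_⟩
      rw [hT, Finset.mem_filter]
      exact ⟨Finset.mem_univ _, ht, htc⟩
    · exact absurd (SimpleGraph.Reachable.refl z) (hnot z h)
  let φ : G1.ConnectedComponent → G0.ConnectedComponent :=
    SimpleGraph.ConnectedComponent.map (SimpleGraph.Hom.ofLE hle)
  have hφ : ∀ z, φ (G1.connectedComponentMk z) = G0.connectedComponentMk z := fun z => rfl
  have hmaps : ∀ x ∈ B, φ x ∈ (S.image G0.connectedComponentMk).erase
      (G0.connectedComponentMk u) := by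
    intro x hx
    obtain ⟨z, hz, rfl, hn⟩ := hrep x hx
    rw [hφ, Finset.mem_erase]
    refine ⟨fun h => ?_, Finset.mem_image_of_mem _ hz⟩
    exact (CompB.stays hfu hbc (hSc z hz) hn (SimpleGraph.ConnectedComponent.eq.1 h)).2 rfl
  have hinj : Set.InjOn φ (B : Set G1.ConnectedComponent) := by
    intro x hx x' hx' h
    obtain ⟨z, hz, rfl, hn⟩ := hrep x (Finset.mem_coe.1 hx)
    obtain ⟨z', hz', rfl, hn'⟩ := hrep x' (Finset.mem_coe.1 hx')
    rw [hφ, hφ] at h
    exact SimpleGraph.ConnectedComponent.eq.2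
      (CompB.stays hfu hbc (hSc z hz) hn (SimpleGraph.ConnectedComponent.eq.1 h)).1
  have h3 : B.card ≤ ((S.image G0.connectedComponentMk).erase (G0.connectedComponentMk u)).card :=
    Finset.card_le_card_of_injOn φ hmaps hinj
  have e0 : NN G f W c b = (S.image G0.connectedComponentMk).card := rfl
  by_cases hm : Meets G f W c b u
  · rw [if_pos hm]
    obtain ⟨z, hz, hr⟩ := hm
    have hmem : G0.connectedComponentMk u ∈ S.image G0.connectedComponentMk :=
      Finset.mem_image.2 ⟨z, hz, (SimpleGraph.ConnectedComponent.eq.2 hr).symm⟩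
    have h4 := Finset.card_erase_add_one hmem
    omega
  · rw [if_neg hm]
    have h4 := Finset.card_erase_le (s := S.image G0.connectedComponentMk)
      (a := G0.connectedComponentMk u)
    omega

end Pool.Agent.Kempe
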