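import Pool.Agent.Lib.MP_26a019_lc.KZero

open Finset Classical

namespace Pool.Agent.Kempe

variable {V C : Type} [Fintype V]

namespace DecayM

/-- the ball of radius `j` -/
noncomputable def BB (G : SimpleGraph V) (v : V) (j : ℕ) : Finset V :=
  univ.filter (fun z => G.Reachable v z ∧ G.dist v z ≤ j)

/-- two coloured edges inside `B` -/
def HB (G : SimpleGraph V) (f : V → C) (a b : C) (B : Finset V) : SimpleGraph V where
  Adj u w := (HH G f a b).Adj u w ∧ u ∈ B ∧ w ∈ B
  symm := ⟨fun _ _ h => ⟨h.1.symm, h.2.2, h.2.1⟩⟩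
  loopless := ⟨fun u h => G.loopless.irrefl u h.1.1⟩

/-- vertices joined to `v` inside `B` -/
noncomputable def DJ (G : SimpleGraph V) (f : V → C) (a b : C) (B : Finset V) (v : V) : Finset V :=
  univ.filter (fun z => (HB G f a b B).Reachable v z)

/-- the explored set -/
noncomputable def XX (G : SimpleGraph V) (f : V → C) (a b : C) (B : Finset V) (v : V) : Finset V :=
  univ.filter (fun z => z ∈ DJ G f a b B v ∨ (z ∈ B ∧ ∃ y ∈ DJ G f a b B v, G.Adj z y))

variable {G : SimpleGraph V} {f p : V → C} {a b : C} {B : Finset V} {v : V}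

theorem self_mem_DJ : v ∈ DJ G f a b B v := by
  simp [DJ]

theorem self_mem_XX : v ∈ XX G f a b B v := by
  simp [XX, self_mem_DJ]

theorem DJ_subset_XX : DJ G f a b B v ⊆ XX G f a b B v := by
  intro z hz
  simp [XX, hz]

theorem mem_DJ {z : V} : z ∈ DJ G f a b B v ↔ (HB G f a b B).Reachable v z := by
  simp [DJ]

theorem DJ_step {y z : V} (hy : y ∈ DJ G f a b B v) (h : (HB G f a b B).Adj y z) :
    z ∈ DJ G f a b B v := by
  rw [mem_DJ] at *
  exact hy.trans h.reachable

/-- induction principle -/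
theorem DJ_induct {P : V → Prop} (h0 : P v)
    (hs : ∀ y z, y ∈ DJ G f a b B v → (HB G f a b B).Adj y z → P y → P z) :
    ∀ z ∈ DJ G f a b B v, P z := by
  intro z hz
  rw [mem_DJ, SimpleGraph.reachable_iff_reflTransGen] at hz
  induction hz with
  | refl => exact h0
  | tail h1 h2 ih =>
    exact hs _ _ (by rw [mem_DJ, SimpleGraph.reachable_iff_reflTransGen]; exact h1) h2 ih

theorem DJ_subset_B (hv : v ∈ B) : DJ G f a b B v ⊆ B := by
  intro z hz
  exact DJ_induct (P := fun z => z ∈ B) hv (fun y z _ h _ => h.2.2) z hz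

theorem XX_subset_B (hv : v ∈ B) : XX G f a b B v ⊆ B := by
  intro z hz
  simp only [XX, mem_filter, mem_univ, true_and] at hz
  rcases hz with h | h
  · exact DJ_subset_B hv h
  · exact h.1

omit [Fintype V] in
theorem HB_adj_congr {y z : V} (hy : f y = p y) (hz : f z = p z) (h : (HB G f a b B).Adj y z) :
    (HB G p a b B).Adj y z := by
  obtain ⟨⟨h1, h2⟩, h3⟩ := h
  refine ⟨⟨h1, ?_⟩, h3⟩
  rw [← hy, ← hz]
  exact h2

theorem DJ_congr (hfp : ∀ z ∈ XX G p a b B v, f z = p z) : DJ G f a b B v = DJ G p a b B v := by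
  apply Finset.Subset.antisymm
  · intro z hz
    refine DJ_induct (P := fun z => z ∈ DJ G p a b B v) self_mem_DJ ?_ z hz
    intro y z _ h hy
    have hz' : z ∈ XX G p a b B v := by
      simp only [XX, mem_filter, mem_univ, true_and]
      exact Or.inr ⟨h.2.2, y, hy, h.1.1.symm⟩
    exact DJ_step hy (HB_adj_congr (hfp y (DJ_subset_XX hy)) (hfp z hz') h)
  · intro z hz
    refine DJ_induct (P := fun z => z ∈ DJ G f a b B v) self_mem_DJ ?_ z hz
    intro y z hy' h hy
    have hz' : z ∈ DJ G p a b B v := DJ_step hy' h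
    exact DJ_step hy (HB_adj_congr (hfp y (DJ_subset_XX hy')).symm (hfp z (DJ_subset_XX hz')).symm h)

theorem XX_congr (hfp : ∀ z ∈ XX G p a b B v, f z = p z) : XX G f a b B v = XX G p a b B v := by
  unfold XX
  rw [DJ_congr hfp]

theorem DJ_subset_KC : DJ G f a b B v ⊆ KC G f a b v := by
  intro z hz
  refine DJ_induct (P := fun z => z ∈ KC G f a b v) (by simp [KC]) ?_ z hz
  intro y z _ h hy
  simp only [KC, mem_filter, mem_univ, true_and] at *
  exact hy.trans h.1.reachable

/-- vertices of `DJ` are `a`- or `b`-coloured -/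
theorem DJ_col (hv : p v = a) {z : V} (hz : z ∈ DJ G p a b B v) : p z = a ∨ p z = b := by
  refine DJ_induct (P := fun z => p z = a ∨ p z = b) (Or.inl hv) ?_ z hz
  intro y z _ h _
  rcases h.1.2 with h | h
  · exact Or.inr h.2
  · exact Or.inl h.2

/-- the `a`- or `b`-coloured vertices of `XX` are in `DJ` -/
theorem mem_DJ_of_col (hvB : v ∈ B) (hp : Proper G p) (hv : p v = a) {z : V}
    (hz : z ∈ XX G p a b B v) (hc : p z = a ∨ p z = b) : z ∈ DJ G p a b B v := by
  simp only [XX, mem_filter, mem_univ, true_and] at hz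
  rcases hz with h | ⟨hzB, y, hy, hadj⟩
  · exact h
  · have hyc := DJ_col hv hy
    have hne := hp z y hadj
    refine DJ_step hy ⟨⟨hadj.symm, ?_⟩, DJ_subset_B hvB hy, hzB⟩
    rcases hyc with h1 | h1 <;> rcases hc with h2 | h2
    · exact absurd (h2.trans h1.symm) hne
    · exact Or.inl ⟨h1, h2⟩
    · exact Or.inr ⟨h1, h2⟩
    · exact absurd (h2.trans h1.symm) hne

omit [Fintype V] in
/-- a neighbour closer to `v` -/
theorem exists_parent {z : V} (hz : G.Reachable v z) (hj : 1 ≤ G.dist v z) :
    ∃ y, G.Adj z y ∧ G.Reachable v y ∧ G.dist v y + 1 ≤ G.dist v z := by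
  obtain ⟨w, hw⟩ := hz.symm.exists_walk_length_eq_dist
  rw [SimpleGraph.dist_comm] at hw
  cases w with
  | nil => simp at hj
  | cons h q =>
    rename_i y
    refine ⟨y, h, q.reverse.reachable, ?_⟩
    have h1 : G.dist v y ≤ q.reverse.length := SimpleGraph.dist_le _
    rw [SimpleGraph.Walk.length_reverse] at h1
    rw [SimpleGraph.Walk.length_cons] at hw
    omega

omit [Fintype V] in
theorem dist_adj {y z : V} (hy : G.Reachable v y) (h : G.Adj y z) :
    G.Reachable v z ∧ G.dist v z ≤ G.dist v y + 1 := by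
  refine ⟨hy.trans h.reachable, ?_⟩
  obtain ⟨w, hw⟩ := hy.exists_walk_length_eq_dist
  have := SimpleGraph.dist_le (w.concat h)
  rw [SimpleGraph.Walk.length_concat] at this
  omega

/-- edges leaving `XX` -/
theorem eout_le {D j : ℕ} (hD : ∀ z, G.degree z ≤ D) (hj : 1 ≤ j) (hp : Proper G p)
    (hv : p v = a) :
    (eout G p (XX G p a b (BB G v j) v) a b : ℤ) ≤
      ((D : ℤ) - 1) * (((DJ G p a b (BB G v j) v).filter (fun z => j = G.dist v z)).card : ℤ) := by
  have hvB : v ∈ BB G v j := by simp [BB]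
  obtain ⟨X, hX⟩ : ∃ X, X = XX G p a b (BB G v j) v := ⟨_, rfl⟩
  obtain ⟨T, hT⟩ : ∃ T, T = (DJ G p a b (BB G v j) v).filter (fun z => j = G.dist v z) := ⟨_, rfl⟩
  rw [← hX, ← hT]
  have hmap : ∀ x ∈ (univ.filter (fun x : V × V => x.1 ∈ X ∧ (p x.1 = a ∨ p x.1 = b) ∧ x.2 ∉ X ∧
      G.Adj x.1 x.2)), x.1 ∈ T := by
    intro x hx
    simp only [mem_filter, mem_univ, true_and] at hx
    obtain ⟨h1, h2, h3, h4⟩ := hx
    rw [hX] at h1 h3
    have h5 := mem_DJ_of_col hvB hp hv h1 h2
    have h6 := DJ_subset_B hvB h5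
    simp only [BB, mem_filter, mem_univ, true_and] at h6
    rw [hT, mem_filter]
    refine ⟨h5, ?_⟩
    by_contra hne
    have h7 : G.dist v x.1 < j := by omega
    have h8 := dist_adj h6.1 h4
    apply h3
    simp only [XX, mem_filter, mem_univ, true_and]
    refine Or.inr ⟨?_, x.1, h5, h4.symm⟩
    simp only [BB, mem_filter, mem_univ, true_and]
    exact ⟨h8.1, by omega⟩
  have hcard : eout G p X a b = ∑ t ∈ T, ((univ.filter (fun x : V × V => x.1 ∈ X ∧
      (p x.1 = a ∨ p x.1 = b) ∧ x.2 ∉ X ∧ G.Adj x.1 x.2)).filter (fun x => x.1 = t)).card := by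
    unfold eout
    exact Finset.card_eq_sum_card_fiberwise hmap
  rw [hcard]
  push_cast
  have hterm : ∀ t ∈ T, (((univ.filter (fun x : V × V => x.1 ∈ X ∧
      (p x.1 = a ∨ p x.1 = b) ∧ x.2 ∉ X ∧ G.Adj x.1 x.2)).filter (fun x => x.1 = t)).card : ℤ) ≤
      (D : ℤ) - 1 := by
    intro t ht
    rw [hT, mem_filter] at ht
    have h6 := DJ_subset_B hvB ht.1
    simp only [BB, mem_filter, mem_univ, true_and] at h6
    obtain ⟨y, hy1, hy2, hy3⟩ := exists_parent h6.1 (by omega)
    have hyX : y ∈ X := by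
      rw [hX]
      simp only [XX, mem_filter, mem_univ, true_and]
      refine Or.inr ⟨?_, t, ht.1, hy1.symm⟩
      simp only [BB, mem_filter, mem_univ, true_and]
      exact ⟨hy2, by omega⟩
    have hsub : (((univ.filter (fun x : V × V => x.1 ∈ X ∧
      (p x.1 = a ∨ p x.1 = b) ∧ x.2 ∉ X ∧ G.Adj x.1 x.2)).filter (fun x => x.1 = t)).card) ≤
        ((G.neighborFinset t).erase y).card := by
      apply Finset.card_le_card_of_injOn (fun x => x.2)
      · intro x hx
        simp only [coe_filter, mem_filter, mem_univ, true_and, Set.mem_ofPred_eq] at hx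
        obtain ⟨⟨h1, h2, h3, h4⟩, h5⟩ := hx
        rw [Finset.mem_coe, Finset.mem_erase, SimpleGraph.mem_neighborFinset, ← h5]
        refine ⟨?_, h4⟩
        rintro rfl
        exact h3 hyX
      · intro x hx x' hx' hxx
        simp only [coe_filter, mem_filter, mem_univ, true_and, Set.mem_ofPred_eq] at hx hx'
        exact Prod.ext (hx.2.trans hx'.2.symm) hxx
    have hyN : y ∈ G.neighborFinset t := by
      rw [SimpleGraph.mem_neighborFinset]
      exact hy1
    rw [Finset.card_erase_of_mem hyN, SimpleGraph.card_neighborFinset_eq_degree] at hsub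
    have h1 := hD t
    have h2 : 1 ≤ G.degree t := by
      rw [← SimpleGraph.card_neighborFinset_eq_degree]
      exact Finset.card_pos.2 ⟨y, hyN⟩
    omega
  calc ∑ t ∈ T, (((univ.filter (fun x : V × V => x.1 ∈ X ∧
      (p x.1 = a ∨ p x.1 = b) ∧ x.2 ∉ X ∧ G.Adj x.1 x.2)).filter (fun x => x.1 = t)).card : ℤ)
      ≤ ∑ t ∈ T, ((D : ℤ) - 1) := Finset.sum_le_sum hterm
    _ = ((D : ℤ) - 1) * (T.card : ℤ) := by
      rw [Finset.sum_const, nsmul_eq_mul, mul_comm]

variable [Fintype C]

/-- the class of `p` -/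
theorem class_le {D j : ℕ} (hab : a ≠ b) (hD : ∀ z, G.degree z ≤ D) (hq : D < Fintype.card C)
    (hj : 1 ≤ j) (hp : Proper G p) (hv : p v = a) :
    ((Fintype.card C : ℤ) - D) * ∑ f ∈ Om G (XX G p a b (BB G v j) v) p,
        (((KC G f a b v).filter (fun z => j < G.dist v z)).card : ℤ) ≤
    ((D : ℤ) - 1) * ∑ f ∈ Om G (XX G p a b (BB G v j) v) p,
        (((KC G f a b v).filter (fun z => j = G.dist v z)).card : ℤ) := by
  have hvB : v ∈ BB G v j := by simp [BB]
  have hk := kzero (G := G) (W := XX G p a b (BB G v j) v) p hab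
  have he := eout_le (b := b) hD hj hp hv
  obtain ⟨X, hX⟩ : ∃ X, X = XX G p a b (BB G v j) v := ⟨_, rfl⟩
  rw [← hX] at hk he ⊢
  have hq' : (D : ℤ) < Fintype.card C := by exact_mod_cast hq
  -- left side
  have hleft : ((Fintype.card C : ℤ) - D) * ∑ f ∈ Om G X p,
        (((KC G f a b v).filter (fun z => j < G.dist v z)).card : ℤ) ≤
      ∑ f ∈ Om G X p, ∑ z ∈ KK G f X a b, ((Fintype.card C : ℤ) - (G.degree z : ℤ)) := by
    rw [Finset.mul_sum]
    apply Finset.sum_le_sum
    intro f hf
    simp only [Om, mem_filter, mem_univ, true_and] at hf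
    have hsub : (KC G f a b v).filter (fun z => j < G.dist v z) ⊆ KK G f X a b := by
      intro z hz
      simp only [KC, mem_filter, mem_univ, true_and] at hz
      simp only [KK, mem_filter, mem_univ, true_and]
      refine ⟨fun hzX => ?_, v, by rw [hX]; exact self_mem_XX, hz.1.symm⟩
      rw [hX] at hzX
      have h6 := XX_subset_B hvB hzX
      simp only [BB, mem_filter, mem_univ, true_and] at h6
      omega
    have hterm : ∀ z, (Fintype.card C : ℤ) - D ≤ (Fintype.card C : ℤ) - (G.degree z : ℤ) := by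
      intro z
      have := hD z
      omega
    calc ((Fintype.card C : ℤ) - D) * (((KC G f a b v).filter (fun z => j < G.dist v z)).card : ℤ)
        = ∑ z ∈ (KC G f a b v).filter (fun z => j < G.dist v z), ((Fintype.card C : ℤ) - D) := by
          rw [Finset.sum_const, nsmul_eq_mul, mul_comm]
      _ ≤ ∑ z ∈ (KC G f a b v).filter (fun z => j < G.dist v z),
          ((Fintype.card C : ℤ) - (G.degree z : ℤ)) := Finset.sum_le_sum fun z _ => hterm z
      _ ≤ _ := by
          apply Finset.sum_le_sum_of_subset_of_nonneg hsub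
          intro z _ _
          have := hterm z
          omega
  -- right side
  have hright : ∀ f ∈ Om G X p, ((D : ℤ) - 1) *
      (((DJ G p a b (BB G v j) v).filter (fun z => j = G.dist v z)).card : ℤ) ≤
      ((D : ℤ) - 1) * (((KC G f a b v).filter (fun z => j = G.dist v z)).card : ℤ) := by
    intro f hf
    simp only [Om, mem_filter, mem_univ, true_and] at hf
    rcases Nat.eq_zero_or_pos D with h0 | h0
    · have hemp : (KC G f a b v).filter (fun z => j = G.dist v z) = ∅ := by
        rw [Finset.filter_eq_empty_iff]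
        intro z hz hjz
        simp only [KC, mem_filter, mem_univ, true_and] at hz
        have hle : HH G f a b ≤ G := fun u w h => h.1
        have hr : G.Reachable v z := hz.mono hle
        obtain ⟨y, hy1, _, _⟩ := exists_parent hr (by omega)
        have h2 : 1 ≤ G.degree z := by
          rw [← SimpleGraph.card_neighborFinset_eq_degree]
          exact Finset.card_pos.2 ⟨y, by rw [SimpleGraph.mem_neighborFinset]; exact hy1⟩
        have := hD z
        omega
      rw [hemp, Finset.card_empty, h0]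
      push_cast
      have : (0 : ℤ) ≤ (((DJ G p a b (BB G v j) v).filter (fun z => j = G.dist v z)).card : ℤ) :=
        Nat.cast_nonneg _
      linarith
    · apply mul_le_mul_of_nonneg_left _ (by omega)
      have hsub : (DJ G p a b (BB G v j) v).filter (fun z => j = G.dist v z) ⊆
          (KC G f a b v).filter (fun z => j = G.dist v z) := by
        apply Finset.filter_subset_filter
        rw [← DJ_congr (f := f) (by rw [← hX]; exact hf.2)]
        exact DJ_subset_KC
      exact_mod_cast Finset.card_le_card hsub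
  refine hleft.trans (hk.trans ?_)
  rw [Finset.mul_sum]
  calc (eout G p X a b : ℤ) * ((Om G X p).card : ℤ)
      ≤ (((D : ℤ) - 1) * (((DJ G p a b (BB G v j) v).filter (fun z => j = G.dist v z)).card : ℤ)) *
        ((Om G X p).card : ℤ) := mul_le_mul_of_nonneg_right he (Nat.cast_nonneg _)
    _ = ∑ f ∈ Om G X p, ((D : ℤ) - 1) *
        (((DJ G p a b (BB G v j) v).filter (fun z => j = G.dist v z)).card : ℤ) := by
        rw [Finset.sum_const, nsmul_eq_mul, mul_comm]
    _ ≤ _ := Finset.sum_le_sum hright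

/-- the key of a class -/
noncomputable def key (G : SimpleGraph V) (a b : C) (B : Finset V) (v : V) (f : V → C) :
    V → Option C := fun z => if z ∈ XX G f a b B v then some (f z) else none

omit [Fintype C] in
theorem key_eq_iff {B : Finset V} {v : V} :
    key G a b B v f = key G a b B v p ↔ ∀ z ∈ XX G p a b B v, f z = p z := by
  constructor
  · intro h z hz
    have h1 := congrFun h z
    simp only [key, if_pos hz] at h1
    by_cases h2 : z ∈ XX G f a b B v
    · rw [if_pos h2] at h1
      exact Option.some.inj h1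
    · rw [if_neg h2] at h1
      exact absurd h1 (by simp)
  · intro h
    funext z
    simp only [key]
    rw [XX_congr h]
    by_cases h2 : z ∈ XX G p a b B v
    · rw [if_pos h2, if_pos h2, h z h2]
    · rw [if_neg h2, if_neg h2]

theorem fiber_eq {j : ℕ} (hv : p v = a) :
    ((univ.filter (fun f : V → C => Proper G f ∧ f v = a)).filter
      (fun f => key G a b (BB G v j) v f = key G a b (BB G v j) v p)) =
    Om G (XX G p a b (BB G v j) v) p := by
  ext f
  simp only [Om, mem_filter, mem_univ, true_and, key_eq_iff]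
  constructor
  · rintro ⟨⟨h1, h2⟩, h3⟩
    exact ⟨h1, h3⟩
  · rintro ⟨h1, h3⟩
    exact ⟨⟨h1, (h3 v self_mem_XX).trans hv⟩, h3⟩

end DecayM

open DecayM

variable {G : SimpleGraph V} {a b : C} [Fintype C]

/-- one step of the exploration: `R` is a natural number, distances in `G`. -/
theorem decay_step (v : V) (hab : a ≠ b) {D : ℕ} (hD : ∀ z, G.degree z ≤ D)
    (hq : D < Fintype.card C) (j : ℕ) (hj : 1 ≤ j) :
    ((Fintype.card C : ℤ) - D) *
      ∑ f ∈ (univ.filter (fun f : V → C => Proper G f ∧ f v = a)),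
        (((KC G f a b v).filter (fun z => j < G.dist v z)).card : ℤ) ≤
    ((D : ℤ) - 1) *
      ∑ f ∈ (univ.filter (fun f : V → C => Proper G f ∧ f v = a)),
        (((KC G f a b v).filter (fun z => j = G.dist v z)).card : ℤ) := by
  obtain ⟨S, hS⟩ : ∃ S, S = univ.filter (fun f : V → C => Proper G f ∧ f v = a) := ⟨_, rfl⟩
  have hmaps : ∀ f ∈ S, key G a b (BB G v j) v f ∈ S.image (key G a b (BB G v j) v) :=
    fun f hf => Finset.mem_image_of_mem _ hf
  rw [← hS]
  rw [← Finset.sum_fiberwise_of_maps_to hmaps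
    (fun f => (((KC G f a b v).filter (fun z => j < G.dist v z)).card : ℤ)),
    ← Finset.sum_fiberwise_of_maps_to hmaps
    (fun f => (((KC G f a b v).filter (fun z => j = G.dist v z)).card : ℤ)),
    Finset.mul_sum, Finset.mul_sum]
  apply Finset.sum_le_sum
  intro k hk
  obtain ⟨p, hp, rfl⟩ := Finset.mem_image.1 hk
  rw [hS, mem_filter] at hp
  rw [hS, fiber_eq hp.2.2]
  exact class_le hab hD hq hj hp.2.1 hp.2.2

end Pool.Agent.Kempe
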