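import Pool.Agent.Lib.MP_26a019_lc.Defs

/-!
Kempe exchanges: the exchange of two colours on a component is an involution of the proper
colourings; the components of `Gam` and of `HH`.
-/

set_option linter.all false

open Finset Classical

namespace Pool.Agent.Kempe

variable {V C : Type} [Fintype V]
variable {G : SimpleGraph V} {f : V → C} {W : Finset V} {a b c : C} {u : V}

theorem reach_colour {x y : C} (hfu : f u = x ∨ f u = y) {z : V}
    (h : (HH G f x y).Reachable u z) : f z = x ∨ f z = y := by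
  obtain ⟨p⟩ := h
  induction p with
  | nil => exact hfu
  | cons hadj p ih =>
    refine ih ?_
    rcases hadj.2 with h | h
    · exact Or.inr h.2
    · exact Or.inl h.2

theorem kswap_of_reach {x y : C} {z : V} (h : (HH G f x y).Reachable u z) :
    kswap G f x y u z = if f z = x then y else x := by
  unfold kswap
  rw [if_pos h]

theorem kswap_of_not {x y : C} {z : V} (h : ¬ (HH G f x y).Reachable u z) :
    kswap G f x y u z = f z := by
  unfold kswap
  rw [if_neg h]

theorem kswap_colour_iff {x y : C} (hfu : f u = x ∨ f u = y) (z : V) :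
    (kswap G f x y u z = x ∨ kswap G f x y u z = y) ↔ (f z = x ∨ f z = y) := by
  by_cases h : (HH G f x y).Reachable u z
  · rw [kswap_of_reach h]
    constructor
    · intro _
      exact reach_colour hfu h
    · intro _
      by_cases h1 : f z = x
      · rw [if_pos h1]; exact Or.inr rfl
      · rw [if_neg h1]; exact Or.inl rfl
  · rw [kswap_of_not h]

/-- two adjacent vertices with colours in `{x, y}` are joined in `HH`. -/
theorem HH_adj_of {x y : C} (hf : Proper G f) {z w : V} (h : G.Adj z w)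
    (hz : f z = x ∨ f z = y) (hw : f w = x ∨ f w = y) : (HH G f x y).Adj z w := by
  refine ⟨h, ?_⟩
  have hne := hf z w h
  rcases hz with hz | hz <;> rcases hw with hw | hw
  · exact absurd (hz.trans hw.symm) hne
  · exact Or.inl ⟨hz, hw⟩
  · exact Or.inr ⟨hz, hw⟩
  · exact absurd (hz.trans hw.symm) hne

theorem kswap_proper {x y : C} (hxy : x ≠ y) (hf : Proper G f) (hfu : f u = x ∨ f u = y) :
    Proper G (kswap G f x y u) := by
  intro z w h
  have hne := hf z w h
  by_cases hz : (HH G f x y).Reachable u z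
  · by_cases hw : (HH G f x y).Reachable u w
    · rw [kswap_of_reach hz, kswap_of_reach hw]
      rcases reach_colour hfu hz with h1 | h1 <;> rcases reach_colour hfu hw with h2 | h2
      · exact absurd (h1.trans h2.symm) hne
      · rw [if_pos h1, if_neg (by rw [h2]; exact hxy.symm)]; exact hxy.symm
      · rw [if_neg (by rw [h1]; exact hxy.symm), if_pos h2]; exact hxy
      · exact absurd (h1.trans h2.symm) hne
    · intro heq
      have hz' : kswap G f x y u z = x ∨ kswap G f x y u z = y :=
        (kswap_colour_iff hfu z).2 (reach_colour hfu hz)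
      rw [heq] at hz'
      have hw' := (kswap_colour_iff hfu w).1 hz'
      exact hw (hz.trans (HH_adj_of hf h (reach_colour hfu hz) hw').reachable)
  · by_cases hw : (HH G f x y).Reachable u w
    · intro heq
      have hw' : kswap G f x y u w = x ∨ kswap G f x y u w = y :=
        (kswap_colour_iff hfu w).2 (reach_colour hfu hw)
      rw [← heq] at hw'
      have hz' := (kswap_colour_iff hfu z).1 hw'
      exact hz (hw.trans (HH_adj_of hf h hz' (reach_colour hfu hw)).symm.reachable)
    · rw [kswap_of_not hz, kswap_of_not hw]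
      exact hne

theorem HH_kswap {x y : C} (hxy : x ≠ y) (hf : Proper G f) (hfu : f u = x ∨ f u = y) :
    HH G (kswap G f x y u) x y = HH G f x y := by
  ext z w
  constructor
  · intro h
    have h1 : (kswap G f x y u z = x ∨ kswap G f x y u z = y) :=
      h.2.elim (fun h => Or.inl h.1) (fun h => Or.inr h.1)
    have h2 : (kswap G f x y u w = x ∨ kswap G f x y u w = y) :=
      h.2.elim (fun h => Or.inr h.2) (fun h => Or.inl h.2)
    exact HH_adj_of hf h.1 ((kswap_colour_iff hfu z).1 h1) ((kswap_colour_iff hfu w).1 h2)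
  · intro h
    have h1 : (f z = x ∨ f z = y) := h.2.elim (fun h => Or.inl h.1) (fun h => Or.inr h.1)
    have h2 : (f w = x ∨ f w = y) := h.2.elim (fun h => Or.inr h.2) (fun h => Or.inl h.2)
    exact HH_adj_of (kswap_proper hxy hf hfu) h.1 ((kswap_colour_iff hfu z).2 h1)
      ((kswap_colour_iff hfu w).2 h2)

theorem kswap_kswap {x y : C} (hxy : x ≠ y) (hf : Proper G f) (hfu : f u = x ∨ f u = y) :
    kswap G (kswap G f x y u) x y u = f := by
  have hH := HH_kswap hxy hf hfu
  funext z
  by_cases hz : (HH G f x y).Reachable u z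
  · rw [kswap_of_reach (f := kswap G f x y u) (by rw [hH]; exact hz), kswap_of_reach hz]
    rcases reach_colour hfu hz with h1 | h1
    · rw [if_pos h1, if_neg hxy.symm, h1]
    · have h2 : f z ≠ x := by rw [h1]; exact hxy.symm
      rw [if_neg h2, if_pos rfl, h1]
  · rw [kswap_of_not (f := kswap G f x y u) (by rw [hH]; exact hz), kswap_of_not hz]

theorem Gam_le_HH : Gam G f W c b ≤ HH G f b c := by
  intro z w h
  refine ⟨h.1, ?_⟩
  rcases h.2 with h | h
  · exact Or.inl ⟨h.1, h.2.1⟩
  · exact Or.inr ⟨h.2.1, h.1⟩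

theorem meets_of_walk {u w : V} (p : (HH G f b c).Walk u w) (hu : u ∉ W) (hw : w ∈ W) :
    Meets G f W c b u := by
  induction p with
  | nil => exact absurd hw hu
  | @cons u v w hadj p ih =>
    by_cases hv : v ∈ W
    · rcases hadj.2 with h | h
      · refine ⟨v, ?_, ?_⟩
        · exact mem_filter.2 ⟨mem_univ _, h.2, Or.inl hv⟩
        · exact SimpleGraph.Adj.reachable (G := Gam G f W c b)
            ⟨hadj.1, Or.inl ⟨h.1, h.2, hu⟩⟩
      · refine ⟨u, ?_, SimpleGraph.Reachable.refl _⟩
        exact mem_filter.2 ⟨mem_univ _, h.1, Or.inr ⟨v, hv, h.2, hadj.1⟩⟩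
    · obtain ⟨z, hz, hr⟩ := ih hv hw
      refine ⟨z, hz, SimpleGraph.Reachable.trans ?_ hr⟩
      refine SimpleGraph.Adj.reachable (G := Gam G f W c b) ⟨hadj.1, ?_⟩
      rcases hadj.2 with h | h
      · exact Or.inl ⟨h.1, h.2, hu⟩
      · exact Or.inr ⟨h.2, h.1, hv⟩

theorem not_meets_iff (hu : u ∉ W) (hf : Proper G f) (hfu : f u = b ∨ f u = c) (hbc : b ≠ c) :
    ¬ Meets G f W c b u ↔ ∀ w ∈ W, ¬ (HH G f b c).Reachable u w := by
  constructor
  · rintro h w hw ⟨p⟩
    exact h (meets_of_walk p hu hw)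
  · rintro h ⟨z, hz, hr⟩
    have hr' : (HH G f b c).Reachable u z := hr.mono Gam_le_HH
    obtain ⟨-, hzc, hz | ⟨w, hw, hwb, hadj⟩⟩ := mem_filter.1 hz
    · exact h z hz hr'
    · refine h w hw (hr'.trans ?_)
      exact SimpleGraph.Adj.reachable (G := HH G f b c) ⟨hadj, Or.inr ⟨hzc, hwb⟩⟩

variable [Fintype C]

theorem swap_mem (p : V → C) (hu : u ∉ W) (hbc : b ≠ c) {f : V → C}
    (hfO : f ∈ Om3 G W p a b c) (hfu : f u = b ∨ f u = c) (hm : ¬ Meets G f W c b u) :
    kswap G f b c u ∈ Om3 G W p a b c ∧ ¬ Meets G (kswap G f b c u) W c b u := by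
  obtain ⟨-, hf, hp, h3⟩ := mem_filter.1 hfO
  have hno := (not_meets_iff hu hf hfu hbc).1 hm
  have hf' := kswap_proper hbc hf hfu
  refine ⟨mem_filter.2 ⟨mem_univ _, hf', ?_, ?_⟩, ?_⟩
  · intro w hw
    rw [kswap_of_not (hno w hw)]
    exact hp w hw
  · intro z hz
    by_cases hr : (HH G f b c).Reachable u z
    · exact Or.inr ((kswap_colour_iff hfu z).2 (reach_colour hfu hr))
    · rw [kswap_of_not hr]
      exact h3 z hz
  · refine (not_meets_iff hu hf' ((kswap_colour_iff hfu u).2 hfu) hbc).2 ?_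
    rw [HH_kswap hbc hf hfu]
    exact hno

theorem swap_card (p : V → C) (hu : u ∉ W) (hab : a ≠ b) (hac : a ≠ c) (hbc : b ≠ c) :
    (((Om3 G W p a b c).filter (fun f => f u = b ∧ ¬ Meets G f W c b u)).card =
      ((Om3 G W p a b c).filter (fun f => f u = c ∧ ¬ Meets G f W c b u)).card) := by
  refine Finset.card_nbij' (fun f => kswap G f b c u) (fun f => kswap G f b c u) ?_ ?_ ?_ ?_
  · intro f hf
    obtain ⟨hO, hfu, hm⟩ := mem_filter.1 hf
    have h := swap_mem p hu hbc hO (Or.inl hfu) hm
    refine mem_filter.2 ⟨h.1, ?_, h.2⟩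
    show kswap G f b c u u = c
    rw [kswap_of_reach (SimpleGraph.Reachable.refl u), if_pos hfu]
  · intro f hf
    obtain ⟨hO, hfu, hm⟩ := mem_filter.1 hf
    have h := swap_mem p hu hbc hO (Or.inr hfu) hm
    refine mem_filter.2 ⟨h.1, ?_, h.2⟩
    show kswap G f b c u u = b
    rw [kswap_of_reach (SimpleGraph.Reachable.refl u), if_neg (by rw [hfu]; exact hbc.symm)]
  · intro f hf
    obtain ⟨hO, hfu, hm⟩ := mem_filter.1 hf
    exact kswap_kswap hbc (mem_filter.1 hO).2.1 (Or.inl hfu)
  · intro f hf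
    obtain ⟨hO, hfu, hm⟩ := mem_filter.1 hf
    exact kswap_kswap hbc (mem_filter.1 hO).2.1 (Or.inr hfu)

end Pool.Agent.Kempe
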