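import Pool.Agent.Lib.MP_26a019_lc.Defs

open Finset Classical

namespace Pool.Agent.Kempe

variable {V C : Type} [Fintype V] [Fintype C]

theorem perm_mem_PC {G : SimpleGraph V} {f : V → C} (hf : f ∈ PC G C) (σ : Equiv.Perm C) :
    (fun z => σ (f z)) ∈ PC G C := by
  have hp : Proper G f := (Finset.mem_filter.1 hf).2
  refine Finset.mem_filter.2 ⟨Finset.mem_univ _, ?_⟩
  intro u w huw h
  exact hp u w huw (σ.injective h)

theorem perm_mem_avail {G : SimpleGraph V} {f : V → C} {v : V} {c : C} (σ : Equiv.Perm C) :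
    σ c ∈ avail G (fun z => σ (f z)) v ↔ c ∈ avail G f v := by
  simp only [avail, Finset.mem_filter, Finset.mem_univ, true_and]
  constructor
  · intro h u hu he
    exact h u hu (by rw [he])
  · intro h u hu he
    exact h u hu (σ.injective he)

theorem perm_avail_card {G : SimpleGraph V} {f : V → C} {v : V} (σ : Equiv.Perm C) :
    (avail G (fun z => σ (f z)) v).card = (avail G f v).card := by
  symm
  refine Finset.card_bij (fun c _ => σ c) ?_ ?_ ?_
  · intro c hc
    exact (perm_mem_avail σ).2 hc
  · intro a _ b _ h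
    exact σ.injective h
  · intro c hc
    refine ⟨σ.symm c, ?_, by simp⟩
    rw [← perm_mem_avail σ]
    simpa using hc

theorem card_perm (G : SimpleGraph V) (v : V) (a b : C) :
    ((PC G C).filter (fun f => f v = a)).card = ((PC G C).filter (fun f => f v = b)).card := by
  refine Finset.card_nbij' (fun f z => Equiv.swap a b (f z)) (fun f z => Equiv.swap a b (f z))
    ?_ ?_ ?_ ?_
  · intro f hf
    rw [Finset.mem_coe, Finset.mem_filter] at hf ⊢
    exact ⟨perm_mem_PC hf.1 _, by simp only [hf.2, Equiv.swap_apply_left]⟩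
  · intro f hf
    rw [Finset.mem_coe, Finset.mem_filter] at hf ⊢
    exact ⟨perm_mem_PC hf.1 _, by simp only [hf.2, Equiv.swap_apply_right]⟩
  · intro f _
    funext z
    simp
  · intro f _
    funext z
    simp

theorem card_mul (G : SimpleGraph V) (v : V) (a : C) :
    Fintype.card C * ((PC G C).filter (fun f => f v = a)).card = (PC G C).card := by
  have h1 : (PC G C).card = ∑ b : C, ((PC G C).filter (fun f => f v = b)).card :=
    Finset.card_eq_sum_card_fiberwise (fun f _ => Finset.mem_coe.2 (Finset.mem_univ (f v)))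
  rw [h1, Finset.sum_congr rfl (fun b _ => card_perm G v b a), Finset.sum_const, Finset.card_univ,
    smul_eq_mul]

/-- weight of an ordered pair of colours -/
noncomputable def Tw (G : SimpleGraph V) (v : V) (x y : C) : ℝ :=
  ∑ f ∈ (PC G C).filter (fun f => f v = x ∧ y ∈ avail G f v), 1 / ((avail G f v).card : ℝ)

theorem Tw_perm (G : SimpleGraph V) (v : V) (x y : C) (σ : Equiv.Perm C) :
    Tw G v x y = Tw G v (σ x) (σ y) := by
  unfold Tw
  refine Finset.sum_nbij' (fun f z => σ (f z)) (fun f z => σ.symm (f z)) ?_ ?_ ?_ ?_ ?_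
  · intro f hf
    rw [Finset.mem_filter] at hf ⊢
    exact ⟨perm_mem_PC hf.1 _, by simp only [hf.2.1], (perm_mem_avail σ).2 hf.2.2⟩
  · intro f hf
    rw [Finset.mem_filter] at hf ⊢
    refine ⟨perm_mem_PC hf.1 _, by simp only [hf.2.1, Equiv.symm_apply_apply], ?_⟩
    rw [← perm_mem_avail σ]
    simpa using hf.2.2
  · intro f _
    funext z
    simp
  · intro f _
    funext z
    simp
  · intro f _
    rw [perm_avail_card]

theorem exists_perm {x y x' y' : C} (h : x ≠ y) (h' : x' ≠ y') :
    ∃ σ : Equiv.Perm C, σ x = x' ∧ σ y = y' := by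
  refine ⟨(Equiv.swap x x').trans (Equiv.swap (Equiv.swap x x' y) y'), ?_, ?_⟩
  · rw [Equiv.trans_apply, Equiv.swap_apply_left, Equiv.swap_apply_of_ne_of_ne _ h']
    intro he
    have h1 : Equiv.swap x x' x = Equiv.swap x x' y := by rw [Equiv.swap_apply_left]; exact he
    exact h ((Equiv.swap x x').injective h1)
  · rw [Equiv.trans_apply, Equiv.swap_apply_left]

theorem Tw_eq (G : SimpleGraph V) (v : V) {x y x' y' : C} (h : x ≠ y) (h' : x' ≠ y') :
    Tw G v x y = Tw G v x' y' := by
  obtain ⟨σ, h1, h2⟩ := exists_perm h h'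
  rw [Tw_perm G v x y σ, h1, h2]

theorem sum_eq_Tw (G : SimpleGraph V) (v : V) (F : C → C → ℝ) :
    ∑ f ∈ PC G C, (1 / ((avail G f v).card : ℝ)) * ∑ c ∈ avail G f v, F (f v) c =
      ∑ x : C, ∑ y : C, F x y * Tw G v x y := by
  have h1 : ∀ f ∈ PC G C, (1 / ((avail G f v).card : ℝ)) * ∑ c ∈ avail G f v, F (f v) c =
      ∑ x : C, ∑ y : C, if f v = x ∧ y ∈ avail G f v then
        F x y * (1 / ((avail G f v).card : ℝ)) else 0 := by
    intro f _
    have h2 : (∑ x : C, ∑ y : C, if f v = x ∧ y ∈ avail G f v then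
        F x y * (1 / ((avail G f v).card : ℝ)) else 0) =
        ∑ y : C, if f v = f v ∧ y ∈ avail G f v then
          F (f v) y * (1 / ((avail G f v).card : ℝ)) else 0 := by
      refine Finset.sum_eq_single (f v) ?_ ?_
      · intro x _ hx
        refine Finset.sum_eq_zero fun y _ => ?_
        rw [if_neg]
        rintro ⟨h, _⟩
        exact hx h.symm
      · intro h
        exact absurd (Finset.mem_univ _) h
    rw [h2, ← Finset.sum_filter, Finset.mul_sum]
    refine Finset.sum_congr ?_ fun c _ => mul_comm _ _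
    ext c
    simp
  rw [Finset.sum_congr rfl h1, Finset.sum_comm]
  refine Finset.sum_congr rfl fun x _ => ?_
  rw [Finset.sum_comm]
  refine Finset.sum_congr rfl fun y _ => ?_
  unfold Tw
  rw [Finset.mul_sum, Finset.sum_filter]

theorem avail_card_ge (G : SimpleGraph V) (v : V) (f : V → C) :
    Fintype.card C ≤ (avail G f v).card + G.degree v := by
  have h1 : (avail G f v)ᶜ ⊆ (G.neighborFinset v).image f := by
    intro c hc
    simp only [avail, Finset.mem_compl, Finset.mem_filter, Finset.mem_univ, true_and] at hc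
    push Not at hc
    obtain ⟨u, hu, hc⟩ := hc
    exact Finset.mem_image.2 ⟨u, (G.mem_neighborFinset v u).2 hu, hc⟩
  have h2 := (Finset.card_le_card h1).trans Finset.card_image_le
  rw [Finset.card_compl, SimpleGraph.card_neighborFinset_eq_degree] at h2
  omega

/-- Lower bound of the local Dirichlet form by colour symmetry. -/
theorem local_form (G : SimpleGraph V) (v : V) (h : C → ℝ)
    (hq : G.degree v + 2 ≤ Fintype.card C) :
    ((PC G C).card : ℝ) * (((Fintype.card C : ℝ) - G.degree v - 1) /
        ((Fintype.card C : ℝ) - G.degree v)) *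
        ((∑ x : C, ∑ y : C, (h x - h y) ^ 2) /
          ((Fintype.card C : ℝ) * ((Fintype.card C : ℝ) - 1))) ≤
      ∑ f ∈ PC G C, (1 / ((avail G f v).card : ℝ)) * ∑ c ∈ avail G f v, (h (f v) - h c) ^ 2 := by
  have hcard : 1 < Fintype.card C := by omega
  obtain ⟨x0, y0, hxy⟩ := Fintype.one_lt_card_iff.1 hcard
  set T0 := Tw G v x0 y0 with hT0
  set q : ℝ := (Fintype.card C : ℝ) with hqdef
  set d : ℝ := (G.degree v : ℝ) with hddef
  have hqd : d + 2 ≤ q := by
    rw [hqdef, hddef]
    exact_mod_cast hq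
  have hd0 : 0 ≤ d := by rw [hddef]; positivity
  set S : ℝ := ∑ x : C, ∑ y : C, (h x - h y) ^ 2 with hS
  have hS0 : 0 ≤ S := Finset.sum_nonneg fun x _ => Finset.sum_nonneg fun y _ => sq_nonneg _
  have hR : ∑ f ∈ PC G C, (1 / ((avail G f v).card : ℝ)) *
      ∑ c ∈ avail G f v, (h (f v) - h c) ^ 2 = S * T0 := by
    rw [sum_eq_Tw G v (fun x y => (h x - h y) ^ 2), hS, Finset.sum_mul]
    refine Finset.sum_congr rfl fun x _ => ?_
    rw [Finset.sum_mul]
    refine Finset.sum_congr rfl fun y _ => ?_
    by_cases hxy' : x = y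
    · rw [hxy']; simp
    · rw [Tw_eq G v hxy' hxy]
  have hL : ∑ f ∈ PC G C, (1 / ((avail G f v).card : ℝ)) *
      ∑ c ∈ avail G f v, (if f v = c then (0 : ℝ) else 1) = (q * (q - 1)) * T0 := by
    rw [sum_eq_Tw G v (fun x y => if x = y then (0 : ℝ) else 1)]
    have h1 : ∀ x : C, ∑ y : C, (if x = y then (0 : ℝ) else 1) * Tw G v x y = (q - 1) * T0 := by
      intro x
      have h2 : ∀ y : C, (if x = y then (0 : ℝ) else 1) * Tw G v x y =
          T0 - (if x = y then T0 else 0) := by
        intro y
        by_cases hxy' : x = y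
        · rw [if_pos hxy', if_pos hxy']; ring
        · rw [if_neg hxy', if_neg hxy', Tw_eq G v hxy' hxy]; ring
      rw [Finset.sum_congr rfl (fun y _ => h2 y), Finset.sum_sub_distrib, Finset.sum_const,
        Finset.sum_ite_eq, if_pos (Finset.mem_univ _), Finset.card_univ, nsmul_eq_mul]
      ring
    rw [Finset.sum_congr rfl (fun x _ => h1 x), Finset.sum_const, Finset.card_univ, nsmul_eq_mul]
    ring
  have hlow : ((PC G C).card : ℝ) * ((q - d - 1) / (q - d)) ≤ (q * (q - 1)) * T0 := by
    rw [← hL, ← nsmul_eq_mul, ← Finset.sum_const]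
    refine Finset.sum_le_sum fun f hf => ?_
    have hk1 : q ≤ ((avail G f v).card : ℝ) + d := by
      rw [hqdef, hddef]
      exact_mod_cast avail_card_ge G v f
    set k : ℝ := ((avail G f v).card : ℝ) with hk
    have hfv : f v ∈ avail G f v := by
      refine Finset.mem_filter.2 ⟨Finset.mem_univ _, fun u hu => ?_⟩
      exact ((Finset.mem_filter.1 hf).2 v u hu).symm
    have h3 : ∑ c ∈ avail G f v, (if f v = c then (0 : ℝ) else 1) = k - 1 := by
      have h4 : ∀ c ∈ avail G f v, (if f v = c then (0 : ℝ) else 1) =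
          1 - (if f v = c then (1 : ℝ) else 0) := by
        intro c _
        split_ifs <;> simp
      rw [Finset.sum_congr rfl h4, Finset.sum_sub_distrib, Finset.sum_const, Finset.sum_ite_eq,
        if_pos hfv, nsmul_eq_mul, mul_one]
    rw [h3]
    have hqd1 : 0 < q - d := by linarith
    have hk0 : 0 < k := by linarith
    have e1 : (q - d - 1) / (q - d) = 1 - 1 / (q - d) := by field_simp
    have e2 : 1 / k * (k - 1) = 1 - 1 / k := by field_simp
    rw [e1, e2]
    have : 1 / k ≤ 1 / (q - d) := one_div_le_one_div_of_le hqd1 (by linarith)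
    linarith
  rw [hR]
  have hqq : 0 < q * (q - 1) := by
    apply mul_pos <;> linarith
  calc ((PC G C).card : ℝ) * ((q - d - 1) / (q - d)) * (S / (q * (q - 1)))
      ≤ (q * (q - 1)) * T0 * (S / (q * (q - 1))) := by
        apply mul_le_mul_of_nonneg_right hlow
        positivity
    _ = S * T0 := by
        rw [mul_div_assoc']
        rw [div_eq_iff hqq.ne']
        ring

end Pool.Agent.Kempe
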