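import Pool.Agent.Lib.MP_26a019_lc.KZero
import Pool.Agent.Lib.MP_26a019_lc.Sym
import Pool.Agent.Lib.MP_26a019_lc.Swap
import Pool.Agent.Lib.MP_26a019_lc.Decay

open Finset Classical

namespace Pool.Agent.Kempe

variable {V C : Type} [Fintype V] [Fintype C]

/-- The probability of `A` for a uniform proper colouring conditioned on `f v = x`. -/
noncomputable def condProb (G : SimpleGraph V) (v : V) (x : C) (A : Set (V → C)) : ℝ :=
  (((PC G C).filter (fun f => f v = x ∧ f ∈ A)).card : ℝ) /
    (((PC G C).filter (fun f => f v = x)).card : ℝ)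

/-- sum over colourings of the number of vertices of the Kempe component at distance `> j` -/
noncomputable def bb (G : SimpleGraph V) (v : V) (a b : C) (j : ℕ) : ℤ :=
  ∑ f ∈ (univ.filter (fun f : V → C => Proper G f ∧ f v = a)),
    (((KC G f a b v).filter (fun z => j < G.dist v z)).card : ℤ)

theorem bb_split (G : SimpleGraph V) (v : V) (a b : C) (j : ℕ) :
    ∑ f ∈ (univ.filter (fun f : V → C => Proper G f ∧ f v = a)),
      (((KC G f a b v).filter (fun z => j + 1 = G.dist v z)).card : ℤ) =
      bb G v a b j - bb G v a b (j + 1) := by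
  unfold bb
  rw [← Finset.sum_sub_distrib]
  refine Finset.sum_congr rfl fun f _ => ?_
  have : ((KC G f a b v).filter (fun z => j < G.dist v z)).card =
      ((KC G f a b v).filter (fun z => j + 1 = G.dist v z)).card +
      ((KC G f a b v).filter (fun z => j + 1 < G.dist v z)).card := by
    rw [← Finset.card_union_of_disjoint]
    · congr 1
      ext z
      simp only [Finset.mem_filter, Finset.mem_union]
      constructor
      · rintro ⟨h1, h2⟩
        rcases Nat.lt_or_ge (j+1) (G.dist v z) with h | h
        · exact Or.inr ⟨h1, h⟩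
        · exact Or.inl ⟨h1, by omega⟩
      · rintro (⟨h1, h2⟩ | ⟨h1, h2⟩)
        · exact ⟨h1, by omega⟩
        · exact ⟨h1, by omega⟩
    · rw [Finset.disjoint_filter]
      intro z _ h1 h2
      omega
  rw [this]; push_cast; ring

theorem bb_nonneg (G : SimpleGraph V) (v : V) (a b : C) (j : ℕ) : 0 ≤ bb G v a b j :=
  Finset.sum_nonneg fun _ _ => by positivity

theorem bb_step (G : SimpleGraph V) (v : V) {a b : C} (hab : a ≠ b) {D : ℕ}
    (hD : ∀ z, G.degree z ≤ D) (hq : D < Fintype.card C) (j : ℕ) :
    ((Fintype.card C : ℤ) - 1) * bb G v a b (j + 1) ≤ ((D : ℤ) - 1) * bb G v a b j := by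
  have h := decay_step (G := G) v hab hD hq (j + 1) (by omega)
  rw [bb_split] at h
  have h' : ((Fintype.card C : ℤ) - D) * bb G v a b (j + 1) ≤
      ((D : ℤ) - 1) * (bb G v a b j - bb G v a b (j + 1)) := h
  nlinarith

theorem bb_zero (G : SimpleGraph V) (v : V) {a b : C} (hab : a ≠ b) {D : ℕ}
    (hD : ∀ z, G.degree z ≤ D) (hq : D < Fintype.card C) :
    ((Fintype.card C : ℤ) - D) * bb G v a b 0 ≤
      (D : ℤ) * ((univ.filter (fun f : V → C => Proper G f ∧ f v = a)).card : ℤ) := by
  have h := ksingle (G := G) v hab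
  have key : ∀ f ∈ (univ.filter (fun f : V → C => Proper G f ∧ f v = a)),
      ((Fintype.card C : ℤ) - D) * (((KC G f a b v).filter (fun z => 0 < G.dist v z)).card : ℤ) +
      ((Fintype.card C : ℤ) - D) ≤
      ∑ z ∈ KC G f a b v, ((Fintype.card C : ℤ) - (G.degree z : ℤ)) := by
    intro f _
    have hv : v ∈ KC G f a b v := by
      simp only [KC, Finset.mem_filter, Finset.mem_univ, true_and]
      exact SimpleGraph.Reachable.refl _
    have hcard : (((KC G f a b v).filter (fun z => 0 < G.dist v z)).card) + 1 ≤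
        (KC G f a b v).card := by
      have : insert v ((KC G f a b v).filter (fun z => 0 < G.dist v z)) ⊆ KC G f a b v := by
        intro z hz
        rcases Finset.mem_insert.1 hz with rfl | hz
        · exact hv
        · exact (Finset.mem_filter.1 hz).1
      have h2 := Finset.card_le_card this
      rw [Finset.card_insert_of_notMem] at h2
      · exact h2
      · simp
    have h3 : ∑ z ∈ KC G f a b v, ((Fintype.card C : ℤ) - D) ≤
        ∑ z ∈ KC G f a b v, ((Fintype.card C : ℤ) - (G.degree z : ℤ)) :=
      Finset.sum_le_sum fun z _ => by have := hD z; omega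
    rw [Finset.sum_const, nsmul_eq_mul] at h3
    have h4 : (0:ℤ) < (Fintype.card C : ℤ) - D := by omega
    have h5 : ((((KC G f a b v).filter (fun z => 0 < G.dist v z)).card : ℤ)) + 1 ≤
        ((KC G f a b v).card : ℤ) := by exact_mod_cast hcard
    nlinarith
  have h6 := Finset.sum_le_sum key
  rw [Finset.sum_add_distrib, ← Finset.mul_sum, Finset.sum_const, nsmul_eq_mul] at h6
  have h7 : ((Fintype.card C : ℤ) - D) * bb G v a b 0 +
      ((univ.filter (fun f : V → C => Proper G f ∧ f v = a)).card : ℤ) * ((Fintype.card C : ℤ) - D) ≤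
      (Fintype.card C : ℤ) *
        ((univ.filter (fun f : V → C => Proper G f ∧ f v = a)).card : ℤ) := le_trans h6 h
  linarith

theorem bb_pow (G : SimpleGraph V) (v : V) {a b : C} (hab : a ≠ b) {D : ℕ} (hD1 : 1 ≤ D)
    (hD : ∀ z, G.degree z ≤ D) (hq : D < Fintype.card C) (j : ℕ) :
    (bb G v a b j : ℝ) ≤ (((D : ℝ) - 1) / ((Fintype.card C : ℝ) - 1)) ^ j *
      ((D : ℝ) / ((Fintype.card C : ℝ) - D) *
        ((univ.filter (fun f : V → C => Proper G f ∧ f v = a)).card : ℝ)) := by
  have hq' : (D : ℝ) < (Fintype.card C : ℝ) := by exact_mod_cast hq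
  have hD1' : (1 : ℝ) ≤ (D : ℝ) := by exact_mod_cast hD1
  induction j with
  | zero =>
    have h := bb_zero G v hab hD hq
    have h' : ((Fintype.card C : ℝ) - D) * (bb G v a b 0 : ℝ) ≤
      (D : ℝ) * ((univ.filter (fun f : V → C => Proper G f ∧ f v = a)).card : ℝ) := by
      exact_mod_cast h
    rw [pow_zero, one_mul, div_mul_eq_mul_div, le_div_iff₀ (by linarith)]
    linarith
  | succ j ih =>
    have h := bb_step G v hab hD hq j
    have h' : ((Fintype.card C : ℝ) - 1) * (bb G v a b (j+1) : ℝ) ≤
      ((D : ℝ) - 1) * (bb G v a b j : ℝ) := by exact_mod_cast h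
    have hp : (0:ℝ) < (Fintype.card C : ℝ) - 1 := by linarith
    have h2 : (bb G v a b (j+1) : ℝ) ≤
        (((D : ℝ) - 1) / ((Fintype.card C : ℝ) - 1)) * (bb G v a b j : ℝ) := by
      rw [div_mul_eq_mul_div, le_div_iff₀ hp]; linarith
    refine le_trans h2 ?_
    rw [pow_succ, mul_assoc, mul_comm (_ ^ j), mul_assoc]
    refine mul_le_mul_of_nonneg_left ?_ (div_nonneg (by linarith) hp.le)
    rw [mul_comm _ (_ ^ j)]
    exact ih

theorem HH_le (G : SimpleGraph V) (f : V → C) (x y : C) : HH G f x y ≤ G := by
  intro u w h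
  exact h.1

theorem kswap_at (G : SimpleGraph V) (f : V → C) {x y : C} (v : V) (hfv : f v = x) :
    kswap G f x y v v = y := by
  simp [kswap, hfv, SimpleGraph.Reachable.refl]

/-- The colourings with `f v = a` in `A` are at most the ones with `f v = b` in `A` plus the
ones whose Kempe component goes far. -/
theorem one_side (G : SimpleGraph V) (v : V) {a b : C} (hab : a ≠ b) (R : ℕ) (hR : 1 ≤ R)
    (A : Set (V → C))
    (hA : ∀ f f' : V → C, (∀ z, (∀ p : G.Walk v z, R ≤ p.length) → f z = f' z) →
      (f ∈ A ↔ f' ∈ A)) :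
    (((PC G C).filter (fun f => f v = a ∧ f ∈ A)).card : ℤ) ≤
      (((PC G C).filter (fun f => f v = b ∧ f ∈ A)).card : ℤ) + bb G v a b (R - 1) := by
  set P := (PC G C).filter (fun f => f v = a ∧ f ∈ A) with hP
  set Far : (V → C) → Prop := fun f => ∃ z ∈ KC G f a b v, R - 1 < G.dist v z with hFar
  have h1 : P.card = (P.filter (fun f => Far f)).card + (P.filter (fun f => ¬ Far f)).card :=
    (Finset.card_filter_add_card_filter_not _).symm
  have h2 : (P.filter (fun f => ¬ Far f)).card ≤
      ((PC G C).filter (fun f => f v = b ∧ f ∈ A)).card := by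
    refine Finset.card_le_card_of_injOn (fun f => kswap G f a b v) ?_ ?_
    · intro f hf
      simp only [hP, Finset.coe_filter, Finset.mem_filter, Set.mem_setOf_eq, PC, Finset.mem_univ,
        true_and] at hf ⊢
      obtain ⟨⟨hpr, hfv, hfA⟩, hnf⟩ := hf
      refine ⟨kswap_proper hab hpr (Or.inl hfv), kswap_at G f v hfv, ?_⟩
      refine (hA f (kswap G f a b v) ?_).1 hfA
      intro z hz
      unfold kswap
      split_ifs with hr h
      · exfalso
        apply hnf
        refine ⟨z, by simpa [KC] using hr, ?_⟩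
        have hr' : G.Reachable v z := hr.mono (HH_le G f a b)
        obtain ⟨p, hp⟩ := hr'.exists_walk_length_eq_dist
        have := hz p
        omega
      · exfalso
        apply hnf
        refine ⟨z, by simpa [KC] using hr, ?_⟩
        have hr' : G.Reachable v z := hr.mono (HH_le G f a b)
        obtain ⟨p, hp⟩ := hr'.exists_walk_length_eq_dist
        have := hz p
        omega
      · rfl
    · intro f hf f' hf' he
      simp only [hP, Finset.coe_filter, Finset.mem_filter, Set.mem_setOf_eq, PC, Finset.mem_univ,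
        true_and] at hf hf'
      have e1 := kswap_kswap hab hf.1.1 (Or.inl hf.1.2.1)
      have e2 := kswap_kswap hab hf'.1.1 (Or.inl hf'.1.2.1)
      simp only at he
      rw [← e1, ← e2, he]
  have h3 : ((P.filter (fun f => Far f)).card : ℤ) ≤ bb G v a b (R - 1) := by
    unfold bb
    rw [Finset.card_eq_sum_ones]
    push_cast
    calc (∑ f ∈ P.filter (fun f => Far f), (1:ℤ)) ≤
        ∑ f ∈ P.filter (fun f => Far f),
          (((KC G f a b v).filter (fun z => R - 1 < G.dist v z)).card : ℤ) := by
          refine Finset.sum_le_sum fun f hf => ?_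
          obtain ⟨z, hz1, hz2⟩ := (Finset.mem_filter.1 hf).2
          have : 0 < ((KC G f a b v).filter (fun z => R - 1 < G.dist v z)).card :=
            Finset.card_pos.2 ⟨z, Finset.mem_filter.2 ⟨hz1, hz2⟩⟩
          exact_mod_cast this
      _ ≤ _ := by
          refine Finset.sum_le_sum_of_subset_of_nonneg ?_ (fun _ _ _ => by positivity)
          intro f hf
          simp only [hP, Finset.mem_filter, PC, Finset.mem_univ, true_and] at hf ⊢
          exact ⟨hf.1.1, hf.1.2.1⟩
  have h4 : (P.card : ℤ) = ((P.filter (fun f => Far f)).card : ℤ) +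
      ((P.filter (fun f => ¬ Far f)).card : ℤ) := by exact_mod_cast h1
  have h5 : ((P.filter (fun f => ¬ Far f)).card : ℤ) ≤
      (((PC G C).filter (fun f => f v = b ∧ f ∈ A)).card : ℤ) := by exact_mod_cast h2
  linarith

theorem decay_main (G : SimpleGraph V) (D : ℕ) (hD : ∀ z, G.degree z ≤ D)
    (hq : D + 1 ≤ Fintype.card C) (v : V) (R : ℕ) (hR : 1 ≤ R) (A : Set (V → C))
    (hA : ∀ f f' : V → C, (∀ z, (∀ p : G.Walk v z, R ≤ p.length) → f z = f' z) →
      (f ∈ A ↔ f' ∈ A)) (a b : C) :
    |condProb G v a A - condProb G v b A| ≤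
      (D : ℝ) / ((Fintype.card C : ℝ) - D) *
        (((D : ℝ) - 1) / ((Fintype.card C : ℝ) - 1)) ^ (R - 1) := by
  have hq' : (D : ℝ) + 1 ≤ (Fintype.card C : ℝ) := by exact_mod_cast hq
  have hD0 : (0:ℝ) ≤ D := Nat.cast_nonneg _
  have hrhs : 0 ≤ (D : ℝ) / ((Fintype.card C : ℝ) - D) *
        (((D : ℝ) - 1) / ((Fintype.card C : ℝ) - 1)) ^ (R - 1) := by
    rcases Nat.eq_zero_or_pos D with h | h
    · subst h; simp
    · have h1 : (1:ℝ) ≤ D := by exact_mod_cast h
      apply mul_nonneg (div_nonneg hD0 (by linarith))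
      apply pow_nonneg
      exact div_nonneg (by linarith) (by linarith)
  rcases eq_or_ne a b with rfl | hab
  · simpa using hrhs
  set M : ℕ := ((PC G C).filter (fun f => f v = a)).card with hM
  have hMb : ((PC G C).filter (fun f => f v = b)).card = M := card_perm G v b a
  have hset : (univ.filter (fun f : V → C => Proper G f ∧ f v = a)) =
      (PC G C).filter (fun f => f v = a) := by
    ext f; simp [PC]
  have hsetb : (univ.filter (fun f : V → C => Proper G f ∧ f v = b)) =
      (PC G C).filter (fun f => f v = b) := by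
    ext f; simp [PC]
  unfold condProb
  rw [hMb, ← hM]
  rcases Nat.eq_zero_or_pos M with hM0 | hM0
  · rw [hM0]; simpa using hrhs
  have hMp : (0:ℝ) < M := by exact_mod_cast hM0
  rcases Nat.eq_zero_or_pos D with hDz | hDp
  · -- no edges: the two numbers are equal by the bounds with `bb = 0`
    have hb0 : ∀ x y : C, x ≠ y → bb G v x y (R - 1) ≤ 0 := by
      intro x y hxy
      have h1 : bb G v x y (R-1) ≤ bb G v x y 0 := by
        unfold bb
        refine Finset.sum_le_sum fun f _ => ?_
        have : ((KC G f x y v).filter (fun z => R - 1 < G.dist v z)) ⊆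
            ((KC G f x y v).filter (fun z => 0 < G.dist v z)) := by
          intro z hz
          simp only [Finset.mem_filter] at hz ⊢
          exact ⟨hz.1, by omega⟩
        exact_mod_cast Finset.card_le_card this
      have h2 := bb_zero G v hxy hD (by omega)
      subst hDz
      have h3 : (0:ℤ) < (Fintype.card C : ℤ) := by omega
      push_cast at h2
      nlinarith
    have i1 := one_side G v hab R hR A hA
    have i2 := one_side G v hab.symm R hR A hA
    have j1 := hb0 a b hab
    have j2 := hb0 b a hab.symm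
    have e : ((PC G C).filter (fun f => f v = a ∧ f ∈ A)).card =
        ((PC G C).filter (fun f => f v = b ∧ f ∈ A)).card := by omega
    rw [e, sub_self, abs_zero]
    exact hrhs
  have k1 := bb_pow G v hab hDp hD (by omega) (R-1)
  have k2 := bb_pow G v hab.symm hDp hD (by omega) (R-1)
  rw [hset, ← hM] at k1
  rw [hsetb, hMb] at k2
  have i1 : (((PC G C).filter (fun f => f v = a ∧ f ∈ A)).card : ℝ) ≤
      (((PC G C).filter (fun f => f v = b ∧ f ∈ A)).card : ℝ) + (bb G v a b (R-1) : ℝ) := by
    exact_mod_cast one_side G v hab R hR A hA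
  have i2 : (((PC G C).filter (fun f => f v = b ∧ f ∈ A)).card : ℝ) ≤
      (((PC G C).filter (fun f => f v = a ∧ f ∈ A)).card : ℝ) + (bb G v b a (R-1) : ℝ) := by
    exact_mod_cast one_side G v hab.symm R hR A hA
  rw [← sub_div, abs_div, abs_of_pos hMp, div_le_iff₀ hMp, abs_le]
  constructor
  · nlinarith
  · nlinarith

end Pool.Agent.Kempe
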