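import Mathlib

/-!
Definitions for the three colour inequality on Kempe components (MP_26a019_lc).
`W` is the set of pinned (revealed) vertices, `f` a proper colouring of the whole graph.
-/

open Finset Classical

namespace Pool.Agent.Kempe

variable {V C : Type}

/-- `f` is a proper colouring of `G`. -/
def Proper (G : SimpleGraph V) (f : V → C) : Prop := ∀ u w, G.Adj u w → f u ≠ f w

/-- The graph formed by the edges of `G` whose two ends have the colours `x` and `y`. -/
def HH (G : SimpleGraph V) (f : V → C) (x y : C) : SimpleGraph V where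
  Adj u w := G.Adj u w ∧ ((f u = x ∧ f w = y) ∨ (f u = y ∧ f w = x))
  symm := ⟨fun u w h => ⟨h.1.symm, h.2.elim (fun h => Or.inr ⟨h.2, h.1⟩) (fun h => Or.inl ⟨h.2, h.1⟩)⟩⟩
  loopless := ⟨fun u h => G.loopless.irrefl u h.1⟩

/-- The graph formed by the edges of `G` between a `y`-coloured vertex outside `W` and a
`c`-coloured vertex. -/
def Gam (G : SimpleGraph V) (f : V → C) (W : Finset V) (c y : C) : SimpleGraph V where
  Adj u w := G.Adj u w ∧ ((f u = y ∧ f w = c ∧ u ∉ W) ∨ (f w = y ∧ f u = c ∧ w ∉ W))
  symm := ⟨fun u w h => ⟨h.1.symm, h.2.elim Or.inr Or.inl⟩⟩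
  loopless := ⟨fun u h => G.loopless.irrefl u h.1⟩

variable [Fintype V]

/-- number of `c`-coloured neighbours of `z`. -/
noncomputable def cdeg (G : SimpleGraph V) (f : V → C) (c : C) (z : V) : ℕ :=
  (univ.filter (fun w => G.Adj z w ∧ f w = c)).card

/-- Free vertices joined to a pinned vertex by a path with colours `a`, `b`. -/
noncomputable def KK (G : SimpleGraph V) (f : V → C) (W : Finset V) (a b : C) : Finset V :=
  univ.filter (fun z => z ∉ W ∧ ∃ w ∈ W, (HH G f a b).Reachable z w)

/-- The `c`-coloured vertices which are pinned or adjacent to a pinned `y`-coloured vertex. -/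
noncomputable def SS (G : SimpleGraph V) (f : V → C) (W : Finset V) (c y : C) : Finset V :=
  univ.filter (fun z => f z = c ∧ (z ∈ W ∨ ∃ w ∈ W, f w = y ∧ G.Adj z w))

/-- Number of components of `Gam` meeting `SS`. -/
noncomputable def NN (G : SimpleGraph V) (f : V → C) (W : Finset V) (c y : C) : ℕ :=
  ((SS G f W c y).image (fun z => (Gam G f W c y).connectedComponentMk z)).card

/-- The pinned `c`-vertices which come first (in the order `ord`) among the pinned `c`-vertices
of their component of `Gam`. -/
noncomputable def MM (G : SimpleGraph V) (f : V → C) (W : Finset V) (c y : C) (ord : V → ℕ) :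
    Finset V :=
  W.filter (fun i => f i = c ∧
    ∀ j ∈ W, f j = c → (Gam G f W c y).Reachable i j → ord i ≤ ord j)

/-- The potential. Pinned `c`-vertices in `A` are compared with `b`, the others with `a`. -/
noncomputable def Psi (G : SimpleGraph V) (f : V → C) (W : Finset V) (a b c : C) (A : Finset V)
    (ord : V → ℕ) : ℤ :=
  (∑ z ∈ KK G f W a b, ((cdeg G f c z : ℤ) - 1)) + (NN G f W c a : ℤ) + (NN G f W c b : ℤ)
    - 2 * (((MM G f W c b ord).filter (· ∈ A)).card : ℤ)
    - 2 * (((MM G f W c a ord).filter (· ∉ A)).card : ℤ)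

/-- `Meets`: the component of `u` in `Gam` (for the colour `y`) meets `SS`. -/
def Meets (G : SimpleGraph V) (f : V → C) (W : Finset V) (c y : C) (u : V) : Prop :=
  ∃ z ∈ SS G f W c y, (Gam G f W c y).Reachable u z

/-- Kempe exchange of the colours `x`, `y` on the component of `u`. -/
noncomputable def kswap (G : SimpleGraph V) (f : V → C) (x y : C) (u : V) : V → C :=
  fun z => if (HH G f x y).Reachable u z then (if f z = x then y else x) else f z

/-- number of pairs (pinned `a`- or `b`-coloured vertex, free `c`-coloured neighbour). -/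
noncomputable def ecross (G : SimpleGraph V) (f : V → C) (W : Finset V) (a b c : C) : ℕ :=
  (univ.filter (fun x : V × V => x.1 ∈ W ∧ (f x.1 = a ∨ f x.1 = b) ∧ x.2 ∉ W ∧ f x.2 = c ∧
    G.Adj x.1 x.2)).card

/-- edges from pinned vertices with `p`-colour `a` or `b` to free vertices. -/
noncomputable def eout (G : SimpleGraph V) (p : V → C) (W : Finset V) (a b : C) : ℕ :=
  (univ.filter (fun x : V × V => x.1 ∈ W ∧ (p x.1 = a ∨ p x.1 = b) ∧ x.2 ∉ W ∧
    G.Adj x.1 x.2)).card

/-- the Kempe component of `v`. -/
noncomputable def KC (G : SimpleGraph V) (f : V → C) (a b : C) (v : V) : Finset V :=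
  univ.filter (fun z => (HH G f a b).Reachable v z)

variable [Fintype C]

/-- Proper colourings which agree with `p` on `W` and use only `a`, `b`, `c` outside `W`. -/
noncomputable def Om3 (G : SimpleGraph V) (W : Finset V) (p : V → C) (a b c : C) :
    Finset (V → C) :=
  univ.filter (fun f => Proper G f ∧ (∀ z ∈ W, f z = p z) ∧
    ∀ z, z ∉ W → (f z = a ∨ f z = b ∨ f z = c))

/-- Proper colourings which agree with `p` on `W`. -/
noncomputable def Om (G : SimpleGraph V) (W : Finset V) (p : V → C) : Finset (V → C) :=
  univ.filter (fun f => Proper G f ∧ (∀ z ∈ W, f z = p z))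

/-- the finite set of proper colourings -/
noncomputable def PC (G : SimpleGraph V) (C : Type) [Fintype C] : Finset (V → C) :=
  univ.filter (fun f => Proper G f)

/-- colours available at `v` -/
noncomputable def avail (G : SimpleGraph V) (f : V → C) (v : V) : Finset C :=
  univ.filter (fun c => ∀ u, G.Adj v u → f u ≠ c)

/-- Transition matrix of heat-bath Glauber dynamics: a uniform vertex `v` gets a uniform colour
among those not used by its neighbours. -/
noncomputable def glauber (G : SimpleGraph V) (f f' : V → C) : ℝ :=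
  (1 / (Fintype.card V : ℝ)) * ∑ v, (if (∀ u, u ≠ v → f' u = f u) ∧ f' v ∈ avail G f v then
    1 / ((avail G f v).card : ℝ) else 0)

/-- Dirichlet form of Glauber dynamics with respect to the uniform law. -/
noncomputable def dirichlet (G : SimpleGraph V) (g : (V → C) → ℝ) : ℝ :=
  (1 / 2) * ∑ f ∈ PC G C, ∑ f' ∈ PC G C,
    (1 / ((PC G C).card : ℝ)) * glauber G f f' * (g f - g f') ^ 2

/-- Variance under the uniform law on proper colourings. -/
noncomputable def variance (G : SimpleGraph V) (g : (V → C) → ℝ) : ℝ :=
  (∑ f ∈ PC G C, (g f) ^ 2) / ((PC G C).card : ℝ) - ((∑ f ∈ PC G C, g f) / ((PC G C).card : ℝ)) ^ 2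

end Pool.Agent.Kempe
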