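import Pool.Agent.Lib.MP_26a019_lc.Defs

open Finset Classical

namespace Pool.Agent.Kempe

variable {V C : Type} [Fintype V]
variable {G : SimpleGraph V} {f : V → C} {W : Finset V} {a b c : C} {u : V}

namespace Edges

/-- there is a walk of length `n` from `z` to `W` in `HH G f a b` -/
def WL (G : SimpleGraph V) (f : V → C) (W : Finset V) (a b : C) (z : V) (n : ℕ) : Prop :=
  ∃ w ∈ W, ∃ p : (HH G f a b).Walk z w, p.length = n

theorem exists_WL {z : V} (hz : z ∈ KK G f W a b) : ∃ n, WL G f W a b z n := by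
  rw [KK, Finset.mem_filter] at hz
  obtain ⟨-, -, w, hw, ⟨p⟩⟩ := hz
  exact ⟨p.length, w, hw, p, rfl⟩

/-- the distance to `W` -/
noncomputable def dd (G : SimpleGraph V) (f : V → C) (W : Finset V) (a b : C) (z : V) : ℕ :=
  sInf {n | WL G f W a b z n}

theorem exists_parent {z : V} (hz : z ∈ KK G f W a b) :
    ∃ y, (HH G f a b).Adj z y ∧
      (y ∈ W ∨ (y ∈ KK G f W a b ∧ dd G f W a b y < dd G f W a b z)) := by
  have hne : {n | WL G f W a b z n}.Nonempty := exists_WL hz
  obtain ⟨w, hw, p, hp⟩ := Nat.sInf_mem hne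
  have hzW : z ∉ W := by
    rw [KK, Finset.mem_filter] at hz
    exact hz.2.1
  cases p with
  | nil => exact absurd hw hzW
  | @cons _ y _ h q =>
    refine ⟨y, h, ?_⟩
    by_cases hy : y ∈ W
    · exact Or.inl hy
    · right
      refine ⟨?_, ?_⟩
      · rw [KK, Finset.mem_filter]
        exact ⟨Finset.mem_univ _, hy, w, hw, ⟨q⟩⟩
      · have h1 : dd G f W a b y ≤ q.length := Nat.sInf_le ⟨w, hw, q, rfl⟩
        rw [SimpleGraph.Walk.length_cons] at hp
        have h2 : dd G f W a b z = q.length + 1 := hp.symm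
        omega

end Edges

/-- purely graph theoretic: every vertex of `KK` has a parent closer to `W`. -/
theorem KK_edges (hab : a ≠ b) (hf : Proper G f) :
    2 * (KK G f W a b).card ≤ (∑ z ∈ KK G f W a b, (cdeg G f a z + cdeg G f b z)) +
      (univ.filter (fun x : V × V => x.1 ∈ W ∧ (f x.1 = a ∨ f x.1 = b) ∧ x.2 ∉ W ∧
        (f x.2 = a ∨ f x.2 = b) ∧ G.Adj x.1 x.2)).card := by
  set H := HH G f a b with hH
  set K := KK G f W a b with hK
  have hpar : ∀ z : V, ∃ y, z ∈ K → (H.Adj z y ∧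
      (y ∈ W ∨ (y ∈ K ∧ Edges.dd G f W a b y < Edges.dd G f W a b z))) := by
    intro z
    by_cases hz : z ∈ K
    · obtain ⟨y, hy⟩ := Edges.exists_parent hz
      exact ⟨y, fun _ => hy⟩
    · exact ⟨z, fun h => absurd h hz⟩
  choose π hπ using hpar
  set E1 : Finset (V × V) :=
    K.biUnion (fun x => (univ.filter (fun y => H.Adj x y)).image (Prod.mk x)) with hE1
  set E2 : Finset (V × V) := univ.filter (fun x : V × V => x.1 ∈ W ∧ (f x.1 = a ∨ f x.1 = b) ∧
    x.2 ∉ W ∧ (f x.2 = a ∨ f x.2 = b) ∧ G.Adj x.1 x.2) with hE2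
  have hKW : ∀ z ∈ K, z ∉ W := by
    intro z hz
    rw [hK, KK, Finset.mem_filter] at hz
    exact hz.2.1
  have hcol : ∀ x y, H.Adj x y → (f x = a ∨ f x = b) ∧ (f y = a ∨ f y = b) := by
    intro x y h
    rcases h.2 with ⟨h1, h2⟩ | ⟨h1, h2⟩
    · exact ⟨Or.inl h1, Or.inr h2⟩
    · exact ⟨Or.inr h1, Or.inl h2⟩
  have hmem1 : ∀ x y, x ∈ K → H.Adj x y → (x, y) ∈ E1 := by
    intro x y hx hxy
    rw [hE1, Finset.mem_biUnion]
    refine ⟨x, hx, Finset.mem_image.2 ⟨y, ?_, rfl⟩⟩
    rw [Finset.mem_filter]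
    exact ⟨Finset.mem_univ _, hxy⟩
  let φ : V × Bool → V × V := fun x => if x.2 then (π x.1, x.1) else (x.1, π x.1)
  have hφt : ∀ z, φ (z, true) = (π z, z) := fun z => rfl
  have hφf : ∀ z, φ (z, false) = (z, π z) := fun z => rfl
  have hmaps : ∀ x ∈ K ×ˢ (univ : Finset Bool), φ x ∈ E1 ∪ E2 := by
    rintro ⟨z, t⟩ hx
    have hz : z ∈ K := (Finset.mem_product.1 hx).1
    obtain ⟨hadj, hor⟩ := hπ z hz
    cases t with
    | false =>
      rw [hφf]
      exact Finset.mem_union_left _ (hmem1 _ _ hz hadj)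
    | true =>
      rw [hφt]
      rcases hor with h | h
      · refine Finset.mem_union_right _ ?_
        rw [hE2, Finset.mem_filter]
        exact ⟨Finset.mem_univ _, h, (hcol _ _ hadj).2, hKW z hz, (hcol _ _ hadj).1,
          hadj.1.symm⟩
      · exact Finset.mem_union_left _ (hmem1 _ _ h.1 hadj.symm)
  have hbad : ∀ z ∈ K, ∀ z' ∈ K, z = π z' → π z = z' → False := by
    intro z hz z' hz' h1 h2
    obtain ⟨-, hor⟩ := hπ z hz
    obtain ⟨-, hor'⟩ := hπ z' hz'
    rw [h2] at hor
    rw [← h1] at hor'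
    rcases hor with h | h
    · exact hKW z' hz' h
    · rcases hor' with h' | h'
      · exact hKW z hz h'
      · exact absurd (h.2.trans h'.2) (lt_irrefl _)
  have hinj : Set.InjOn φ ((K ×ˢ (univ : Finset Bool) : Finset (V × Bool)) : Set (V × Bool)) := by
    rintro ⟨z, t⟩ hx ⟨z', t'⟩ hx' h
    have hz : z ∈ K := (Finset.mem_product.1 (Finset.mem_coe.1 hx)).1
    have hz' : z' ∈ K := (Finset.mem_product.1 (Finset.mem_coe.1 hx')).1
    cases t with
    | false =>
      cases t' with
      | false =>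
        rw [hφf, hφf, Prod.mk.injEq] at h
        rw [h.1]
      | true =>
        rw [hφf, hφt, Prod.mk.injEq] at h
        exact (hbad z hz z' hz' h.1 h.2).elim
    | true =>
      cases t' with
      | false =>
        rw [hφt, hφf, Prod.mk.injEq] at h
        exact (hbad z' hz' z hz h.1.symm h.2.symm).elim
      | true =>
        rw [hφt, hφt, Prod.mk.injEq] at h
        rw [h.2]
  have h1 : (K ×ˢ (univ : Finset Bool)).card ≤ (E1 ∪ E2).card :=
    Finset.card_le_card_of_injOn φ hmaps hinj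
  rw [Finset.card_product, Finset.card_univ, Fintype.card_bool] at h1
  have h2 : (E1 ∪ E2).card ≤ E1.card + E2.card := Finset.card_union_le _ _
  have h3 : E1.card ≤ ∑ z ∈ K, (cdeg G f a z + cdeg G f b z) := by
    refine Finset.card_biUnion_le.trans (Finset.sum_le_sum fun x hx => ?_)
    refine Finset.card_image_le.trans ?_
    have h4 : (univ.filter (fun y => H.Adj x y)) ⊆
        (univ.filter (fun y => G.Adj x y ∧ f y = a)) ∪
          (univ.filter (fun y => G.Adj x y ∧ f y = b)) := by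
      intro y hy
      rw [Finset.mem_filter] at hy
      rcases (hcol x y hy.2).2 with h | h
      · refine Finset.mem_union_left _ ?_
        rw [Finset.mem_filter]
        exact ⟨Finset.mem_univ _, hy.2.1, h⟩
      · refine Finset.mem_union_right _ ?_
        rw [Finset.mem_filter]
        exact ⟨Finset.mem_univ _, hy.2.1, h⟩
    exact (Finset.card_le_card h4).trans (Finset.card_union_le _ _)
  omega

end Pool.Agent.Kempe
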