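import Pool.Agent.Lib.MP_26a019_lc.Defs

open Finset Classical

namespace Pool.Agent.Kempe

variable {V C : Type} [Fintype V] [Fintype C]

theorem update_mem_PC {G : SimpleGraph V} {f : V → C} (hf : f ∈ PC G C) {v : V} {c : C}
    (hc : c ∈ avail G f v) : Function.update f v c ∈ PC G C := by
  have hp : Proper G f := (Finset.mem_filter.1 hf).2
  have ha : ∀ u, G.Adj v u → f u ≠ c := (Finset.mem_filter.1 hc).2
  refine Finset.mem_filter.2 ⟨Finset.mem_univ _, ?_⟩
  intro u w huw
  have hne : u ≠ w := G.ne_of_adj huw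
  by_cases hu : u = v
  · subst hu
    rw [Function.update_self, Function.update_of_ne (Ne.symm hne)]
    exact (ha w huw).symm
  · by_cases hw : w = v
    · subst hw
      rw [Function.update_self, Function.update_of_ne hne]
      exact ha u huw.symm
    · rw [Function.update_of_ne hu, Function.update_of_ne hw]
      exact hp u w huw

theorem sum_update_sub (h : V → C → ℝ) (f : V → C) (v : V) (c : C) :
    (∑ u, h u (f u)) - ∑ u, h u (Function.update f v c u) = h v (f v) - h v c := by
  rw [← Finset.sum_sub_distrib, Finset.sum_eq_single v]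
  · rw [Function.update_self]
  · intro u _ hu
    rw [Function.update_of_ne hu, sub_self]
  · intro hv
    exact absurd (Finset.mem_univ v) hv

theorem local_sum (G : SimpleGraph V) (h : V → C → ℝ) {f : V → C} (hf : f ∈ PC G C) (v : V) :
    (∑ f' ∈ PC G C, (if (∀ u, u ≠ v → f' u = f u) ∧ f' v ∈ avail G f v then
      1 / ((avail G f v).card : ℝ) else 0) * ((∑ u, h u (f u)) - ∑ u, h u (f' u)) ^ 2) =
      (1 / ((avail G f v).card : ℝ)) * ∑ c ∈ avail G f v, (h v (f v) - h v c) ^ 2 := by
  simp only [ite_mul, zero_mul]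
  rw [← Finset.sum_filter, Finset.mul_sum]
  refine Finset.sum_nbij' (fun f' => f' v) (fun c => Function.update f v c) ?_ ?_ ?_ ?_ ?_
  · intro f' hf'
    exact (Finset.mem_filter.1 hf').2.2
  · intro c hc
    refine Finset.mem_filter.2 ⟨update_mem_PC hf hc, fun u hu => Function.update_of_ne hu _ _, ?_⟩
    rw [Function.update_self]
    exact hc
  · intro f' hf'
    funext u
    by_cases hu : u = v
    · subst hu
      rw [Function.update_self]
    · rw [Function.update_of_ne hu]
      exact ((Finset.mem_filter.1 hf').2.1 u hu).symm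
  · intro c hc
    exact Function.update_self _ _ _
  · intro f' hf'
    have he : f' = Function.update f v (f' v) := by
      funext u
      by_cases hu : u = v
      · subst hu
        rw [Function.update_self]
      · rw [Function.update_of_ne hu]
        exact (Finset.mem_filter.1 hf').2.1 u hu
    congr 2
    have := sum_update_sub h f v (f' v)
    rw [← he] at this
    exact this

/-- For additive `g` the Dirichlet form is a sum of local forms. -/
theorem dirichlet_additive (G : SimpleGraph V) (h : V → C → ℝ) :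
    dirichlet G (fun f : V → C => ∑ v, h v (f v)) =
      (1 / 2) * (1 / ((PC G C).card : ℝ)) * (1 / (Fintype.card V : ℝ)) * ∑ v, ∑ f ∈ PC G C,
        (1 / ((avail G f v).card : ℝ)) * ∑ c ∈ avail G f v, (h v (f v) - h v c) ^ 2 := by
  unfold dirichlet
  have h1 : ∀ f ∈ PC G C, (∑ f' ∈ PC G C, (1 / ((PC G C).card : ℝ)) * glauber G f f' *
      ((∑ u, h u (f u)) - ∑ u, h u (f' u)) ^ 2) =
      (1 / ((PC G C).card : ℝ)) * ((1 / (Fintype.card V : ℝ)) * ∑ v,
        (1 / ((avail G f v).card : ℝ)) * ∑ c ∈ avail G f v, (h v (f v) - h v c) ^ 2) := by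
    intro f hf
    have h2 : ∀ v, (1 / ((avail G f v).card : ℝ)) * ∑ c ∈ avail G f v, (h v (f v) - h v c) ^ 2 =
        ∑ f' ∈ PC G C, (if (∀ u, u ≠ v → f' u = f u) ∧ f' v ∈ avail G f v then
          1 / ((avail G f v).card : ℝ) else 0) * ((∑ u, h u (f u)) - ∑ u, h u (f' u)) ^ 2 :=
      fun v => (local_sum G h hf v).symm
    simp only [h2]
    rw [Finset.sum_comm, Finset.mul_sum, Finset.mul_sum]
    refine Finset.sum_congr rfl fun f' _ => ?_
    unfold glauber
    rw [← Finset.sum_mul]
    ring
  rw [Finset.sum_congr rfl h1, ← Finset.mul_sum, ← Finset.mul_sum, Finset.sum_comm]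
  ring

/-- Adding constants to the `h v` does not change the variance. -/
theorem variance_shift (G : SimpleGraph V) (hne : (PC G C).Nonempty) (h : V → C → ℝ) (k : V → ℝ) :
    variance G (fun f : V → C => ∑ v, (h v (f v) - k v)) =
      variance G (fun f : V → C => ∑ v, h v (f v)) := by
  unfold variance
  have hN : ((PC G C).card : ℝ) ≠ 0 := by
    have := Finset.card_pos.2 hne
    positivity
  simp only [Finset.sum_sub_distrib]
  set K : ℝ := ∑ v, k v with hK
  have h1 : ∑ f ∈ PC G C, ((∑ v, h v (f v)) - K) ^ 2 =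
      (∑ f ∈ PC G C, (∑ v, h v (f v)) ^ 2) - 2 * K * (∑ f ∈ PC G C, ∑ v, h v (f v)) +
        ((PC G C).card : ℝ) * K ^ 2 := by
    rw [Finset.mul_sum, ← Finset.sum_sub_distrib, ← nsmul_eq_mul, ← Finset.sum_const,
      ← Finset.sum_add_distrib]
    refine Finset.sum_congr rfl fun f _ => ?_
    ring
  have h2 : ∑ f ∈ PC G C, K = ((PC G C).card : ℝ) * K := by
    rw [Finset.sum_const, nsmul_eq_mul]
  rw [h1, h2]
  field_simp
  ring

end Pool.Agent.Kempe
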