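import Pool.Agent.Lib.MP_26a019_lc.Defs

open Finset Classical

namespace Pool.Agent.Kempe

variable {V C : Type} [Fintype V]
variable {G : SimpleGraph V} {f : V → C} {W : Finset V} {a b c : C} {u : V}

/-- A vertex with a colour different from `a`, `b` is isolated in `HH G f a b`. -/
private theorem kSets_eq_of_reachable (hfu : f u = c) (hca : c ≠ a) (hcb : c ≠ b) {z : V}
    (h : (HH G f a b).Reachable u z) : z = u := by
  obtain ⟨p⟩ := h
  cases p with
  | nil => rfl
  | cons hadj _ =>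
    exfalso
    rcases hadj.2 with h1 | h1
    · exact hca (hfu.symm.trans h1.1)
    · exact hcb (hfu.symm.trans h1.1)

theorem KK_of_c (hu : u ∉ W) (hfu : f u = c) (hca : c ≠ a) (hcb : c ≠ b) :
    KK G f (insert u W) a b = KK G f W a b := by
  ext z
  simp only [KK, mem_filter, mem_univ, true_and, mem_insert, not_or]
  constructor
  · rintro ⟨⟨hzu, hzW⟩, w, hw, hr⟩
    rcases hw with rfl | hw
    · exact absurd (kSets_eq_of_reachable hfu hca hcb hr.symm) hzu
    · exact ⟨hzW, w, hw, hr⟩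
  · rintro ⟨hzW, w, hw, hr⟩
    refine ⟨⟨?_, hzW⟩, w, Or.inr hw, hr⟩
    rintro rfl
    have h1 := kSets_eq_of_reachable hfu hca hcb hr
    rw [h1] at hw
    exact hu hw

theorem KK_of_b (hu : u ∉ W) (hfu : f u = b) {w : V} (hw : w ∈ W) (hfw : f w = a)
    (hadj : G.Adj u w) : KK G f W a b = insert u (KK G f (insert u W) a b) := by
  have hr0 : (HH G f a b).Reachable u w :=
    SimpleGraph.Adj.reachable (show (HH G f a b).Adj u w from ⟨hadj, Or.inr ⟨hfu, hfw⟩⟩)
  ext z
  simp only [KK, mem_filter, mem_univ, true_and, mem_insert, not_or]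
  constructor
  · rintro ⟨hzW, w', hw', hr⟩
    by_cases hzu : z = u
    · exact Or.inl hzu
    · exact Or.inr ⟨⟨hzu, hzW⟩, w', Or.inr hw', hr⟩
  · rintro (rfl | ⟨⟨_, hzW⟩, w', hw', hr⟩)
    · exact ⟨hu, w, hw, hr0⟩
    · rcases hw' with rfl | hw'
      · exact ⟨hzW, w, hw, hr.trans hr0⟩
      · exact ⟨hzW, w', hw', hr⟩

end Pool.Agent.Kempe
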