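import Pool.Agent.Lib.MP_26a019_lc.Types

/-! Task Many: all colours. -/

open Finset Classical

namespace Pool.Agent.Kempe


variable {V C : Type} [Fintype V]
variable {G : SimpleGraph V} {f : V → C} {W : Finset V} {a b c : C} {u : V}

namespace Many

/-- a reachable pair of different vertices: the first one has the colour `x` or `y`. -/
theorem colour_of_reachable {x y : C} {z w : V} (h : (HH G f x y).Reachable z w) (hzw : z ≠ w) :
    f z = x ∨ f z = y := by
  obtain ⟨p⟩ := h
  cases p with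
  | nil => exact absurd rfl hzw
  | cons hadj _ =>
    rcases hadj.2 with h | h
    · exact Or.inl h.1
    · exact Or.inr h.1

/-- the pinned vertices together with the vertices of the other colours. -/
noncomputable def W1 (W : Finset V) (a b c : C) (f : V → C) : Finset V :=
  univ.filter (fun z => z ∈ W ∨ (f z ≠ a ∧ f z ≠ b ∧ f z ≠ c))

theorem mem_W1 {z : V} : z ∈ W1 W a b c f ↔ z ∈ W ∨ (f z ≠ a ∧ f z ≠ b ∧ f z ≠ c) := by
  simp [W1]

theorem not_mem_W1 {z : V} : z ∉ W1 W a b c f ↔ z ∉ W ∧ (f z = a ∨ f z = b ∨ f z = c) := by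
  rw [mem_W1]
  tauto

theorem KK_eq : KK G f (W1 W a b c f) a b = KK G f W a b := by
  ext z
  simp only [KK, Finset.mem_filter, Finset.mem_univ, true_and]
  constructor
  · rintro ⟨hz, w, hw, hr⟩
    have hzw : z ≠ w := by
      rintro rfl
      exact hz hw
    refine ⟨(not_mem_W1.1 hz).1, w, ?_, hr⟩
    rcases colour_of_reachable hr.symm hzw.symm with h | h
    · rcases mem_W1.1 hw with h' | h'
      · exact h'
      · exact absurd h h'.1
    · rcases mem_W1.1 hw with h' | h'
      · exact h'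
      · exact absurd h h'.2.1
  · rintro ⟨hz, w, hw, hr⟩
    have hzw : z ≠ w := by
      rintro rfl
      exact hz hw
    refine ⟨?_, w, mem_W1.2 (Or.inl hw), hr⟩
    rw [not_mem_W1]
    refine ⟨hz, ?_⟩
    rcases colour_of_reachable hr hzw with h | h
    · exact Or.inl h
    · exact Or.inr (Or.inl h)

theorem ecross_eq : ecross G f (W1 W a b c f) a b c = ecross G f W a b c := by
  unfold ecross
  congr 1
  ext x
  simp only [Finset.mem_filter, Finset.mem_univ, true_and]
  rw [mem_W1, not_mem_W1]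
  constructor
  · rintro ⟨h1, h2, ⟨h3, -⟩, h4, h5⟩
    refine ⟨?_, h2, h3, h4, h5⟩
    rcases h1 with h1 | h1
    · exact h1
    · rcases h2 with h2 | h2
      · exact absurd h2 h1.1
      · exact absurd h2 h1.2.1
  · rintro ⟨h1, h2, h3, h4, h5⟩
    exact ⟨Or.inl h1, h2, ⟨h3, Or.inr (Or.inr h4)⟩, h4, h5⟩

/-- the visible part of a colouring. -/
noncomputable def vis (W : Finset V) (a b c : C) (f : V → C) : V → Option C :=
  fun z => if z ∈ W1 W a b c f then some (f z) else none

theorem vis_eq_iff {f g : V → C} : vis W a b c f = vis W a b c g ↔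
    ∀ z, (z ∈ W1 W a b c f ↔ z ∈ W1 W a b c g) ∧ (z ∈ W1 W a b c g → f z = g z) := by
  constructor
  · intro h z
    have hz := congrFun h z
    simp only [vis] at hz
    by_cases h1 : z ∈ W1 W a b c f
    · by_cases h2 : z ∈ W1 W a b c g
      · rw [if_pos h1, if_pos h2] at hz
        exact ⟨⟨fun _ => h2, fun _ => h1⟩, fun _ => Option.some.inj hz⟩
      · rw [if_pos h1, if_neg h2] at hz
        exact absurd hz (by simp)
    · by_cases h2 : z ∈ W1 W a b c g
      · rw [if_neg h1, if_pos h2] at hz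
        exact absurd hz (by simp)
      · exact ⟨⟨fun h => absurd h h1, fun h => absurd h h2⟩, fun h => absurd h h2⟩
  · intro h
    funext z
    simp only [vis]
    by_cases h2 : z ∈ W1 W a b c g
    · rw [if_pos h2, if_pos ((h z).1.2 h2), (h z).2 h2]
    · rw [if_neg h2, if_neg (fun h1 => h2 ((h z).1.1 h1))]

variable [Fintype C]

theorem fiber_eq (p : V → C) {f0 : V → C} (hf0 : f0 ∈ Om G W p) :
    (Om G W p).filter (fun f => vis W a b c f = vis W a b c f0) =
      Om3 G (W1 W a b c f0) f0 a b c := by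
  have hf0' : Proper G f0 ∧ (∀ z ∈ W, f0 z = p z) := by
    simpa [Om] using hf0
  ext f
  simp only [Om, Om3, Finset.mem_filter, Finset.mem_univ, true_and]
  rw [vis_eq_iff]
  constructor
  · rintro ⟨⟨hp, hW⟩, hv⟩
    refine ⟨hp, fun z hz => (hv z).2 hz, fun z hz => ?_⟩
    have : z ∉ W1 W a b c f := fun h => hz ((hv z).1.1 h)
    exact (not_mem_W1.1 this).2
  · rintro ⟨hp, h1, h2⟩
    refine ⟨⟨hp, fun z hz => ?_⟩, fun z => ⟨⟨fun h => ?_, fun h => ?_⟩, fun h => h1 z h⟩⟩
    · rw [h1 z (mem_W1.2 (Or.inl hz)), hf0'.2 z hz]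
    · by_contra hc
      have h3 := h2 z hc
      have h4 := not_mem_W1.1 hc
      exact not_mem_W1.2 ⟨h4.1, h3⟩ h
    · have h3 := h1 z h
      rcases mem_W1.1 h with h4 | h4
      · exact mem_W1.2 (Or.inl h4)
      · rw [← h3] at h4
        exact mem_W1.2 (Or.inr h4)

end Many

variable [Fintype C]

theorem many_colour (p : V → C) (hab : a ≠ b) (hac : a ≠ c) (hbc : b ≠ c) :
    0 ≤ ∑ f ∈ Om G W p,
      ((∑ z ∈ KK G f W a b, ((cdeg G f c z : ℤ) - 1)) + (ecross G f W a b c : ℤ)) := by
  rw [← Finset.sum_fiberwise_of_maps_to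
    (t := (Om G W p).image (Many.vis W a b c)) (g := Many.vis W a b c)
    (fun f hf => Finset.mem_image_of_mem _ hf)]
  apply Finset.sum_nonneg
  intro y hy
  obtain ⟨f0, hf0, rfl⟩ := Finset.mem_image.1 hy
  have key := three_colour (G := G) (W := Many.W1 W a b c f0) (a := a) (b := b) (c := c)
    f0 hab hac hbc
  rw [← Many.fiber_eq p hf0] at key
  refine le_of_le_of_eq key (Finset.sum_congr rfl ?_)
  intro f hf
  have hv := (Finset.mem_filter.1 hf).2
  have hW : Many.W1 W a b c f0 = Many.W1 W a b c f := by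
    ext z
    exact ((Many.vis_eq_iff.1 hv) z).1.symm
  rw [hW, Many.KK_eq, Many.ecross_eq]

end Pool.Agent.Kempe
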