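import Pool.Agent.Lib.MP_26a019_lc.Edges
import Pool.Agent.Lib.MP_26a019_lc.Many

/-! MP_26a019_lc, module KZero: the (K0) inequality. -/

open Finset Classical

namespace Pool.Agent.Kempe


variable {V C : Type} [Fintype V]
variable {G : SimpleGraph V} {f : V → C} {W : Finset V} {a b c : C} {u : V}
variable [Fintype C]

private theorem sum_cdeg (z : V) : ∑ c : C, (cdeg G f c z : ℤ) = (G.degree z : ℤ) := by
  rw [← Nat.cast_sum]
  congr 1
  unfold cdeg
  rw [← SimpleGraph.card_neighborFinset_eq_degree,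
    Finset.card_eq_sum_card_fiberwise (f := f) (t := (univ : Finset C))
      (fun x _ => Finset.mem_coe.2 (Finset.mem_univ _))]
  apply Finset.sum_congr rfl
  intro c _
  congr 1
  ext w
  simp [SimpleGraph.mem_neighborFinset]

private theorem sum_ecross : ∑ c : C, (ecross G f W a b c : ℤ) = (eout G f W a b : ℤ) := by
  rw [← Nat.cast_sum]
  congr 1
  unfold ecross eout
  rw [Finset.card_eq_sum_card_fiberwise (f := fun x : V × V => f x.2) (t := (univ : Finset C))
      (fun x _ => Finset.mem_coe.2 (Finset.mem_univ _))]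
  apply Finset.sum_congr rfl
  intro c _
  congr 1
  ext x
  simp only [Finset.mem_filter, Finset.mem_univ, true_and]
  tauto

private theorem split_sum (hab : a ≠ b) (g : C → ℤ) :
    ∑ c : C, g c = g a + (g b + ∑ c ∈ ((univ : Finset C).erase a).erase b, g c) := by
  rw [← Finset.add_sum_erase univ g (Finset.mem_univ a),
    ← Finset.add_sum_erase (univ.erase a) g (Finset.mem_erase.2 ⟨hab.symm, Finset.mem_univ b⟩)]

private theorem pairs_le (f : V → C) :
    (univ.filter (fun x : V × V => x.1 ∈ W ∧ (f x.1 = a ∨ f x.1 = b) ∧ x.2 ∉ W ∧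
        (f x.2 = a ∨ f x.2 = b) ∧ G.Adj x.1 x.2)).card ≤
      ecross G f W a b a + ecross G f W a b b := by
  unfold ecross
  refine le_trans (Finset.card_le_card ?_) (Finset.card_union_le _ _)
  intro x hx
  simp only [Finset.mem_filter, Finset.mem_univ, true_and, Finset.mem_union] at hx ⊢
  tauto

private theorem eout_congr (p : V → C) (h : ∀ z ∈ W, f z = p z) :
    eout G f W a b = eout G p W a b := by
  unfold eout
  congr 1
  ext x
  simp only [Finset.mem_filter, Finset.mem_univ, true_and]
  constructor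
  · rintro ⟨h1, h2, h3⟩
    rw [h _ h1] at h2
    exact ⟨h1, h2, h3⟩
  · rintro ⟨h1, h2, h3⟩
    rw [← h _ h1] at h2
    exact ⟨h1, h2, h3⟩

/-- the pointwise inequality -/
private theorem pointwise (p : V → C) (hab : a ≠ b) (hf : Proper G f) (h : ∀ z ∈ W, f z = p z) :
    (∑ z ∈ KK G f W a b, ((Fintype.card C : ℤ) - (G.degree z : ℤ))) +
      ∑ c ∈ ((univ : Finset C).erase a).erase b,
        ((∑ z ∈ KK G f W a b, ((cdeg G f c z : ℤ) - 1)) + (ecross G f W a b c : ℤ)) ≤
      (eout G p W a b : ℤ) := by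
  have h1 := KK_edges (W := W) (f := f) (G := G) hab hf
  have h2 := pairs_le (G := G) (W := W) (a := a) (b := b) f
  have h3 := split_sum hab (fun c => (ecross G f W a b c : ℤ))
  rw [sum_ecross, eout_congr p h] at h3
  have hT : ((((univ : Finset C).erase a).erase b).card : ℤ) = (Fintype.card C : ℤ) - 2 := by
    have e := split_sum hab (fun _ : C => (1 : ℤ))
    simp only [Finset.sum_const, nsmul_eq_mul, mul_one, Finset.card_univ] at e
    linarith
  have h4 : ∀ z : V, ((Fintype.card C : ℤ) - (G.degree z : ℤ)) +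
      ∑ c ∈ ((univ : Finset C).erase a).erase b, ((cdeg G f c z : ℤ) - 1) =
        2 - ((cdeg G f a z : ℤ) + (cdeg G f b z : ℤ)) := by
    intro z
    have e := split_sum hab (fun c => (cdeg G f c z : ℤ))
    rw [sum_cdeg] at e
    rw [Finset.sum_sub_distrib, Finset.sum_const, nsmul_eq_mul, mul_one, hT]
    linarith
  have h5 : (∑ z ∈ KK G f W a b, ((Fintype.card C : ℤ) - (G.degree z : ℤ))) +
      ∑ c ∈ ((univ : Finset C).erase a).erase b,
        (∑ z ∈ KK G f W a b, ((cdeg G f c z : ℤ) - 1)) =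
      ∑ z ∈ KK G f W a b, (2 - ((cdeg G f a z : ℤ) + (cdeg G f b z : ℤ))) := by
    rw [Finset.sum_comm, ← Finset.sum_add_distrib]
    exact Finset.sum_congr rfl (fun z _ => h4 z)
  rw [Finset.sum_add_distrib, ← add_assoc, h5, Finset.sum_sub_distrib, Finset.sum_const,
    nsmul_eq_mul]
  have h1' : 2 * ((KK G f W a b).card : ℤ) ≤
      (∑ z ∈ KK G f W a b, ((cdeg G f a z : ℤ) + (cdeg G f b z : ℤ))) +
      ((ecross G f W a b a : ℤ) + (ecross G f W a b b : ℤ)) := by
    have := le_trans h1 (Nat.add_le_add_left h2 _)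
    exact_mod_cast this
  linarith

/-- (K0): expected weighted size of the attached Kempe components. -/
theorem kzero (p : V → C) (hab : a ≠ b) :
    ∑ f ∈ Om G W p, ∑ z ∈ KK G f W a b, ((Fintype.card C : ℤ) - (G.degree z : ℤ)) ≤
      (eout G p W a b : ℤ) * ((Om G W p).card : ℤ) := by
  have h1 : 0 ≤ ∑ c ∈ ((univ : Finset C).erase a).erase b, ∑ f ∈ Om G W p,
      ((∑ z ∈ KK G f W a b, ((cdeg G f c z : ℤ) - 1)) + (ecross G f W a b c : ℤ)) := by
    apply Finset.sum_nonneg
    intro c hc
    rw [Finset.mem_erase, Finset.mem_erase] at hc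
    exact many_colour p hab (Ne.symm hc.2.1) (Ne.symm hc.1)
  rw [Finset.sum_comm] at h1
  have h2 : ∑ f ∈ Om G W p, ((∑ z ∈ KK G f W a b, ((Fintype.card C : ℤ) - (G.degree z : ℤ))) +
      ∑ c ∈ ((univ : Finset C).erase a).erase b,
        ((∑ z ∈ KK G f W a b, ((cdeg G f c z : ℤ) - 1)) + (ecross G f W a b c : ℤ))) ≤
      ∑ f ∈ Om G W p, (eout G p W a b : ℤ) := by
    apply Finset.sum_le_sum
    intro f hf
    simp only [Om, Finset.mem_filter, Finset.mem_univ, true_and] at hf
    exact pointwise p hab hf.1 hf.2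
  rw [Finset.sum_add_distrib, Finset.sum_const, nsmul_eq_mul] at h2
  linarith [mul_comm (eout G p W a b : ℤ) ((Om G W p).card : ℤ)]

private theorem Om_single (v : V) (a : C) :
    Om G {v} (fun _ => a) = univ.filter (fun f : V → C => Proper G f ∧ f v = a) := by
  unfold Om
  ext f
  simp

private theorem eout_single (v : V) (a b : C) :
    eout G (fun _ : V => a) {v} a b ≤ G.degree v := by
  unfold eout
  rw [← SimpleGraph.card_neighborFinset_eq_degree]
  apply Finset.card_le_card_of_injOn Prod.snd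
  · intro x hx
    simp only [Finset.coe_filter, Finset.mem_univ, true_and, Set.mem_ofPred_eq,
      Finset.mem_singleton] at hx
    rw [Finset.mem_coe, SimpleGraph.mem_neighborFinset]
    obtain ⟨h1, _, _, h2⟩ := hx
    rw [h1] at h2
    exact h2
  · intro x hx y hy hxy
    simp only [Finset.coe_filter, Finset.mem_univ, true_and, Set.mem_ofPred_eq,
      Finset.mem_singleton] at hx hy
    exact Prod.ext (hx.1.trans hy.1.symm) hxy

private theorem KK_single (f : V → C) (v : V) (a b : C) :
    KK G f {v} a b = (KC G f a b v).erase v := by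
  unfold KK KC
  ext z
  simp only [Finset.mem_filter, Finset.mem_univ, true_and, Finset.mem_singleton, Finset.mem_erase,
    exists_eq_left]
  constructor
  · rintro ⟨h1, h2⟩; exact ⟨h1, h2.symm⟩
  · rintro ⟨h1, h2⟩; exact ⟨h1, h2.symm⟩

theorem ksingle (v : V) (hab : a ≠ b) :
    ∑ f ∈ (univ.filter (fun f : V → C => Proper G f ∧ f v = a)), ∑ z ∈ KC G f a b v,
      ((Fintype.card C : ℤ) - (G.degree z : ℤ)) ≤
      (Fintype.card C : ℤ) * ((univ.filter (fun f : V → C => Proper G f ∧ f v = a)).card : ℤ) := by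
  have h := kzero (G := G) (W := {v}) (fun _ => a) hab
  rw [Om_single] at h
  have h1 : ∀ f : V → C, ∑ z ∈ KC G f a b v, ((Fintype.card C : ℤ) - (G.degree z : ℤ)) =
      ((Fintype.card C : ℤ) - (G.degree v : ℤ)) +
        ∑ z ∈ KK G f {v} a b, ((Fintype.card C : ℤ) - (G.degree z : ℤ)) := by
    intro f
    rw [KK_single]
    have hv : v ∈ KC G f a b v := by
      unfold KC
      simp
    exact (Finset.add_sum_erase (KC G f a b v)
      (fun z => ((Fintype.card C : ℤ) - (G.degree z : ℤ))) hv).symm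
  rw [Finset.sum_congr rfl (fun f _ => h1 f), Finset.sum_add_distrib, Finset.sum_const,
    nsmul_eq_mul]
  have h2 : (eout G (fun _ : V => a) {v} a b : ℤ) ≤ (G.degree v : ℤ) := by
    exact_mod_cast eout_single v a b
  have h3 : (0 : ℤ) ≤ ((univ.filter (fun f : V → C => Proper G f ∧ f v = a)).card : ℤ) := by
    positivity
  nlinarith [mul_le_mul_of_nonneg_right h2 h3]

end Pool.Agent.Kempe
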