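import Pool.Agent.Lib.MP_26a019_lc.Swap
import Pool.Agent.Lib.MP_26a019_lc.Sym

/-!
The cluster bound implies the second moment bound for additive functions of a colouring.
-/

open Finset Classical

namespace Pool.Agent.Kempe

variable {V C : Type} [Fintype V] [Fintype C]

omit [Fintype V] [Fintype C] in
theorem la_HH_comm (G : SimpleGraph V) (f : V → C) (a b : C) : HH G f a b = HH G f b a := by
  ext u w
  simp only [HH]
  tauto

omit [Fintype V] [Fintype C] in
theorem la_reach_colour {G : SimpleGraph V} {f : V → C} {a b : C} {v w : V}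
    (h : (HH G f a b).Reachable v w) (hne : v ≠ w) : f v = a ∨ f v = b := by
  obtain ⟨p⟩ := h
  cases p with
  | nil => exact absurd rfl hne
  | cons h _ =>
    rcases h.2 with h1 | h1
    · exact Or.inl h1.1
    · exact Or.inr h1.1

theorem la_sum_kswap (G : SimpleGraph V) (v : V) {a b : C} (hab : a ≠ b) (F : (V → C) → ℝ) :
    ∑ f ∈ univ.filter (fun f : V → C => Proper G f ∧ f v = b), F f =
      ∑ f ∈ univ.filter (fun f : V → C => Proper G f ∧ f v = a), F (kswap G f a b v) := by
  symm
  refine Finset.sum_bij' (fun f _ => kswap G f a b v) (fun f _ => kswap G f a b v) ?_ ?_ ?_ ?_ ?_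
  · intro f hf
    rw [mem_filter] at hf ⊢
    refine ⟨mem_univ _, kswap_proper hab hf.2.1 (Or.inl hf.2.2), ?_⟩
    simp only [kswap]
    rw [if_pos (SimpleGraph.Reachable.refl v), if_pos hf.2.2]
  · intro f hf
    rw [mem_filter] at hf ⊢
    refine ⟨mem_univ _, kswap_proper hab hf.2.1 (Or.inr hf.2.2), ?_⟩
    simp only [kswap]
    rw [if_pos (SimpleGraph.Reachable.refl v), if_neg]
    rw [hf.2.2]
    exact hab.symm
  · intro f hf
    rw [mem_filter] at hf
    exact kswap_kswap hab hf.2.1 (Or.inl hf.2.2)
  · intro f hf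
    rw [mem_filter] at hf
    exact kswap_kswap hab hf.2.1 (Or.inr hf.2.2)
  · intro f _
    rfl

/-- The contribution of one pair of colours and one colouring. -/
theorem la_term_le (G : SimpleGraph V) (hdeg : ∀ v, G.degree v < Fintype.card C)
    (h : V → C → ℝ) (v : V) (a b : C) (f : V → C) (hfv : f v = a) :
    ((∑ w, h w (f w)) - (∑ w, h w (kswap G f a b v w))) * (h v a - h v b) ≤
      ∑ w, (if (HH G f a b).Reachable v w then
        ((((Fintype.card C : ℝ) - G.degree w) / ((Fintype.card C : ℝ) - G.degree v)) *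
            (h v a - h v b) ^ 2 +
          (((Fintype.card C : ℝ) - G.degree v) / ((Fintype.card C : ℝ) - G.degree w)) *
            (h w a - h w b) ^ 2) / 2 else 0) := by
  rw [← Finset.sum_sub_distrib, Finset.sum_mul]
  apply Finset.sum_le_sum
  intro w _
  have hs : ∀ z : V, (0 : ℝ) < (Fintype.card C : ℝ) - G.degree z := by
    intro z
    have h1 : (G.degree z : ℝ) < Fintype.card C := by exact_mod_cast hdeg z
    linarith
  by_cases hr : (HH G f a b).Reachable v w
  · rw [if_pos hr]
    have hw : f w = a ∨ f w = b := by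
      by_cases hvw : w = v
      · left
        rw [hvw, hfv]
      · exact la_reach_colour hr.symm hvw
    have hk : kswap G f a b v w = if f w = a then b else a := by
      simp only [kswap]
      rw [if_pos hr]
    have hsq : (h w (f w) - h w (kswap G f a b v w)) ^ 2 = (h w a - h w b) ^ 2 := by
      rw [hk]
      rcases hw with hw | hw
      · rw [if_pos hw, hw]
      · by_cases hba : f w = a
        · rw [if_pos hba, hba]
        · rw [if_neg hba, hw]
          ring
    have h1 := hs v
    have h2 := hs w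
    set s := (Fintype.card C : ℝ) - G.degree v
    set t := (Fintype.card C : ℝ) - G.degree w
    set y := h w (f w) - h w (kswap G f a b v w)
    set x := h v a - h v b
    rw [← hsq]
    have h3 : (t / s * x ^ 2 + s / t * y ^ 2) / 2 - y * x = (t * x - s * y) ^ 2 / (2 * s * t) := by
      field_simp
      ring
    have h4 : 0 ≤ (t * x - s * y) ^ 2 / (2 * s * t) := by positivity
    linarith
  · rw [if_neg hr]
    have hk : kswap G f a b v w = f w := by
      simp only [kswap]
      rw [if_neg hr]
    rw [hk, sub_self, zero_mul]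

/-- Symmetry in the two vertices. -/
theorem la_pair_symm (G : SimpleGraph V) (f : V → C) (v w : V) (ψ : C → C → ℝ)
    (hψ : ∀ a b, ψ a b = ψ b a) (h0 : ∀ a, ψ a a = 0) :
    ∑ a, ∑ b, (if f v = a then (if (HH G f a b).Reachable v w then ψ a b else 0) else 0) =
      ∑ a, ∑ b, (if f w = a then (if (HH G f a b).Reachable w v then ψ a b else 0) else 0) := by
  have key : ∀ z : V, 2 * ∑ a, ∑ b, (if f z = a then
      (if (HH G f a b).Reachable v w then ψ a b else 0) else 0) =
      ∑ a, ∑ b, (((if f z = a then (1 : ℝ) else 0) + (if f z = b then (1 : ℝ) else 0)) *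
        (if (HH G f a b).Reachable v w then ψ a b else 0)) := by
    intro z
    have h1 : ∑ a, ∑ b, (if f z = a then
        (if (HH G f a b).Reachable v w then ψ a b else 0) else 0) =
        ∑ a, ∑ b, (if f z = b then (if (HH G f a b).Reachable v w then ψ a b else 0) else 0) := by
      rw [Finset.sum_comm]
      refine Finset.sum_congr rfl fun a _ => Finset.sum_congr rfl fun b _ => ?_
      rw [la_HH_comm G f b a, hψ b a]
    rw [two_mul]
    nth_rewrite 2 [h1]
    rw [← Finset.sum_add_distrib]
    refine Finset.sum_congr rfl fun a _ => ?_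
    rw [← Finset.sum_add_distrib]
    refine Finset.sum_congr rfl fun b _ => ?_
    split_ifs <;> ring
  have hr : ∀ a b, (HH G f a b).Reachable w v ↔ (HH G f a b).Reachable v w :=
    fun a b => ⟨fun h => h.symm, fun h => h.symm⟩
  simp only [hr]
  have h2 : ∑ a, ∑ b, (((if f v = a then (1 : ℝ) else 0) + (if f v = b then (1 : ℝ) else 0)) *
        (if (HH G f a b).Reachable v w then ψ a b else 0)) =
      ∑ a, ∑ b, (((if f w = a then (1 : ℝ) else 0) + (if f w = b then (1 : ℝ) else 0)) *
        (if (HH G f a b).Reachable v w then ψ a b else 0)) := by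
    refine Finset.sum_congr rfl fun a _ => Finset.sum_congr rfl fun b _ => ?_
    by_cases hR : (HH G f a b).Reachable v w
    · rw [if_pos hR]
      by_cases hab : a = b
      · rw [hab, h0, mul_zero, mul_zero]
      by_cases hvw : v = w
      · rw [hvw]
      have e1 : ∀ z : V, (f z = a ∨ f z = b) →
          (if f z = a then (1 : ℝ) else 0) + (if f z = b then (1 : ℝ) else 0) = 1 := by
        intro z hz
        rcases hz with hz | hz
        · rw [if_pos hz, if_neg (by rw [hz]; exact hab), add_zero]
        · rw [if_pos hz, if_neg (by rw [hz]; exact fun h => hab h.symm), zero_add]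
      rw [e1 v (la_reach_colour hR hvw), e1 w (la_reach_colour hR.symm (fun h => hvw h.symm))]
    · rw [if_neg hR, mul_zero, mul_zero]
  have h3 := key v
  have h4 := key w
  linarith

/-- The cluster bound (which is `ksingle`) implies the second moment bound. The component of `v`
for the colours `a`, `b` is written out. -/
theorem second_moment (G : SimpleGraph V) (hdeg : ∀ v, G.degree v < Fintype.card C)
    (hcl : ∀ (v : V) (a b : C), a ≠ b →
      ∑ f ∈ (univ.filter (fun f : V → C => Proper G f ∧ f v = a)),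
        ∑ z ∈ univ.filter (fun z => (HH G f a b).Reachable v z),
          ((Fintype.card C : ℤ) - (G.degree z : ℤ)) ≤
      (Fintype.card C : ℤ) *
        ((univ.filter (fun f : V → C => Proper G f ∧ f v = a)).card : ℤ))
    (h : V → C → ℝ) (h0 : ∀ v, ∑ c, h v c = 0) :
    ∑ f ∈ PC G C, (∑ v, h v (f v)) ^ 2 ≤
      ((PC G C).card : ℝ) * ∑ v, (∑ c, h v c ^ 2) / ((Fintype.card C : ℝ) - G.degree v) := by
  by_cases hq0 : Fintype.card C = 0
  · have : IsEmpty V := ⟨fun v => by
      have := hdeg v
      omega⟩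
    simp
  have hq : (0 : ℝ) < Fintype.card C := by
    exact_mod_cast Nat.pos_of_ne_zero hq0
  set q : ℝ := (Fintype.card C : ℝ) with hqdef
  set N : ℝ := ((PC G C).card : ℝ) with hN
  let P : V → C → Finset (V → C) := fun v a => univ.filter (fun f : V → C => Proper G f ∧ f v = a)
  let s : V → ℝ := fun v => q - G.degree v
  have hs : ∀ z : V, (0 : ℝ) < s z := by
    intro z
    have h1 : (G.degree z : ℝ) < q := by
      rw [hqdef]
      exact_mod_cast hdeg z
    change 0 < q - G.degree z
    linarith
  let g : (V → C) → ℝ := fun f => ∑ w, h w (f w)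
  -- splitting by the colour of a vertex
  have hsplit : ∀ (v : V) (F : (V → C) → C → ℝ),
      ∑ f ∈ PC G C, F f (f v) = ∑ a, ∑ f ∈ P v a, F f a := by
    intro v F
    rw [← Finset.sum_fiberwise (PC G C) (fun f => f v)]
    refine Finset.sum_congr rfl fun a _ => ?_
    have h1 : (PC G C).filter (fun f => f v = a) = P v a := by
      ext f
      simp [PC, P]
    rw [h1]
    refine Finset.sum_congr rfl fun f hf => ?_
    have h2 : f v = a := (mem_filter.1 hf).2.2
    rw [h2]
  have hcard : ∀ v a, q * ((P v a).card : ℝ) = N := by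
    intro v a
    have h1 := card_mul (C := C) G v a
    have h2 : (PC G C).filter (fun f => f v = a) = P v a := by
      ext f
      simp [PC, P]
    rw [h2] at h1
    rw [hqdef, hN]
    exact_mod_cast h1
  -- step 1
  have step1 : q * ∑ f ∈ PC G C, (g f) ^ 2 =
      ∑ v, ∑ a, ∑ b, ∑ f ∈ P v a, g f * (h v a - h v b) := by
    have h1 : ∀ f : V → C, q * (g f) ^ 2 = ∑ v, ∑ b, g f * (h v (f v) - h v b) := by
      intro f
      have h2 : ∀ v, ∑ b, g f * (h v (f v) - h v b) = q * (g f * h v (f v)) := by
        intro v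
        rw [← Finset.mul_sum, Finset.sum_sub_distrib, h0, Finset.sum_const, sub_zero,
          nsmul_eq_mul, Finset.card_univ]
        ring
      rw [Finset.sum_congr rfl (fun v _ => h2 v), ← Finset.mul_sum, ← Finset.mul_sum, sq]
    rw [Finset.mul_sum, Finset.sum_congr rfl (fun f _ => h1 f), Finset.sum_comm]
    refine Finset.sum_congr rfl fun v _ => ?_
    rw [hsplit v (fun f a => ∑ b, g f * (h v a - h v b))]
    refine Finset.sum_congr rfl fun a _ => ?_
    rw [Finset.sum_comm]
  -- step 2
  have step2 : ∀ v, 2 * ∑ a, ∑ b, ∑ f ∈ P v a, g f * (h v a - h v b) =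
      ∑ a, ∑ b, ∑ f ∈ P v a, (g f - g (kswap G f a b v)) * (h v a - h v b) := by
    intro v
    have h1 : ∑ a, ∑ b, ∑ f ∈ P v a, g f * (h v a - h v b) =
        ∑ a, ∑ b, ∑ f ∈ P v a, g (kswap G f a b v) * (h v b - h v a) := by
      rw [Finset.sum_comm]
      refine Finset.sum_congr rfl fun a _ => Finset.sum_congr rfl fun b _ => ?_
      by_cases hab : a = b
      · rw [hab]
        simp
      · exact la_sum_kswap G v hab (fun f => g f * (h v b - h v a))
    rw [two_mul]
    nth_rewrite 2 [h1]
    rw [← Finset.sum_add_distrib]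
    refine Finset.sum_congr rfl fun a _ => ?_
    rw [← Finset.sum_add_distrib]
    refine Finset.sum_congr rfl fun b _ => ?_
    rw [← Finset.sum_add_distrib]
    refine Finset.sum_congr rfl fun f _ => ?_
    ring
  -- step 3
  let X : V → C → C → (V → C) → V → ℝ := fun v a b f w =>
    if (HH G f a b).Reachable v w then s w / s v * (h v a - h v b) ^ 2 else 0
  let Y : V → C → C → (V → C) → V → ℝ := fun v a b f w =>
    if (HH G f a b).Reachable v w then s v / s w * (h w a - h w b) ^ 2 else 0
  have step3 : ∀ v, ∑ a, ∑ b, ∑ f ∈ P v a, (g f - g (kswap G f a b v)) * (h v a - h v b) ≤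
      (∑ a, ∑ b, ∑ f ∈ P v a, ∑ w, X v a b f w + ∑ a, ∑ b, ∑ f ∈ P v a, ∑ w, Y v a b f w) / 2 := by
    intro v
    rw [← Finset.sum_add_distrib, Finset.sum_div]
    refine Finset.sum_le_sum fun a _ => ?_
    rw [← Finset.sum_add_distrib, Finset.sum_div]
    refine Finset.sum_le_sum fun b _ => ?_
    rw [← Finset.sum_add_distrib, Finset.sum_div]
    refine Finset.sum_le_sum fun f hf => ?_
    have hfv : f v = a := (mem_filter.1 hf).2.2
    refine (la_term_le G hdeg h v a b f hfv).trans (le_of_eq ?_)
    rw [← Finset.sum_add_distrib, Finset.sum_div]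
    refine Finset.sum_congr rfl fun w _ => ?_
    simp only [X, Y, s]
    split_ifs
    · rfl
    · simp
  -- step 4
  have hXY : ∑ v, ∑ a, ∑ b, ∑ f ∈ P v a, ∑ w, Y v a b f w =
      ∑ v, ∑ a, ∑ b, ∑ f ∈ P v a, ∑ w, X v a b f w := by
    have hform : ∀ (Z : V → C → C → (V → C) → V → ℝ),
        ∑ v, ∑ a, ∑ b, ∑ f ∈ P v a, ∑ w, Z v a b f w =
        ∑ f ∈ PC G C, ∑ v, ∑ w, ∑ a, ∑ b, (if f v = a then Z v a b f w else 0) := by
      intro Z
      rw [Finset.sum_comm (s := PC G C)]
      refine Finset.sum_congr rfl fun v _ => ?_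
      have h1 : ∑ a, ∑ b, ∑ f ∈ P v a, ∑ w, Z v a b f w =
          ∑ a, ∑ f ∈ P v a, ∑ b, ∑ w, Z v a b f w :=
        Finset.sum_congr rfl fun a _ => Finset.sum_comm
      rw [h1, ← hsplit v (fun f a => ∑ b, ∑ w, Z v a b f w)]
      refine Finset.sum_congr rfl fun f _ => ?_
      rw [Finset.sum_comm]
      refine Finset.sum_congr rfl fun w _ => ?_
      rw [Finset.sum_comm]
      refine Finset.sum_congr rfl fun b _ => ?_
      rw [Finset.sum_ite_eq]
      simp
    rw [hform Y, hform X]
    refine Finset.sum_congr rfl fun f _ => ?_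
    conv_rhs => rw [Finset.sum_comm]
    refine Finset.sum_congr rfl fun v _ => Finset.sum_congr rfl fun w _ => ?_
    have h1 := la_pair_symm G f v w (fun a b => s v / s w * (h w a - h w b) ^ 2)
      (fun a b => by ring) (fun a => by ring)
    exact h1
  -- step 5
  have step5 : ∀ v, ∑ a, ∑ b, ∑ f ∈ P v a, ∑ w, X v a b f w ≤
      N * ((∑ a, ∑ b, (h v a - h v b) ^ 2) / s v) := by
    intro v
    rw [Finset.sum_div, Finset.mul_sum]
    refine Finset.sum_le_sum fun a _ => ?_
    rw [Finset.sum_div, Finset.mul_sum]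
    refine Finset.sum_le_sum fun b _ => ?_
    by_cases hab : a = b
    · rw [hab]
      simp [X]
    have h1 : ∑ f ∈ P v a, ∑ w, X v a b f w = (h v a - h v b) ^ 2 / s v *
        ∑ f ∈ P v a, ∑ z ∈ univ.filter (fun z => (HH G f a b).Reachable v z), s z := by
      rw [Finset.mul_sum]
      refine Finset.sum_congr rfl fun f _ => ?_
      rw [Finset.sum_filter, Finset.mul_sum]
      refine Finset.sum_congr rfl fun w _ => ?_
      simp only [X]
      split_ifs
      · ring
      · ring
    have h2 : ∑ f ∈ P v a, ∑ z ∈ univ.filter (fun z => (HH G f a b).Reachable v z), s z ≤ N := by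
      rw [← hcard v a]
      have h3 := hcl v a b hab
      have h4 : (((∑ f ∈ (univ.filter (fun f : V → C => Proper G f ∧ f v = a)),
        ∑ z ∈ univ.filter (fun z => (HH G f a b).Reachable v z),
          ((Fintype.card C : ℤ) - (G.degree z : ℤ)) : ℤ)) : ℝ) ≤ (((Fintype.card C : ℤ) *
        ((univ.filter (fun f : V → C => Proper G f ∧ f v = a)).card : ℤ) : ℤ) : ℝ) := by
        exact_mod_cast h3
      push_cast at h4
      exact h4
    rw [h1]
    have h3 : 0 ≤ (h v a - h v b) ^ 2 / s v := div_nonneg (sq_nonneg _) (hs v).le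
    calc _ ≤ (h v a - h v b) ^ 2 / s v * N := mul_le_mul_of_nonneg_left h2 h3
      _ = N * ((h v a - h v b) ^ 2 / s v) := by ring
  -- step 7
  have step7 : ∀ v, ∑ a, ∑ b, (h v a - h v b) ^ 2 = 2 * q * ∑ c, h v c ^ 2 := by
    intro v
    have h1 : ∀ a b, (h v a - h v b) ^ 2 = h v a ^ 2 + h v b ^ 2 - 2 * (h v a * h v b) := by
      intro a b
      ring
    simp only [h1, Finset.sum_sub_distrib, Finset.sum_add_distrib, Finset.sum_const,
      Finset.card_univ, nsmul_eq_mul, ← Finset.mul_sum, h0, mul_zero, sub_zero]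
    ring
  have hfin : q * ∑ f ∈ PC G C, (g f) ^ 2 ≤ q * (N * ∑ v, (∑ c, h v c ^ 2) / s v) := by
    have e1 : 2 * (q * ∑ f ∈ PC G C, (g f) ^ 2) ≤
        ∑ v, ∑ a, ∑ b, ∑ f ∈ P v a, ∑ w, X v a b f w := by
      rw [step1, Finset.mul_sum, Finset.sum_congr rfl (fun v _ => step2 v)]
      refine (Finset.sum_le_sum fun v _ => step3 v).trans (le_of_eq ?_)
      rw [← Finset.sum_div, Finset.sum_add_distrib, hXY]
      ring
    have e2 := e1.trans (Finset.sum_le_sum fun v _ => step5 v)
    have e3 : ∑ v, N * ((∑ a, ∑ b, (h v a - h v b) ^ 2) / s v) =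
        2 * (q * (N * ∑ v, (∑ c, h v c ^ 2) / s v)) := by
      rw [Finset.mul_sum, Finset.mul_sum, Finset.mul_sum]
      refine Finset.sum_congr rfl fun v _ => ?_
      rw [step7]
      ring
    rw [e3] at e2
    linarith
  exact le_of_mul_le_mul_left hfin hq

end Pool.Agent.Kempe
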