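import Pool.Agent.Lib.MP_26a019_lc.Step
import Pool.Agent.Lib.MP_26a019_lc.Base
import Pool.Agent.Lib.MP_26a019_lc.Swap

open Finset Classical

namespace Pool.Agent.Kempe

variable {V C : Type} [Fintype V]
variable {G : SimpleGraph V} {W : Finset V} {a b c : C}
variable [Fintype C]

set_option linter.unusedSectionVars false

private theorem Main_HH_symm (f : V → C) : HH G f a b = HH G f b a := by
  ext u w
  unfold HH
  constructor
  · rintro ⟨h1, h2⟩
    exact ⟨h1, h2.symm⟩
  · rintro ⟨h1, h2⟩
    exact ⟨h1, h2.symm⟩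

theorem Psi_symm (f : V → C) (A : Finset V) (ord : V → ℕ) :
    Psi G f W a b c A ord = Psi G f W b a c (univ \ A) ord := by
  have h1 : KK G f W a b = KK G f W b a := by
    unfold KK
    rw [Main_HH_symm]
  have h2 : (MM G f W c a ord).filter (· ∈ univ \ A) = (MM G f W c a ord).filter (· ∉ A) := by
    refine Finset.filter_congr fun x _ => ?_
    simp
  have h3 : (MM G f W c b ord).filter (· ∉ univ \ A) = (MM G f W c b ord).filter (· ∈ A) := by
    refine Finset.filter_congr fun x _ => ?_
    simp
  unfold Psi
  rw [h1, h2, h3]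
  ring

theorem Om3_symm (p : V → C) : Om3 G W p a b c = Om3 G W p b a c := by
  unfold Om3
  refine Finset.filter_congr fun f _ => ?_
  have h : ∀ z, (f z = a ∨ f z = b ∨ f z = c) ↔ (f z = b ∨ f z = a ∨ f z = c) := fun z => by
    tauto
  simp only [h]

private theorem Main_Om3_filter (p : V → C) {u : V} (hu : u ∉ W) {y : C}
    (hy : y = a ∨ y = b ∨ y = c) :
    (Om3 G W p a b c).filter (fun f => f u = y) =
      Om3 G (insert u W) (Function.update p u y) a b c := by
  ext f
  unfold Om3
  simp only [mem_filter, mem_univ, true_and, mem_insert, not_or]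
  constructor
  · rintro ⟨⟨h1, h2, h3⟩, h4⟩
    refine ⟨h1, ?_, fun z hz => h3 z hz.2⟩
    rintro z (rfl | hz)
    · rw [Function.update_self]
      exact h4
    · have : z ≠ u := fun h => hu (h ▸ hz)
      rw [Function.update_of_ne this]
      exact h2 z hz
  · rintro ⟨h1, h2, h3⟩
    have h4 : f u = y := by
      have := h2 u (Or.inl rfl)
      rwa [Function.update_self] at this
    refine ⟨⟨h1, fun z hz => ?_, fun z hz => ?_⟩, h4⟩
    · have h5 : z ≠ u := fun h => hu (h ▸ hz)
      have := h2 z (Or.inr hz)
      rwa [Function.update_of_ne h5] at this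
    · by_cases hzu : z = u
      · rw [hzu, h4]
        exact hy
      · exact h3 z ⟨hzu, hz⟩

private theorem Main_core (p : V → C) (hab : a ≠ b) (hac : a ≠ c) (hbc : b ≠ c) (A : Finset V)
    (ord : V → ℕ) (hord : Set.InjOn ord (W : Set V)) {u w : V} (hu : u ∉ W) (hw : w ∈ W)
    (hadj : G.Adj u w) (hpw : p w = a)
    (IH : ∀ (p' : V → C) (A' : Finset V) (ord' : V → ℕ),
      Set.InjOn ord' ((insert u W : Finset V) : Set V) →
      0 ≤ ∑ f ∈ Om3 G (insert u W) p' a b c, Psi G f (insert u W) a b c A' ord') :
    0 ≤ ∑ f ∈ Om3 G W p a b c, Psi G f W a b c A ord := by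
  set ord1 : V → ℕ := Function.update ord u (1 + W.sup ord) with hord1
  have ho : ∀ j ∈ W, ord1 j = ord j := fun j hj => by
    have : j ≠ u := fun h => hu (h ▸ hj)
    rw [hord1, Function.update_of_ne this]
  have hbig : ∀ j ∈ W, ord j < ord1 u := fun j hj => by
    rw [hord1, Function.update_self]
    have : ord j ≤ W.sup ord := Finset.le_sup hj
    omega
  have hinj : Set.InjOn ord1 ((insert u W : Finset V) : Set V) := by
    intro x hx y hy hxy
    rw [Finset.mem_coe, mem_insert] at hx hy
    rcases hx with rfl | hx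
    · rcases hy with rfl | hy
      · rfl
      · have h1 := hbig y hy
        rw [ho y hy] at hxy
        omega
    · rcases hy with rfl | hy
      · have h1 := hbig x hx
        rw [ho x hx] at hxy
        omega
      · rw [ho x hx, ho y hy] at hxy
        exact hord hx hy hxy
  have hf : ∀ f ∈ Om3 G W p a b c, f w = a ∧ (f u = b ∨ f u = c) := by
    intro f hf
    unfold Om3 at hf
    rw [mem_filter] at hf
    obtain ⟨_, h1, h2, h3⟩ := hf
    have h4 : f w = a := (h2 w hw).trans hpw
    refine ⟨h4, ?_⟩
    rcases h3 u hu with h5 | h5 | h5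
    · exact absurd (h5.trans h4.symm) (h1 u w hadj)
    · exact Or.inl h5
    · exact Or.inr h5
  have hsplit : ∑ f ∈ Om3 G W p a b c, Psi G f W a b c A ord =
      ∑ f ∈ (Om3 G W p a b c).filter (fun f => f u = b), Psi G f W a b c A ord +
      ∑ f ∈ (Om3 G W p a b c).filter (fun f => f u = c), Psi G f W a b c A ord := by
    rw [← Finset.sum_filter_add_sum_filter_not (Om3 G W p a b c) (fun f => f u = b)]
    congr 1
    refine Finset.sum_congr (Finset.filter_congr fun f hf' => ?_) fun _ _ => rfl
    constructor
    · intro h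
      exact (hf f hf').2.resolve_left h
    · intro h h'
      exact hbc (h'.symm.trans h)
  have hb : ∑ f ∈ (Om3 G W p a b c).filter (fun f => f u = b),
      (Psi G f (insert u W) a b c (insert u A) ord1 - (if Meets G f W c b u then 0 else 1)) ≤
      ∑ f ∈ (Om3 G W p a b c).filter (fun f => f u = b), Psi G f W a b c A ord := by
    refine Finset.sum_le_sum fun f hf' => ?_
    rw [mem_filter] at hf'
    exact Psi_of_b hu hf'.2 hab hac hbc hw (hf f hf'.1).1 hadj ho
  have hc : ∑ f ∈ (Om3 G W p a b c).filter (fun f => f u = c),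
      (Psi G f (insert u W) a b c (insert u A) ord1 + (if Meets G f W c b u then 0 else 1)) ≤
      ∑ f ∈ (Om3 G W p a b c).filter (fun f => f u = c), Psi G f W a b c A ord := by
    refine Finset.sum_le_sum fun f hf' => ?_
    rw [mem_filter] at hf'
    exact Psi_of_c hu hf'.2 hab hac hbc hw (hf f hf'.1).1 hadj ho hbig
  rw [Finset.sum_sub_distrib] at hb
  rw [Finset.sum_add_distrib] at hc
  have hcount : ∀ y : C, ∑ f ∈ (Om3 G W p a b c).filter (fun f => f u = y),
      (if Meets G f W c b u then (0 : ℤ) else 1) =
      ((((Om3 G W p a b c).filter (fun f => f u = y ∧ ¬ Meets G f W c b u)).card : ℕ) : ℤ) := by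
    intro y
    rw [← Finset.filter_filter, Finset.card_filter]
    push_cast
    refine Finset.sum_congr rfl fun f _ => ?_
    by_cases h : Meets G f W c b u
    · simp [h]
    · simp [h]
  have hsw := swap_card (G := G) p hu hab hac hbc
  have hIb := IH (Function.update p u b) (insert u A) ord1 hinj
  have hIc := IH (Function.update p u c) (insert u A) ord1 hinj
  rw [← Main_Om3_filter p hu (Or.inr (Or.inl rfl))] at hIb
  rw [← Main_Om3_filter p hu (Or.inr (Or.inr rfl))] at hIc
  rw [hcount b] at hb
  rw [hcount c] at hc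
  rw [hsplit]
  rw [hsw] at hb
  linarith

/-- **Three colour inequality.** -/
theorem Psi_main (p : V → C) (hab : a ≠ b) (hac : a ≠ c) (hbc : b ≠ c) (A : Finset V)
    (ord : V → ℕ) (hord : Set.InjOn ord (W : Set V)) :
    0 ≤ ∑ f ∈ Om3 G W p a b c, Psi G f W a b c A ord := by
  induction hn : (univ \ W).card using Nat.strong_induction_on generalizing W p a b A ord with
  | _ n ih =>
    by_cases hbase : ∀ u, u ∉ W → ∀ w ∈ W, G.Adj u w → p w ≠ a ∧ p w ≠ b
    · exact Psi_base p hab hac hbc A ord hord hbase
    · push Not at hbase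
      obtain ⟨u, hu, w, hw, hadj, hpw⟩ := hbase
      have hlt : (univ \ (insert u W)).card < n := by
        rw [← hn]
        refine Finset.card_lt_card ?_
        rw [Finset.ssubset_iff_of_subset
          (Finset.sdiff_subset_sdiff (Finset.Subset.refl _) (Finset.subset_insert u W))]
        exact ⟨u, by simp [hu], by simp⟩
      by_cases hpa : p w = a
      · exact Main_core p hab hac hbc A ord hord hu hw hadj hpa
          (fun p' A' ord' ho' => ih _ hlt p' hab hac hbc A' ord' ho' rfl)
      · have hpb : p w = b := hpw hpa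
        have h1 : ∑ f ∈ Om3 G W p a b c, Psi G f W a b c A ord =
            ∑ f ∈ Om3 G W p b a c, Psi G f W b a c (univ \ A) ord := by
          rw [Om3_symm]
          exact Finset.sum_congr rfl fun f _ => Psi_symm f A ord
        rw [h1]
        exact Main_core p hab.symm hbc hac (univ \ A) ord hord hu hw hadj hpb
          (fun p' A' ord' ho' => ih _ hlt p' hab.symm hbc hac A' ord' ho' rfl)

end Pool.Agent.Kempe
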