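import Pool.Agent.Lib.MP_26a019_lc.KZero
import Pool.Agent.Lib.MP_26a019_lc.Sym
import Pool.Agent.Lib.MP_26a019_lc.LinAlg
import Pool.Agent.Lib.MP_26a019_lc.Glauber

open Finset Classical

namespace Pool.Agent.Kempe

variable {V C : Type} [Fintype V] [Fintype C]

theorem sum_sq_diff (h : C → ℝ) (h0 : ∑ c, h c = 0) :
    ∑ x : C, ∑ y : C, (h x - h y) ^ 2 = 2 * (Fintype.card C : ℝ) * ∑ c, h c ^ 2 := by
  have e : ∀ x : C, ∑ y : C, (h x - h y) ^ 2 =
      (Fintype.card C : ℝ) * h x ^ 2 + ∑ c, h c ^ 2 := by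
    intro x
    have : ∀ y, (h x - h y) ^ 2 = h x ^ 2 - 2 * h x * h y + h y ^ 2 := fun y => by ring
    simp_rw [this]
    rw [Finset.sum_add_distrib, Finset.sum_sub_distrib, ← Finset.mul_sum, h0]
    simp [Finset.card_univ]
  simp_rw [e]
  rw [Finset.sum_add_distrib, ← Finset.mul_sum]
  simp [Finset.card_univ]
  ring

theorem poincare_additive (G : SimpleGraph V) (D : ℕ) (hD : ∀ v, G.degree v ≤ D)
    (hq : D + 2 ≤ Fintype.card C) (h : V → C → ℝ) :
    ((Fintype.card C : ℝ) - D - 1) / (((Fintype.card C : ℝ) - 1) * (Fintype.card V : ℝ)) *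
      variance G (fun f : V → C => ∑ v, h v (f v)) ≤
    dirichlet G (fun f : V → C => ∑ v, h v (f v)) := by
  by_cases hne : (PC G C).Nonempty
  swap
  · rw [Finset.not_nonempty_iff_eq_empty] at hne
    simp [variance, dirichlet, hne]
  have hN : (0 : ℝ) < ((PC G C).card : ℝ) := by exact_mod_cast hne.card_pos
  set q : ℝ := (Fintype.card C : ℝ) with hqdef
  have hq2 : (D : ℝ) + 2 ≤ q := by rw [hqdef]; exact_mod_cast hq
  have hD0 : (0 : ℝ) ≤ D := Nat.cast_nonneg _
  have hdv : ∀ v, (G.degree v : ℝ) ≤ D := fun v => by exact_mod_cast hD v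
  -- centre the functions
  set k : V → ℝ := fun v => (∑ c, h v c) / q with hk
  set h' : V → C → ℝ := fun v c => h v c - k v with hh'
  have h0 : ∀ v, ∑ c, h' v c = 0 := by
    intro v
    simp only [hh', Finset.sum_sub_distrib, Finset.sum_const, Finset.card_univ, nsmul_eq_mul, hk]
    have : q ≠ 0 := by linarith
    rw [← hqdef]; field_simp; ring
  have hvar : variance G (fun f : V → C => ∑ v, h v (f v)) ≤
      ∑ v, (∑ c, h' v c ^ 2) / (q - G.degree v) := by
    rw [← variance_shift G hne h k]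
    have h2 := second_moment G (C := C) (fun v => by have := hD v; omega)
      (fun v a b hab => ksingle v hab) h' h0
    unfold variance
    have : 0 ≤ ((∑ f ∈ PC G C, ∑ v, (h v (f v) - k v)) / ((PC G C).card : ℝ)) ^ 2 := sq_nonneg _
    have h3 : (∑ f ∈ PC G C, (∑ v, (h v (f v) - k v)) ^ 2) / ((PC G C).card : ℝ) ≤
        ∑ v, (∑ c, h' v c ^ 2) / (q - G.degree v) := by
      rw [div_le_iff₀ hN, mul_comm]
      exact h2
    linarith
  have hdir : (1 / (Fintype.card V : ℝ)) * ∑ v, ((q - G.degree v - 1) / (q - G.degree v)) *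
      ((∑ c, h' v c ^ 2) / (q - 1)) ≤ dirichlet G (fun f : V → C => ∑ v, h v (f v)) := by
    rw [dirichlet_additive]
    have h4 : ∀ v, ((PC G C).card : ℝ) * (((q - G.degree v - 1) / (q - G.degree v)) *
        (2 * ((∑ c, h' v c ^ 2) / (q - 1)))) ≤
        ∑ f ∈ PC G C, (1 / ((avail G f v).card : ℝ)) *
          ∑ c ∈ avail G f v, (h v (f v) - h v c) ^ 2 := by
      intro v
      have h5 := local_form G (C := C) v (h' v) (by have := hD v; omega)
      have h6 := sum_sq_diff (h' v) (h0 v)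
      rw [h6] at h5
      have hq0 : q ≠ 0 := by linarith
      have hq1 : q - 1 ≠ 0 := by
        have : (1:ℝ) ≤ q - 1 := by linarith
        linarith
      have e1 : 2 * q * (∑ c, h' v c ^ 2) / (q * (q - 1)) = 2 * ((∑ c, h' v c ^ 2) / (q - 1)) := by
        field_simp
      rw [← hqdef, e1] at h5
      have e2 : ∀ f : V → C, ∀ c, (h' v (f v) - h' v c) ^ 2 = (h v (f v) - h v c) ^ 2 := by
        intro f c; simp only [hh']; ring
      simp_rw [e2] at h5
      rw [← mul_assoc]
      exact h5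
    have h7 := Finset.sum_le_sum (fun v (_ : v ∈ (univ : Finset V)) => h4 v)
    have hn : (0:ℝ) ≤ 1 / (Fintype.card V : ℝ) := by positivity
    calc (1 / (Fintype.card V : ℝ)) * ∑ v, ((q - G.degree v - 1) / (q - G.degree v)) *
      ((∑ c, h' v c ^ 2) / (q - 1))
        = (1 / 2) * (1 / ((PC G C).card : ℝ)) * (1 / (Fintype.card V : ℝ)) *
          ∑ v, ((PC G C).card : ℝ) * (((q - G.degree v - 1) / (q - G.degree v)) *
        (2 * ((∑ c, h' v c ^ 2) / (q - 1)))) := by
          rw [Finset.mul_sum, Finset.mul_sum]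
          refine Finset.sum_congr rfl fun v _ => ?_
          field_simp
      _ ≤ _ := by
          refine mul_le_mul_of_nonneg_left h7 ?_
          positivity
  refine le_trans ?_ hdir
  have hc : 0 ≤ (q - D - 1) / ((q - 1) * (Fintype.card V : ℝ)) := by
    apply div_nonneg (by linarith)
    apply mul_nonneg (by linarith) (Nat.cast_nonneg _)
  refine le_trans (mul_le_mul_of_nonneg_left hvar hc) ?_
  rw [Finset.mul_sum, Finset.mul_sum]
  refine Finset.sum_le_sum fun v _ => ?_
  have hs : 0 < q - G.degree v := by have := hdv v; linarith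
  have hA : 0 ≤ ∑ c, h' v c ^ 2 := Finset.sum_nonneg fun c _ => sq_nonneg _
  have hq1 : 0 < q - 1 := by linarith
  have e3 : (q - D - 1) / ((q - 1) * (Fintype.card V : ℝ)) * ((∑ c, h' v c ^ 2) / (q - G.degree v))
      = (q - D - 1) * ((1 / (Fintype.card V : ℝ)) * ((∑ c, h' v c ^ 2) / ((q - 1) * (q - G.degree v)))) := by
    rw [div_mul_div_comm, div_mul_div_comm, mul_div_assoc']
    congr 1
    · ring
    · ring
  have e4 : 1 / (Fintype.card V : ℝ) * ((q - G.degree v - 1) / (q - G.degree v) *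
      ((∑ c, h' v c ^ 2) / (q - 1))) = (q - G.degree v - 1) * ((1 / (Fintype.card V : ℝ)) *
        ((∑ c, h' v c ^ 2) / ((q - 1) * (q - G.degree v)))) := by
    field_simp
  rw [e3, e4]
  apply mul_le_mul_of_nonneg_right
  · have := hdv v; linarith
  · positivity

end Pool.Agent.Kempe
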