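import Pool.Agent.Lib.MP_26a019_lc.Defs

/-! MP_26a019_lc, module SideA: the vertex `u` gets the colour `b`. -/

open Finset Classical

namespace Pool.Agent.Kempe

variable {V C : Type} [Fintype V]
variable {G : SimpleGraph V} {f : V → C} {W : Finset V} {a b c : C} {u : V}

theorem Gam_a_of_b (hfu : f u = b) (hab : a ≠ b) : Gam G f (insert u W) c a = Gam G f W c a := by
  have key : ∀ x : V, f x = a → (x ∉ insert u W ↔ x ∉ W) := by
    intro x hx
    rw [Finset.mem_insert, not_or]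
    refine ⟨fun h => h.2, fun h => ⟨?_, h⟩⟩
    rintro rfl
    exact hab (hx.symm.trans hfu)
  ext x y
  simp only [Gam]
  constructor
  · rintro ⟨h, h1 | h1⟩
    · exact ⟨h, Or.inl ⟨h1.1, h1.2.1, (key x h1.1).1 h1.2.2⟩⟩
    · exact ⟨h, Or.inr ⟨h1.1, h1.2.1, (key y h1.1).1 h1.2.2⟩⟩
  · rintro ⟨h, h1 | h1⟩
    · exact ⟨h, Or.inl ⟨h1.1, h1.2.1, (key x h1.1).2 h1.2.2⟩⟩
    · exact ⟨h, Or.inr ⟨h1.1, h1.2.1, (key y h1.1).2 h1.2.2⟩⟩

private theorem SS_a_of_b (hfu : f u = b) (hab : a ≠ b) (hbc : b ≠ c) :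
    SS G f (insert u W) c a = SS G f W c a := by
  ext z
  simp only [SS, Finset.mem_filter, Finset.mem_univ, true_and]
  constructor
  · rintro ⟨hz, h | ⟨w, hw, hfw, hadj⟩⟩
    · rcases Finset.mem_insert.1 h with rfl | h
      · exact absurd (hfu.symm.trans hz) hbc
      · exact ⟨hz, Or.inl h⟩
    · rcases Finset.mem_insert.1 hw with rfl | hw
      · exact absurd (hfw.symm.trans hfu) hab
      · exact ⟨hz, Or.inr ⟨w, hw, hfw, hadj⟩⟩
  · rintro ⟨hz, h | ⟨w, hw, hfw, hadj⟩⟩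
    · exact ⟨hz, Or.inl (Finset.mem_insert_of_mem h)⟩
    · exact ⟨hz, Or.inr ⟨w, Finset.mem_insert_of_mem hw, hfw, hadj⟩⟩

theorem NN_a_of_b (hfu : f u = b) (hab : a ≠ b) (hbc : b ≠ c) :
    NN G f (insert u W) c a = NN G f W c a := by
  unfold NN
  rw [SS_a_of_b hfu hab hbc, Gam_a_of_b hfu hab]

theorem MM_a_of_b (hu : u ∉ W) (hfu : f u = b) (hab : a ≠ b) (hbc : b ≠ c) {ord ord' : V → ℕ}
    (ho : ∀ j ∈ W, ord' j = ord j) : MM G f (insert u W) c a ord' = MM G f W c a ord := by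
  ext i
  simp only [MM, Finset.mem_filter]
  rw [Gam_a_of_b hfu hab]
  constructor
  · rintro ⟨hi, hfi, h⟩
    have hiW : i ∈ W := by
      rcases Finset.mem_insert.1 hi with rfl | h'
      · exact absurd (hfu.symm.trans hfi) hbc
      · exact h'
    refine ⟨hiW, hfi, fun j hj hfj hr => ?_⟩
    rw [← ho i hiW, ← ho j hj]
    exact h j (Finset.mem_insert_of_mem hj) hfj hr
  · rintro ⟨hi, hfi, h⟩
    refine ⟨Finset.mem_insert_of_mem hi, hfi, fun j hj hfj hr => ?_⟩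
    rcases Finset.mem_insert.1 hj with rfl | hj
    · exact absurd (hfu.symm.trans hfj) hbc
    · rw [ho i hi, ho j hj]
      exact h j hj hfj hr

theorem MM_b_of_b (hu : u ∉ W) (hfu : f u = b) (hbc : b ≠ c) {ord ord' : V → ℕ}
    (ho : ∀ j ∈ W, ord' j = ord j) : MM G f W c b ord ⊆ MM G f (insert u W) c b ord' := by
  have hle : Gam G f (insert u W) c b ≤ Gam G f W c b := by
    intro x y hxy
    obtain ⟨h, h1 | h1⟩ := hxy
    · exact ⟨h, Or.inl ⟨h1.1, h1.2.1, fun hx => h1.2.2 (Finset.mem_insert_of_mem hx)⟩⟩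
    · exact ⟨h, Or.inr ⟨h1.1, h1.2.1, fun hx => h1.2.2 (Finset.mem_insert_of_mem hx)⟩⟩
  intro i hi
  simp only [MM, Finset.mem_filter] at hi ⊢
  obtain ⟨hi, hfi, h⟩ := hi
  refine ⟨Finset.mem_insert_of_mem hi, hfi, fun j hj hfj hr => ?_⟩
  rcases Finset.mem_insert.1 hj with rfl | hj
  · exact absurd (hfu.symm.trans hfj) hbc
  · rw [ho i hi, ho j hj]
    exact h j hj hfj (hr.mono hle)

end Pool.Agent.Kempe
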