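import Pool.Agent.Lib.MP_26a019_lc.Defs

/-! Task SideC: the vertex `u` gets the colour `c`. -/

open Finset Classical

namespace Pool.Agent.Kempe

variable {V C : Type} [Fintype V]
variable {G : SimpleGraph V} {f : V → C} {W : Finset V} {a b c : C} {u : V}

theorem Gam_of_c {y : C} (hfu : f u = c) (hyc : y ≠ c) :
    Gam G f (insert u W) c y = Gam G f W c y := by
  have key : ∀ v : V, f v = y → (v ∉ insert u W ↔ v ∉ W) := by
    intro v hv
    have hvu : v ≠ u := by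
      rintro rfl
      exact hyc (hv.symm.trans hfu)
    rw [Finset.mem_insert, not_or]
    exact ⟨fun h => h.2, fun h => ⟨hvu, h⟩⟩
  ext v w
  constructor
  · rintro ⟨h1, h2⟩
    refine ⟨h1, ?_⟩
    rcases h2 with ⟨h3, h4, h5⟩ | ⟨h3, h4, h5⟩
    · exact Or.inl ⟨h3, h4, (key v h3).1 h5⟩
    · exact Or.inr ⟨h3, h4, (key w h3).1 h5⟩
  · rintro ⟨h1, h2⟩
    refine ⟨h1, ?_⟩
    rcases h2 with ⟨h3, h4, h5⟩ | ⟨h3, h4, h5⟩
    · exact Or.inl ⟨h3, h4, (key v h3).2 h5⟩
    · exact Or.inr ⟨h3, h4, (key w h3).2 h5⟩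

theorem SideC.SS_of_c {y : C} (hfu : f u = c) (hyc : y ≠ c) :
    SS G f (insert u W) c y = insert u (SS G f W c y) := by
  ext z
  simp only [SS, Finset.mem_filter, Finset.mem_univ, true_and, Finset.mem_insert]
  constructor
  · rintro ⟨h1, h2⟩
    rcases h2 with (h2 | h2) | ⟨w, hw, hfw, hzw⟩
    · exact Or.inl h2
    · exact Or.inr ⟨h1, Or.inl h2⟩
    · rcases hw with hw | hw
      · exfalso
        rw [hw] at hfw
        exact hyc (hfw.symm.trans hfu)
      · exact Or.inr ⟨h1, Or.inr ⟨w, hw, hfw, hzw⟩⟩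
  · rintro (h | ⟨h1, h2⟩)
    · rw [h]
      exact ⟨hfu, Or.inl (Or.inl rfl)⟩
    · refine ⟨h1, ?_⟩
      rcases h2 with h2 | ⟨w, hw, hfw, hzw⟩
      · exact Or.inl (Or.inr h2)
      · exact Or.inr ⟨w, Or.inr hw, hfw, hzw⟩

theorem NN_a_of_c {y : C} (hfu : f u = c) (hyc : y ≠ c) {w : V} (hw : w ∈ W) (hfw : f w = y)
    (hadj : G.Adj u w) : NN G f (insert u W) c y = NN G f W c y := by
  have hmem : u ∈ SS G f W c y := by
    simp only [SS, Finset.mem_filter, Finset.mem_univ, true_and]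
    exact ⟨hfu, Or.inr ⟨w, hw, hfw, hadj⟩⟩
  unfold NN
  rw [SideC.SS_of_c hfu hyc, Gam_of_c hfu hyc, Finset.insert_eq_of_mem hmem]

theorem NN_b_of_c {y : C} (hfu : f u = c) (hyc : y ≠ c) :
    NN G f (insert u W) c y ≤ NN G f W c y + (if Meets G f W c y u then 0 else 1) := by
  unfold NN
  rw [SideC.SS_of_c hfu hyc, Gam_of_c hfu hyc, Finset.image_insert]
  split_ifs with hm
  · obtain ⟨z, hz, hr⟩ := hm
    have hmem : (Gam G f W c y).connectedComponentMk u ∈
        (SS G f W c y).image (fun z => (Gam G f W c y).connectedComponentMk z) := by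
      rw [Finset.mem_image]
      exact ⟨z, hz, SimpleGraph.ConnectedComponent.sound hr.symm⟩
    rw [Finset.insert_eq_of_mem hmem, add_zero]
  · exact Finset.card_insert_le _ _

theorem MM_of_c {y : C} (hu : u ∉ W) (hfu : f u = c) (hyc : y ≠ c) {ord ord' : V → ℕ}
    (ho : ∀ j ∈ W, ord' j = ord j) (hbig : ∀ j ∈ W, ord j < ord' u) :
    MM G f W c y ord ⊆ MM G f (insert u W) c y ord' := by
  intro i hi
  simp only [MM, Finset.mem_filter] at hi ⊢
  obtain ⟨hiW, hic, hmin⟩ := hi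
  refine ⟨Finset.mem_insert_of_mem hiW, hic, ?_⟩
  intro j hj hjc hr
  rw [Gam_of_c hfu hyc] at hr
  rcases Finset.mem_insert.1 hj with hju | hjW
  · rw [hju, ho i hiW]
    exact le_of_lt (hbig i hiW)
  · rw [ho i hiW, ho j hjW]
    exact hmin j hjW hjc hr

theorem mem_MM_of_c {y : C} (hfu : f u = c) (hyc : y ≠ c) {ord ord' : V → ℕ}
    (hm : ¬ Meets G f W c y u) : u ∈ MM G f (insert u W) c y ord' := by
  simp only [MM, Finset.mem_filter]
  refine ⟨Finset.mem_insert_self u W, hfu, ?_⟩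
  intro j hj hjc hr
  rw [Gam_of_c hfu hyc] at hr
  rcases Finset.mem_insert.1 hj with hju | hjW
  · rw [hju]
  · exfalso
    apply hm
    refine ⟨j, ?_, hr⟩
    simp only [SS, Finset.mem_filter, Finset.mem_univ, true_and]
    exact ⟨hjc, Or.inl hjW⟩

end Pool.Agent.Kempe
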