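import Pool.Agent.Lib.MP_26a019_lc.Defs

open Finset Classical

namespace Pool.Agent.Kempe.Spec

variable {V C : Type} [Fintype V]
variable {G : SimpleGraph V} {f : V → C} {W : Finset V} {a b c : C} {u : V}

/-! ### Task KSets -/
theorem KK_of_c (hu : u ∉ W) (hfu : f u = c) (hca : c ≠ a) (hcb : c ≠ b) :
    KK G f (insert u W) a b = KK G f W a b := by
  sorry

theorem KK_of_b (hu : u ∉ W) (hfu : f u = b) {w : V} (hw : w ∈ W) (hfw : f w = a)
    (hadj : G.Adj u w) : KK G f W a b = insert u (KK G f (insert u W) a b) := by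
  sorry

/-! ### Task SideA: the vertex `u` gets colour `b`, side `a` -/
theorem Gam_a_of_b (hfu : f u = b) (hab : a ≠ b) : Gam G f (insert u W) c a = Gam G f W c a := by
  sorry

theorem NN_a_of_b (hfu : f u = b) (hab : a ≠ b) (hbc : b ≠ c) :
    NN G f (insert u W) c a = NN G f W c a := by
  sorry

theorem MM_a_of_b (hu : u ∉ W) (hfu : f u = b) (hab : a ≠ b) (hbc : b ≠ c) {ord ord' : V → ℕ}
    (ho : ∀ j ∈ W, ord' j = ord j) : MM G f (insert u W) c a ord' = MM G f W c a ord := by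
  sorry

theorem MM_b_of_b (hu : u ∉ W) (hfu : f u = b) (hbc : b ≠ c) {ord ord' : V → ℕ}
    (ho : ∀ j ∈ W, ord' j = ord j) : MM G f W c b ord ⊆ MM G f (insert u W) c b ord' := by
  sorry

/-! ### Task CompB: the main counting lemma -/
/-- Components of `Gam G f (insert u W) c b` meeting its `SS`; this `SS` is the old one together
with the `c`-neighbours of `u`. -/
theorem NN_b_of_b (hu : u ∉ W) (hfu : f u = b) (hbc : b ≠ c) :
    NN G f (insert u W) c b + (if Meets G f W c b u then 1 else 0) ≤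
      NN G f W c b + cdeg G f c u := by
  sorry

/-! ### Task SideC: the vertex `u` gets colour `c` -/
theorem Gam_of_c {y : C} (hfu : f u = c) (hyc : y ≠ c) :
    Gam G f (insert u W) c y = Gam G f W c y := by
  sorry

theorem NN_a_of_c {y : C} (hfu : f u = c) (hyc : y ≠ c) {w : V} (hw : w ∈ W) (hfw : f w = y)
    (hadj : G.Adj u w) : NN G f (insert u W) c y = NN G f W c y := by
  sorry

theorem NN_b_of_c {y : C} (hfu : f u = c) (hyc : y ≠ c) :
    NN G f (insert u W) c y ≤ NN G f W c y + (if Meets G f W c y u then 0 else 1) := by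
  sorry

theorem MM_of_c {y : C} (hu : u ∉ W) (hfu : f u = c) (hyc : y ≠ c) {ord ord' : V → ℕ}
    (ho : ∀ j ∈ W, ord' j = ord j) (hbig : ∀ j ∈ W, ord j < ord' u) :
    MM G f W c y ord ⊆ MM G f (insert u W) c y ord' := by
  sorry

theorem mem_MM_of_c {y : C} (hfu : f u = c) (hyc : y ≠ c) {ord ord' : V → ℕ}
    (hm : ¬ Meets G f W c y u) : u ∈ MM G f (insert u W) c y ord' := by
  sorry

/-! ### Task Step (uses the tasks above) -/
theorem Psi_of_b (hu : u ∉ W) (hfu : f u = b) (hab : a ≠ b) (hac : a ≠ c) (hbc : b ≠ c)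
    {w : V} (hw : w ∈ W) (hfw : f w = a) (hadj : G.Adj u w) {A : Finset V} {ord ord' : V → ℕ}
    (ho : ∀ j ∈ W, ord' j = ord j) :
    Psi G f (insert u W) a b c (insert u A) ord' - (if Meets G f W c b u then 0 else 1) ≤
      Psi G f W a b c A ord := by
  sorry

theorem Psi_of_c (hu : u ∉ W) (hfu : f u = c) (hab : a ≠ b) (hac : a ≠ c) (hbc : b ≠ c)
    {w : V} (hw : w ∈ W) (hfw : f w = a) (hadj : G.Adj u w) {A : Finset V} {ord ord' : V → ℕ}
    (ho : ∀ j ∈ W, ord' j = ord j) (hbig : ∀ j ∈ W, ord j < ord' u) :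
    Psi G f (insert u W) a b c (insert u A) ord' + (if Meets G f W c b u then 0 else 1) ≤
      Psi G f W a b c A ord := by
  sorry

/-! ### Task Swap -/
theorem HH_kswap {x y : C} (hxy : x ≠ y) (hf : Proper G f) (hfu : f u = x ∨ f u = y) :
    HH G (kswap G f x y u) x y = HH G f x y := by
  sorry

theorem kswap_kswap {x y : C} (hxy : x ≠ y) (hf : Proper G f) (hfu : f u = x ∨ f u = y) :
    kswap G (kswap G f x y u) x y u = f := by
  sorry

theorem kswap_proper {x y : C} (hxy : x ≠ y) (hf : Proper G f) (hfu : f u = x ∨ f u = y) :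
    Proper G (kswap G f x y u) := by
  sorry

theorem not_meets_iff (hu : u ∉ W) (hf : Proper G f) (hfu : f u = b ∨ f u = c) (hbc : b ≠ c) :
    ¬ Meets G f W c b u ↔ ∀ w ∈ W, ¬ (HH G f b c).Reachable u w := by
  sorry

variable [Fintype C]

theorem swap_card (p : V → C) (hu : u ∉ W) (hab : a ≠ b) (hac : a ≠ c) (hbc : b ≠ c) :
    (((Om3 G W p a b c).filter (fun f => f u = b ∧ ¬ Meets G f W c b u)).card =
      ((Om3 G W p a b c).filter (fun f => f u = c ∧ ¬ Meets G f W c b u)).card) := by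
  sorry

/-! ### Task Base -/
theorem Psi_base (p : V → C) (hab : a ≠ b) (hac : a ≠ c) (hbc : b ≠ c) (A : Finset V)
    (ord : V → ℕ) (hord : Set.InjOn ord (W : Set V))
    (hbase : ∀ u, u ∉ W → ∀ w ∈ W, G.Adj u w → p w ≠ a ∧ p w ≠ b) :
    0 ≤ ∑ f ∈ Om3 G W p a b c, Psi G f W a b c A ord := by
  sorry

/-! ### Task Main -/
theorem Psi_symm (f : V → C) (A : Finset V) (ord : V → ℕ) :
    Psi G f W a b c A ord = Psi G f W b a c (univ \ A) ord := by
  sorry

theorem Om3_symm (p : V → C) : Om3 G W p a b c = Om3 G W p b a c := by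
  sorry

/-- **Three colour inequality.** -/
theorem Psi_main (p : V → C) (hab : a ≠ b) (hac : a ≠ c) (hbc : b ≠ c) (A : Finset V)
    (ord : V → ℕ) (hord : Set.InjOn ord (W : Set V)) :
    0 ≤ ∑ f ∈ Om3 G W p a b c, Psi G f W a b c A ord := by
  sorry

/-! ### Task Types: choose all types equal and average -/
theorem three_colour (p : V → C) (hab : a ≠ b) (hac : a ≠ c) (hbc : b ≠ c) :
    0 ≤ ∑ f ∈ Om3 G W p a b c,
      ((∑ z ∈ KK G f W a b, ((cdeg G f c z : ℤ) - 1)) + (ecross G f W a b c : ℤ)) := by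
  sorry

/-! ### Task Many: all colours -/
theorem many_colour (p : V → C) (hab : a ≠ b) (hac : a ≠ c) (hbc : b ≠ c) :
    0 ≤ ∑ f ∈ Om G W p,
      ((∑ z ∈ KK G f W a b, ((cdeg G f c z : ℤ) - 1)) + (ecross G f W a b c : ℤ)) := by
  sorry

/-! ### Task KZero -/
/-- purely graph theoretic: every vertex of `KK` has a parent closer to `W`. -/
theorem KK_edges (hab : a ≠ b) (hf : Proper G f) :
    2 * (KK G f W a b).card ≤ (∑ z ∈ KK G f W a b, (cdeg G f a z + cdeg G f b z)) +
      (univ.filter (fun x : V × V => x.1 ∈ W ∧ (f x.1 = a ∨ f x.1 = b) ∧ x.2 ∉ W ∧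
        (f x.2 = a ∨ f x.2 = b) ∧ G.Adj x.1 x.2)).card := by
  sorry

/-- (K0): expected weighted size of the attached Kempe components. -/
theorem kzero (p : V → C) (hab : a ≠ b) :
    ∑ f ∈ Om G W p, ∑ z ∈ KK G f W a b, ((Fintype.card C : ℤ) - (G.degree z : ℤ)) ≤
      (eout G p W a b : ℤ) * ((Om G W p).card : ℤ) := by
  sorry

/-! ### Task Single -/
theorem ksingle (v : V) (hab : a ≠ b) :
    ∑ f ∈ (univ.filter (fun f : V → C => Proper G f ∧ f v = a)), ∑ z ∈ KC G f a b v,
      ((Fintype.card C : ℤ) - (G.degree z : ℤ)) ≤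
      (Fintype.card C : ℤ) * ((univ.filter (fun f : V → C => Proper G f ∧ f v = a)).card : ℤ) := by
  sorry

/-! ### Task Decay -/
/-- one step of the exploration: `R` is a natural number, distances in `G`. -/
theorem decay_step (v : V) (hab : a ≠ b) {D : ℕ} (hD : ∀ z, G.degree z ≤ D)
    (hq : D < Fintype.card C) (j : ℕ) (hj : 1 ≤ j) :
    ((Fintype.card C : ℤ) - D) *
      ∑ f ∈ (univ.filter (fun f : V → C => Proper G f ∧ f v = a)),
        (((KC G f a b v).filter (fun z => j < G.dist v z)).card : ℤ) ≤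
    ((D : ℤ) - 1) *
      ∑ f ∈ (univ.filter (fun f : V → C => Proper G f ∧ f v = a)),
        (((KC G f a b v).filter (fun z => j = G.dist v z)).card : ℤ) := by
  sorry

end Pool.Agent.Kempe.Spec
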