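import Pool.Agent.Lib.MP_26a019_lc.Defs

open Finset Classical

namespace Pool.Agent.Kempe.Spec

variable {V C : Type} [Fintype V] [Fintype C]

/-! ### Task Sym -/
theorem card_perm (G : SimpleGraph V) (v : V) (a b : C) :
    ((PC G C).filter (fun f => f v = a)).card = ((PC G C).filter (fun f => f v = b)).card := by
  sorry

theorem card_mul (G : SimpleGraph V) (v : V) (a : C) :
    Fintype.card C * ((PC G C).filter (fun f => f v = a)).card = (PC G C).card := by
  sorry

/-- Lower bound of the local Dirichlet form by colour symmetry. -/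
theorem local_form (G : SimpleGraph V) (v : V) (h : C → ℝ)
    (hq : G.degree v + 2 ≤ Fintype.card C) :
    ((PC G C).card : ℝ) * (((Fintype.card C : ℝ) - G.degree v - 1) /
        ((Fintype.card C : ℝ) - G.degree v)) *
        ((∑ x : C, ∑ y : C, (h x - h y) ^ 2) /
          ((Fintype.card C : ℝ) * ((Fintype.card C : ℝ) - 1))) ≤
      ∑ f ∈ PC G C, (1 / ((avail G f v).card : ℝ)) * ∑ c ∈ avail G f v, (h (f v) - h c) ^ 2 := by
  sorry

/-! ### Task LinAlg -/
/-- The cluster bound (which is `ksingle`) implies the second moment bound. The component of `v`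
for the colours `a`, `b` is written out. -/
theorem second_moment (G : SimpleGraph V) (hdeg : ∀ v, G.degree v < Fintype.card C)
    (hcl : ∀ (v : V) (a b : C), a ≠ b →
      ∑ f ∈ (univ.filter (fun f : V → C => Proper G f ∧ f v = a)),
        ∑ z ∈ univ.filter (fun z => (HH G f a b).Reachable v z),
          ((Fintype.card C : ℤ) - (G.degree z : ℤ)) ≤
      (Fintype.card C : ℤ) *
        ((univ.filter (fun f : V → C => Proper G f ∧ f v = a)).card : ℤ))
    (h : V → C → ℝ) (h0 : ∀ v, ∑ c, h v c = 0) :
    ∑ f ∈ PC G C, (∑ v, h v (f v)) ^ 2 ≤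
      ((PC G C).card : ℝ) * ∑ v, (∑ c, h v c ^ 2) / ((Fintype.card C : ℝ) - G.degree v) := by
  sorry

/-! ### Task Glauber -/
/-- For additive `g` the Dirichlet form is a sum of local forms. -/
theorem dirichlet_additive (G : SimpleGraph V) (h : V → C → ℝ) :
    dirichlet G (fun f : V → C => ∑ v, h v (f v)) =
      (1 / 2) * (1 / ((PC G C).card : ℝ)) * (1 / (Fintype.card V : ℝ)) * ∑ v, ∑ f ∈ PC G C,
        (1 / ((avail G f v).card : ℝ)) * ∑ c ∈ avail G f v, (h v (f v) - h v c) ^ 2 := by
  sorry

/-- Adding constants to the `h v` does not change the variance. -/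
theorem variance_shift (G : SimpleGraph V) (hne : (PC G C).Nonempty) (h : V → C → ℝ) (k : V → ℝ) :
    variance G (fun f : V → C => ∑ v, (h v (f v) - k v)) =
      variance G (fun f : V → C => ∑ v, h v (f v)) := by
  sorry

end Pool.Agent.Kempe.Spec
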