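import Pool.Agent.Lib.MP_26a019_lc.KSets
import Pool.Agent.Lib.MP_26a019_lc.SideA
import Pool.Agent.Lib.MP_26a019_lc.CompB
import Pool.Agent.Lib.MP_26a019_lc.SideC

/-!
One step of the exploration: the change of the potential when a vertex is revealed.
-/

open Finset Classical

set_option linter.unusedVariables false

namespace Pool.Agent.Kempe

variable {V C : Type} [Fintype V]
variable {G : SimpleGraph V} {f : V → C} {W : Finset V} {a b c : C} {u : V}

theorem Step_MM_mem {y : C} {ord : V → ℕ} {z : V} (h : z ∈ MM G f W c y ord) : z ∈ W := by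
  unfold MM at h
  exact (Finset.mem_filter.1 h).1

theorem Psi_of_b (hu : u ∉ W) (hfu : f u = b) (hab : a ≠ b) (hac : a ≠ c) (hbc : b ≠ c)
    {w : V} (hw : w ∈ W) (hfw : f w = a) (hadj : G.Adj u w) {A : Finset V} {ord ord' : V → ℕ}
    (ho : ∀ j ∈ W, ord' j = ord j) :
    Psi G f (insert u W) a b c (insert u A) ord' - (if Meets G f W c b u then 0 else 1) ≤
      Psi G f W a b c A ord := by
  have hK := KK_of_b (G := G) (a := a) (b := b) hu hfu hw hfw hadj
  have hu' : u ∉ KK G f (insert u W) a b := by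
    unfold KK
    simp
  have hsum : (∑ z ∈ KK G f W a b, ((cdeg G f c z : ℤ) - 1)) =
      ((cdeg G f c u : ℤ) - 1) + ∑ z ∈ KK G f (insert u W) a b, ((cdeg G f c z : ℤ) - 1) := by
    rw [hK, Finset.sum_insert hu']
  have hNa := NN_a_of_b (G := G) (W := W) (a := a) hfu hab hbc
  have hNb := NN_b_of_b (G := G) (W := W) hu hfu hbc
  have hMa := MM_a_of_b (G := G) (a := a) hu hfu hab hbc ho
  have hMb := MM_b_of_b (G := G) hu hfu hbc ho
  have h1 : ((MM G f W c b ord).filter (· ∈ A)).card ≤
      ((MM G f (insert u W) c b ord').filter (· ∈ insert u A)).card := by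
    apply Finset.card_le_card
    intro z hz
    rw [Finset.mem_filter] at hz ⊢
    exact ⟨hMb hz.1, Finset.mem_insert_of_mem hz.2⟩
  have h2 : ((MM G f W c a ord).filter (· ∉ A)).card ≤
      ((MM G f (insert u W) c a ord').filter (· ∉ insert u A)).card := by
    apply Finset.card_le_card
    intro z hz
    rw [Finset.mem_filter] at hz ⊢
    refine ⟨by rw [hMa]; exact hz.1, ?_⟩
    rw [Finset.mem_insert]
    rintro (rfl | h)
    · exact hu (Step_MM_mem hz.1)
    · exact hz.2 h
  unfold Psi
  rw [hsum, hNa]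
  have h1' : ((((MM G f W c b ord).filter (· ∈ A)).card : ℕ) : ℤ) ≤
      (((MM G f (insert u W) c b ord').filter (· ∈ insert u A)).card : ℤ) := by exact_mod_cast h1
  have h2' : ((((MM G f W c a ord).filter (· ∉ A)).card : ℕ) : ℤ) ≤
      (((MM G f (insert u W) c a ord').filter (· ∉ insert u A)).card : ℤ) := by exact_mod_cast h2
  by_cases hm : Meets G f W c b u
  · rw [if_pos hm] at hNb ⊢
    have hNb' : (NN G f (insert u W) c b : ℤ) + 1 ≤ (NN G f W c b : ℤ) + (cdeg G f c u : ℤ) := by
      exact_mod_cast hNb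
    linarith
  · rw [if_neg hm] at hNb ⊢
    have hNb' : (NN G f (insert u W) c b : ℤ) + 0 ≤ (NN G f W c b : ℤ) + (cdeg G f c u : ℤ) := by
      exact_mod_cast hNb
    linarith

theorem Psi_of_c (hu : u ∉ W) (hfu : f u = c) (hab : a ≠ b) (hac : a ≠ c) (hbc : b ≠ c)
    {w : V} (hw : w ∈ W) (hfw : f w = a) (hadj : G.Adj u w) {A : Finset V} {ord ord' : V → ℕ}
    (ho : ∀ j ∈ W, ord' j = ord j) (hbig : ∀ j ∈ W, ord j < ord' u) :
    Psi G f (insert u W) a b c (insert u A) ord' + (if Meets G f W c b u then 0 else 1) ≤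
      Psi G f W a b c A ord := by
  have hK := KK_of_c (G := G) (a := a) (b := b) hu hfu hac.symm hbc.symm
  have hNa := NN_a_of_c (G := G) (W := W) hfu hac hw hfw hadj
  have hNb := NN_b_of_c (G := G) (W := W) hfu hbc
  have hMa := MM_of_c (G := G) hu hfu hac ho hbig
  have hMb := MM_of_c (G := G) hu hfu hbc ho hbig
  have h1 : ((MM G f W c b ord).filter (· ∈ A)).card + (if Meets G f W c b u then 0 else 1) ≤
      ((MM G f (insert u W) c b ord').filter (· ∈ insert u A)).card := by
    have hsub : (MM G f W c b ord).filter (· ∈ A) ⊆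
        (MM G f (insert u W) c b ord').filter (· ∈ insert u A) := by
      intro z hz
      rw [Finset.mem_filter] at hz ⊢
      exact ⟨hMb hz.1, Finset.mem_insert_of_mem hz.2⟩
    by_cases hm : Meets G f W c b u
    · rw [if_pos hm, add_zero]
      exact Finset.card_le_card hsub
    · rw [if_neg hm]
      have hmem := mem_MM_of_c (G := G) (W := W) (ord := ord) (ord' := ord') hfu hbc hm
      have hnot : u ∉ (MM G f W c b ord).filter (· ∈ A) := by
        intro h
        exact hu (Step_MM_mem (Finset.mem_filter.1 h).1)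
      rw [← Finset.card_insert_of_notMem hnot]
      apply Finset.card_le_card
      apply Finset.insert_subset
      · rw [Finset.mem_filter]
        exact ⟨hmem, Finset.mem_insert_self _ _⟩
      · exact hsub
  have h2 : ((MM G f W c a ord).filter (· ∉ A)).card ≤
      ((MM G f (insert u W) c a ord').filter (· ∉ insert u A)).card := by
    apply Finset.card_le_card
    intro z hz
    rw [Finset.mem_filter] at hz ⊢
    refine ⟨hMa hz.1, ?_⟩
    rw [Finset.mem_insert]
    rintro (rfl | h)
    · exact hu (Step_MM_mem hz.1)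
    · exact hz.2 h
  unfold Psi
  rw [hK, hNa]
  have h2' : ((((MM G f W c a ord).filter (· ∉ A)).card : ℕ) : ℤ) ≤
      (((MM G f (insert u W) c a ord').filter (· ∉ insert u A)).card : ℤ) := by exact_mod_cast h2
  by_cases hm : Meets G f W c b u
  · rw [if_pos hm] at hNb h1 ⊢
    have hNb' : (NN G f (insert u W) c b : ℤ) ≤ (NN G f W c b : ℤ) + 0 := by exact_mod_cast hNb
    have h1' : ((((MM G f W c b ord).filter (· ∈ A)).card : ℕ) : ℤ) + 0 ≤
      (((MM G f (insert u W) c b ord').filter (· ∈ insert u A)).card : ℤ) := by exact_mod_cast h1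
    linarith
  · rw [if_neg hm] at hNb h1 ⊢
    have hNb' : (NN G f (insert u W) c b : ℤ) ≤ (NN G f W c b : ℤ) + 1 := by exact_mod_cast hNb
    have h1' : ((((MM G f W c b ord).filter (· ∈ A)).card : ℕ) : ℤ) + 1 ≤
      (((MM G f (insert u W) c b ord').filter (· ∈ insert u A)).card : ℤ) := by exact_mod_cast h1
    linarith

end Pool.Agent.Kempe
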