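import Pool.Agent.Lib.MP_26a019_lc.Main

/-!
From the inequality with types to the three colour inequality (all types equal, average).
-/

open Finset Classical

namespace Pool.Agent.Kempe

variable {V C : Type} [Fintype V]
variable {G : SimpleGraph V} {f : V → C} {W : Finset V} {a b c : C} {u : V}

/-- pairs (pinned `y`-vertex, free `c`-neighbour) -/
private noncomputable def PP (G : SimpleGraph V) (f : V → C) (W : Finset V) (c y : C) :
    Finset (V × V) :=
  univ.filter (fun x : V × V => x.1 ∈ W ∧ f x.1 = y ∧ x.2 ∉ W ∧ f x.2 = c ∧ G.Adj x.1 x.2)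

private lemma PP_add (hab : a ≠ b) :
    (PP G f W c a).card + (PP G f W c b).card ≤ ecross G f W a b c := by
  unfold ecross
  rw [← Finset.card_union_of_disjoint]
  · apply Finset.card_le_card
    intro x hx
    unfold PP at hx
    simp only [mem_union, mem_filter, mem_univ, true_and] at hx ⊢
    rcases hx with ⟨h1, h2, h3, h4, h5⟩ | ⟨h1, h2, h3, h4, h5⟩
    · exact ⟨h1, Or.inl h2, h3, h4, h5⟩
    · exact ⟨h1, Or.inr h2, h3, h4, h5⟩
  · rw [Finset.disjoint_left]
    intro x hx hx'
    unfold PP at hx hx'
    simp only [mem_filter, mem_univ, true_and] at hx hx'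
    exact hab (hx.2.1.symm.trans hx'.2.1)

private lemma NN_le {y : C} (ord : V → ℕ) :
    NN G f W c y ≤ (MM G f W c y ord).card + (PP G f W c y).card := by
  unfold NN
  have hsub : (SS G f W c y).image (fun z => (Gam G f W c y).connectedComponentMk z) ⊆
      (MM G f W c y ord).image (fun z => (Gam G f W c y).connectedComponentMk z) ∪
        (PP G f W c y).image (fun x => (Gam G f W c y).connectedComponentMk x.2) := by
    intro K hK
    obtain ⟨z, hz, rfl⟩ := mem_image.1 hK
    unfold SS at hz
    simp only [mem_filter, mem_univ, true_and] at hz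
    obtain ⟨hzc, hz⟩ := hz
    by_cases hzW : z ∈ W
    · apply mem_union_left
      obtain ⟨i, hi, hmin⟩ := Finset.exists_min_image
        (W.filter (fun j => f j = c ∧ (Gam G f W c y).Reachable z j)) ord
        ⟨z, mem_filter.2 ⟨hzW, hzc, SimpleGraph.Reachable.refl z⟩⟩
      rw [mem_filter] at hi
      refine mem_image.2 ⟨i, ?_, ?_⟩
      · unfold MM
        refine mem_filter.2 ⟨hi.1, hi.2.1, fun j hj hjc hij => ?_⟩
        exact hmin j (mem_filter.2 ⟨hj, hjc, hi.2.2.trans hij⟩)
      · exact SimpleGraph.ConnectedComponent.eq.2 hi.2.2.symm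
    · apply mem_union_right
      rcases hz with hz | ⟨w, hw, hwy, hadj⟩
      · exact absurd hz hzW
      · refine mem_image.2 ⟨(w, z), ?_, rfl⟩
        unfold PP
        simp only [mem_filter, mem_univ, true_and]
        exact ⟨hw, hwy, hzW, hzc, hadj.symm⟩
  calc _ ≤ _ := Finset.card_le_card hsub
    _ ≤ _ := Finset.card_union_le _ _
    _ ≤ _ := Nat.add_le_add Finset.card_image_le Finset.card_image_le

variable [Fintype C]

private lemma three_colour_aux (p : V → C) (hab : a ≠ b)
    (hmain : ∀ (A : Finset V) (ord : V → ℕ), Set.InjOn ord (W : Set V) →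
      0 ≤ ∑ f ∈ Om3 G W p a b c, Psi G f W a b c A ord) :
    0 ≤ ∑ f ∈ Om3 G W p a b c,
      ((∑ z ∈ KK G f W a b, ((cdeg G f c z : ℤ) - 1)) + (ecross G f W a b c : ℤ)) := by
  let ord : V → ℕ := fun v => (Fintype.equivFin V v : ℕ)
  have hord : Set.InjOn ord (W : Set V) := by
    intro x _ y _ h
    exact (Fintype.equivFin V).injective (Fin.ext h)
  have h1 := hmain univ ord hord
  have h2 := hmain ∅ ord hord
  have h3 : ∀ f ∈ Om3 G W p a b c, Psi G f W a b c univ ord + Psi G f W a b c ∅ ord ≤
      2 * ((∑ z ∈ KK G f W a b, ((cdeg G f c z : ℤ) - 1)) + (ecross G f W a b c : ℤ)) := by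
    intro f _
    have e1 : (MM G f W c b ord).filter (· ∈ (univ : Finset V)) = MM G f W c b ord := by
      apply filter_true_of_mem; intro x _; exact mem_univ x
    have e2 : (MM G f W c a ord).filter (· ∉ (univ : Finset V)) = ∅ := by
      apply filter_false_of_mem; intro x _; simp
    have e3 : (MM G f W c b ord).filter (· ∈ (∅ : Finset V)) = ∅ := by
      apply filter_false_of_mem; intro x _; simp
    have e4 : (MM G f W c a ord).filter (· ∉ (∅ : Finset V)) = MM G f W c a ord := by
      apply filter_true_of_mem; intro x _; simp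
    unfold Psi
    rw [e1, e2, e3, e4]
    have i1 := NN_le (G := G) (f := f) (W := W) (c := c) (y := a) ord
    have i2 := NN_le (G := G) (f := f) (W := W) (c := c) (y := b) ord
    have i3 := PP_add (G := G) (f := f) (W := W) (c := c) hab
    rw [card_empty]
    push_cast
    zify at i1 i2 i3
    linarith
  have h4 := Finset.sum_le_sum h3
  rw [Finset.sum_add_distrib, ← Finset.mul_sum] at h4
  linarith

theorem three_colour (p : V → C) (hab : a ≠ b) (hac : a ≠ c) (hbc : b ≠ c) :
    0 ≤ ∑ f ∈ Om3 G W p a b c,
      ((∑ z ∈ KK G f W a b, ((cdeg G f c z : ℤ) - 1)) + (ecross G f W a b c : ℤ)) :=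
  three_colour_aux p hab (fun A ord hord => Psi_main p hab hac hbc A ord hord)

end Pool.Agent.Kempe
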